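import Pool.Agent.MP_eaab15_an.Defs

attribute [-instance] TotallySeparatedSpace.t2Space NonarchimedeanAddGroup.toIsTopologicalAddGroup
  littleWedderburn NumberField.IsCMField.starRing CoalgHomClass.toSemilinearMapClass
  IsValuativeTopology.instValuedValueGroupWithZeroOfIsUniformAddGroup NormedCommRing.toCommRing
  RightPreLieAlgebra.toModule IsTopologicalSemiring.toContinuousAdd LeftPreLieAlgebra.toModule
  MonTypeEquivalenceMon.monMonoid AddQuantale.instAddLeftMono RKHS.instFunLike
  IdemSemiring.toSemiring IdemSemiring.toCanonicallyOrderedAdd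
  Group.IsPerfect.subsingleton_of_isMulCommutative EuclideanDomain.toCommRing
  SeminormedCommRing.toCommRing LieAdmissibleRing.toNonUnitalNonAssocRing
  NonUnitalNormedCommRing.toNonUnitalSeminormedCommRing LieRinehartAlgebra.toIsScalarTower
  MulSemiringAction.toDistribMulAction NonUnitalNormedCommRing.toNonUnitalCommRing
  AddCommGroupWithOne.toAddGroupWithOne IsIsometricSMul.to_continuousConstSMul BooleanRing.toCommRing
  BooleanRing.toRing SubsemiringClass.toCommSemiring
  PositiveLinearMap.instContinuousLinearMapClassComplexOfLinearMapClassOfOrderHomClass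
  Valued.toIsUniformAddGroup continuousSub_of_discreteTopology
  IsValuativeTopology.instIsTopologicalAddGroup DiscreteUniformity.inst AddQuantale.instAddRightMono
  UniformSpace.Completion.instNormedFieldOfCompletableTopField GrpTypeEquivalenceGrp.grpGroup
  RingHomClass.toLinearMapClassNNRat SemilinearIsometryClass.toSemilinearMapClass
  SetLike.GradeZero.instSemiring SetLike.GradeZero.instRing
  NonUnitalSeminormedRing.toPseudoMetricSpace instCharZeroOfIsSemireal NumberField.to_charZero
  SetLike.GradeZero.instCommSemiring IdemCommSemiring.toCommSemiring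
  NonUnitalSeminormedCommRing.toNonUnitalCommRing NonAssocCommRing.toNonUnitalNonAssocCommRing
  instStarHomClassOfSelfAdjointDecomposeOfStarOrderedRingOfStarModuleOfOrderHomClassOfLinearMapClassComplex
  Quantale.instMulRightMono NonarchimedeanRing.toIsTopologicalRing
  IsStarProjection.instTrivialStarOfStarOrderedRing
  SemilinearIsometryClass.toContinuousSemilinearMapClass NonUnitalNonAssocRing.toAddCommGroup
  IsOrderedMonoid.toMulLeftMono UniformSpace.Completion.instNormedCommRing
  NormedDivisionRing.toDivisionRing NonUnitalSemiring.toNonUnitalNonAssocSemiring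
  ProperSMul.toContinuousSMul Quantale.instMulLeftMono BialgHomClass.toMonoidHomClass
  IdemSemiring.toMulLeftMono CommCStarAlgebra.toCStarAlgebra DivisionRing.toDivisionSemiring
  NormedDivisionRing.toNormedRing NormSMulClass.toIsBoundedSMul RCLike.toStarRing
  NonUnitalRingHomClass.toMulHomClass LieRing.toAddCommGroup RingHomClass.toLinearMapClassRat
  WithIdeal.instIsUniformAddGroup RightPreLieRing.toNonUnitalNonAssocRing
  LeftPreLieRing.toNonUnitalNonAssocRing MonoidWithZero.toMulZeroOneClass Bialgebra.toAlgebra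
  AlgHom.instContinuousLinearMapClassOfAlgHomClass
  CategoryTheory.Limits.Concrete.instUniqueToTypeTerminal NonUnitalCStarAlgebra.toStarModule
  TestFunctionClass.toDFunLike instSMulZeroClass LinearOrderedCommMonoidWithZero.toIsBotZeroClass
  RCLike.instContinuousStar ContDiffMapSupportedInClass.toDFunLike
  LinearOrderedCommMonoidWithZero.toPosMulStrictMono ValuationClass.toMonoidWithZeroHomClass
  LinearOrderedAddCommMonoidWithTop.toAddCommMonoid instCoeTCOfCoe
  CategoryTheory.FinCategory.fintypeObj NonUnitalCStarAlgebra.toStarRing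
  NonAssocCommSemiring.toNonAssocSemiring
  TopologicalSpace.UpgradedIsCompletelyPseudoMetrizableSpace.toPseudoMetricSpace
  Valued.toUniformSpace NonUnitalSeminormedRing.toNonUnitalRing
  CommMonTypeEquivalenceCommMon.commMonCommMonoid LinearOrderedAddCommGroupWithTop.toAddCommMonoid
  FiniteDimensional.rclike_to_real Valued.instIsTopologicalRing CentroidHomClass.toAddMonoidHomClass
  NonAssocRing.toNonAssocSemiring SeminormedCommGroup.toPseudoMetricSpace NormedField.toNorm
  Action.instMulAction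

-- part MP_eaab15_an.Lim
section

/-!
Sequential inductive limits of unital C*-algebras with injective connecting maps: properties.
-/

set_option autoImplicit false
set_option linter.style.haveILetI false

open Function

namespace Pool.Agent.MP_eaab15_an

/-- `C` is the closure of the increasing union of the images of the `D n`. -/
structure IsLim {C : Type} [CStarAlgebra C] {D : ℕ → Type} [∀ n, CStarAlgebra (D n)]
    (f : ∀ n, D n →⋆ₐ[ℂ] C) : Prop where
  inj : ∀ n, Injective (f n)
  mono : ∀ n x, ∃ y, f (n + 1) y = f n x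
  dense : ∀ (c : C) (ε : ℝ), 0 < ε → ∃ n x, ‖c - f n x‖ < ε

section general

variable {C : Type} [CStarAlgebra C]

theorem isUnit_of_norm_one_sub_lt {x : C} (h : ‖1 - x‖ < 1) : IsUnit x := by
  have := (Units.oneSub (1 - x) h).isUnit
  simpa using this

/-- In a C*-algebra, a self-adjoint element of norm more than one half acts invertibly on some
nonzero element. -/
theorem exists_cut (a : C) (ha : IsSelfAdjoint a) (hn : 1 / 2 < ‖a‖) :
    ∃ e h : C, e ≠ 0 ∧ h * a * e = e ∧ ‖h‖ ≤ 2 := by
  have hnt : Nontrivial C := by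
    refine ⟨a, 0, ?_⟩
    rintro rfl
    simp at hn
    linarith
  let f : ℝ → ℝ := fun t => max (|t| - 1 / 2) 0
  let g : ℝ → ℝ := fun t => t / max (t ^ 2) (1 / 4)
  have hf : Continuous f := by fun_prop
  have hg : Continuous g := by
    refine continuous_id.div (by fun_prop) fun t => ?_
    have : (1 / 4 : ℝ) ≤ max (t ^ 2) (1 / 4) := le_max_right _ _
    linarith only [this]
  refine ⟨cfc f a, cfc g a, ?_, ?_, ?_⟩
  · intro h0
    have h1 : cfc f a = cfc (fun _ : ℝ => (0 : ℝ)) a := by rw [h0]; simp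
    have h2 := eqOn_of_cfc_eq_cfc h1 hf.continuousOn continuousOn_const ha
    rcases CStarAlgebra.norm_or_neg_norm_mem_spectrum ha with h | h
    · have := h2 h
      simp only [f, abs_norm] at this
      have h3 : ‖a‖ - 1 / 2 ≤ max (‖a‖ - 1 / 2) 0 := le_max_left _ _
      linarith
    · have := h2 h
      simp only [f, abs_neg, abs_norm] at this
      have h3 : ‖a‖ - 1 / 2 ≤ max (‖a‖ - 1 / 2) 0 := le_max_left _ _
      linarith
  · have : cfc g a * a * cfc f a = cfc (fun t => g t * t * f t) a := by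
      rw [cfc_mul (fun t => g t * t) f a (by fun_prop) hf.continuousOn,
        cfc_mul g (fun t => t) a hg.continuousOn (by fun_prop), cfc_id' ℝ a]
    rw [this]
    congr 1
    funext t
    simp only [f, g]
    by_cases ht : |t| ≤ 1 / 2
    · rw [max_eq_right (b := (0 : ℝ)) (by linarith only [ht])]; simp only [one_div, mul_zero]
    · push Not at ht
      have h4 : 1 / 4 ≤ t ^ 2 := by nlinarith only [sq_abs t, ht]
      have h5 : t ≠ 0 := by rintro rfl; norm_num at h4
      rw [max_eq_left h4]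
      field_simp
  · refine norm_cfc_le (by norm_num) fun t _ => ?_
    simp only [g, Real.norm_eq_abs]
    have h1 : (1 / 4 : ℝ) ≤ max (t ^ 2) (1 / 4) := le_max_right _ _
    have h2 : t ^ 2 ≤ max (t ^ 2) (1 / 4) := le_max_left _ _
    rw [abs_div, abs_of_pos (by linarith only [h1] : (0 : ℝ) < max (t ^ 2) (1 / 4)),
      div_le_iff₀ (by linarith only [h1])]
    nlinarith only [sq_abs t, h1, h2]

/-- A simple unital C*-algebra is simple as a ring. -/
theorem IsSimpleCStar.isSimpleRing (h : IsSimpleCStar C) : IsSimpleRing C := by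
  obtain ⟨hnt, hs⟩ := h
  refine IsSimpleRing.of_eq_bot_or_eq_top fun I => ?_
  let J : TwoSidedIdeal C := TwoSidedIdeal.mk' (closure (I : Set C))
    (subset_closure I.zero_mem)
    (fun {x y} hx hy => map_mem_closure₂ continuous_add hx hy fun a ha b hb => I.add_mem ha hb)
    (fun {x} hx => map_mem_closure continuous_neg hx fun a ha => I.neg_mem ha)
    (fun {x y} hy => map_mem_closure (continuous_const.mul continuous_id) hy
      fun a ha => I.mul_mem_left _ _ ha)
    (fun {x y} hx => map_mem_closure (f := fun a => a * y) (by fun_prop) hx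
      fun a ha => I.mul_mem_right _ _ ha)
  have hJ : (J : Set C) = closure (I : Set C) := TwoSidedIdeal.coe_mk' _ _ _ _ _ _
  rcases hs J (by rw [hJ]; exact isClosed_closure) with h | h
  · left
    refine eq_bot_iff.mpr fun x hx => ?_
    have : x ∈ J := by rw [← SetLike.mem_coe, hJ]; exact subset_closure hx
    rw [h] at this
    exact this
  · right
    have h1 : (1 : C) ∈ closure (I : Set C) := by
      rw [← hJ, h]; trivial
    obtain ⟨y, hy, hy1⟩ := Metric.mem_closure_iff.mp h1 1 one_pos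
    rw [dist_eq_norm] at hy1
    obtain ⟨u, rfl⟩ := isUnit_of_norm_one_sub_lt hy1
    rw [← TwoSidedIdeal.one_mem_iff]
    have := I.mul_mem_left (↑u⁻¹ : C) _ hy
    simpa using this

/-- A unital *-homomorphism from a simple C*-algebra to a nonzero one is injective. -/
theorem IsSimpleCStar.injective {E : Type} [CStarAlgebra E] [Nontrivial E] (h : IsSimpleCStar C)
    (φ : C →⋆ₐ[ℂ] E) : Injective φ := by
  have := h.isSimpleRing
  exact RingHom.injective (φ : C →+* E)

end general

namespace IsLim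

variable {C : Type} [CStarAlgebra C] {D : ℕ → Type} [∀ n, CStarAlgebra (D n)]
  {f : ∀ n, D n →⋆ₐ[ℂ] C}

theorem norm_map (hf : IsLim f) (n : ℕ) (x : D n) : ‖f n x‖ = ‖x‖ :=
  NonUnitalStarAlgHom.norm_map (f n) (hf.inj n) x

theorem mono_le (hf : IsLim f) {n m : ℕ} (h : n ≤ m) (x : D n) : ∃ y, f m y = f n x := by
  induction m, h using Nat.le_induction with
  | base => exact ⟨x, rfl⟩
  | succ m _ ih =>
    obtain ⟨y, hy⟩ := ih
    obtain ⟨z, hz⟩ := hf.mono m y
    exact ⟨z, hz.trans hy⟩

theorem dense_fin (hf : IsLim f) {ι : Type} [Finite ι] (c : ι → C) (ε : ℝ) (hε : 0 < ε) :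
    ∃ n, ∃ x : ι → D n, ∀ i, ‖c i - f n (x i)‖ < ε := by
  choose n x hx using fun i => hf.dense (c i) ε hε
  obtain ⟨N, hN⟩ := (Set.finite_range n).bddAbove
  have h : ∀ i, ∃ y, f N y = f (n i) (x i) := fun i => hf.mono_le (hN ⟨i, rfl⟩) (x i)
  choose y hy using h
  exact ⟨N, y, fun i => by rw [hy]; exact hx i⟩

theorem simple (hf : IsLim f) [Nontrivial C]
    (hfull : ∀ n (e : D n), e ≠ 0 → ∀ I : TwoSidedIdeal C, f n e ∈ I → (1 : C) ∈ I) :
    IsSimpleCStar C := by
  refine ⟨inferInstance, fun I _ => ?_⟩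
  by_cases hI : I = ⊥
  · exact Or.inl hI
  right
  obtain ⟨x0, hx0, hne⟩ : ∃ x ∈ I, x ≠ 0 := by
    by_contra hcon
    push Not at hcon
    exact hI (eq_bot_iff.mpr fun x hx => by rw [hcon x hx]; exact TwoSidedIdeal.zero_mem _)
  set x : C := ((‖x0‖⁻¹ : ℝ) : ℂ) • x0 with hxdef
  have hx : x ∈ I := by
    rw [hxdef, Algebra.smul_def]; exact I.mul_mem_left _ _ hx0
  have hx1 : ‖x‖ = 1 := by
    have : ‖x0‖ ≠ 0 := norm_ne_zero_iff.mpr hne
    rw [hxdef, norm_smul]; simp [this]
  obtain ⟨n, d, hd⟩ := hf.dense x (1 / 8) (by norm_num)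
  have hd1 : ‖d‖ ≤ 9 / 8 := by
    rw [← hf.norm_map n d]
    have : ‖f n d‖ ≤ ‖x‖ + ‖x - f n d‖ := by
      simpa only [sub_sub_cancel] using norm_sub_le x (x - f n d)
    linarith only [hx1, hd, this]
  have hd2 : 7 / 8 ≤ ‖d‖ := by
    rw [← hf.norm_map n d]
    have : ‖x‖ ≤ ‖x - f n d‖ + ‖f n d‖ := by
      simpa only [sub_add_cancel] using norm_add_le (x - f n d) (f n d)
    linarith only [hx1, hd, this]
  have ha : 1 / 2 < ‖star d * d‖ := by
    rw [CStarRing.norm_star_mul_self]; nlinarith only [hd2]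
  obtain ⟨e, h, he, hae, hh⟩ := exists_cut (star d * d) (IsSelfAdjoint.star_mul_self d) ha
  set z : C := f n h * (star (f n d) * (f n d - x)) with hz
  have hzn : ‖z‖ < 1 := by
    have h1 : ‖z‖ ≤ ‖f n h‖ * (‖star (f n d)‖ * ‖f n d - x‖) :=
      (norm_mul_le _ _).trans (by gcongr; exact norm_mul_le _ _)
    rw [norm_star, hf.norm_map, hf.norm_map, norm_sub_rev] at h1
    have h2 : ‖h‖ * (‖d‖ * ‖x - f n d‖) ≤ 2 * (9 / 8 * (1 / 8)) := by
      gcongr
    linarith only [h1, h2]
  have hmem : (1 - z) * f n e ∈ I := by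
    have h1 : f n h * (star (f n d) * f n d) * f n e = f n e := by
      rw [← map_star, ← map_mul, ← map_mul, ← map_mul, hae]
    have h2 : (1 - z) * f n e = f n h * star (f n d) * x * f n e := by
      rw [hz, sub_mul, one_mul]
      conv_lhs => rw [← h1]
      rw [h1]
      conv_lhs => lhs; rw [← h1]
      noncomm_ring
    rw [h2]
    exact I.mul_mem_right _ _ (I.mul_mem_left _ _ hx)
  have hu : IsUnit (1 - z) := (Units.oneSub z hzn).isUnit
  obtain ⟨u, hu⟩ := hu
  have hmem2 : f n e ∈ I := by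
    have := I.mul_mem_left (↑u⁻¹ : C) _ hmem
    rwa [← hu, ← mul_assoc, Units.inv_mul, one_mul] at this
  exact TwoSidedIdeal.one_mem_iff I |>.mp (hfull n e he I hmem2)

theorem norm_cstarMatrix_le {ι : Type} [Fintype ι] [DecidableEq ι] {E : Type} [CStarAlgebra E]
    [PartialOrder E] [StarOrderedRing E] (ε : ℝ) (hε : 0 < ε) :
    ∃ δ : ℝ, 0 < δ ∧ ∀ M : CStarMatrix ι ι E, (∀ i j, ‖M i j‖ < δ) → ‖M‖ < ε := by
  have h1 : Metric.ball (0 : CStarMatrix ι ι E) ε ∈ nhds (0 : CStarMatrix ι ι E) :=
    Metric.ball_mem_nhds _ hε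
  have h2 : Metric.ball (0 : CStarMatrix ι ι E) ε ∈ nhds (0 : ι → ι → E) := h1
  obtain ⟨δ, hδ, h3⟩ := Metric.mem_nhds_iff.mp h2
  refine ⟨δ, hδ, fun M hM => ?_⟩
  let M' : ι → ι → E := M
  have h4 : M' ∈ Metric.ball (0 : ι → ι → E) δ := by
    rw [mem_ball_zero_iff, pi_norm_lt_iff hδ]
    intro i
    rw [pi_norm_lt_iff hδ]
    exact hM i
  have := h3 h4
  exact mem_ball_zero_iff.mp this

theorem stablyFinite (hf : IsLim f) (hD : ∀ n, IsStablyFiniteRing (D n)) :
    IsStablyFiniteRing C := by
  refine ⟨fun k => ⟨fun {a0 b0} hab0 => ?_⟩⟩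
  letI : PartialOrder C := CStarAlgebra.spectralOrder C
  haveI : StarOrderedRing C := CStarAlgebra.spectralOrderedRing C
  let a : CStarMatrix (Fin k) (Fin k) C := a0
  let b : CStarMatrix (Fin k) (Fin k) C := b0
  have hab : a * b = 1 := hab0
  set ε : ℝ := 1 / (4 * (‖a‖ + ‖b‖ + 1)) with hεdef
  have hpos : 0 < ‖a‖ + ‖b‖ + 1 := by positivity
  have hε : 0 < ε := by positivity
  have hε1 : ε * (‖a‖ + ‖b‖ + 1) = 1 / 4 := by rw [hεdef]; field_simp
  obtain ⟨δ, hδ, hM⟩ := norm_cstarMatrix_le (ι := Fin k) (E := C) ε hε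
  obtain ⟨n, x, hx⟩ := hf.dense_fin
    (fun p : Bool × Fin k × Fin k => if p.1 then a p.2.1 p.2.2 else b p.2.1 p.2.2) δ hδ
  letI : PartialOrder (D n) := CStarAlgebra.spectralOrder (D n)
  haveI : StarOrderedRing (D n) := CStarAlgebra.spectralOrderedRing (D n)
  let a' : CStarMatrix (Fin k) (Fin k) (D n) := fun i j => x (true, i, j)
  let b' : CStarMatrix (Fin k) (Fin k) (D n) := fun i j => x (false, i, j)
  let Φ : CStarMatrix (Fin k) (Fin k) (D n) →⋆ₙₐ[ℂ] CStarMatrix (Fin k) (Fin k) C :=
    CStarMatrix.mapₙₐ (f n : D n →⋆ₙₐ[ℂ] C)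
  have hΦ : ∀ M i j, Φ M i j = f n (M i j) := fun _ _ _ => rfl
  have hΦinj : Injective Φ := by
    intro M N h
    ext i j
    apply hf.inj n
    rw [← hΦ, ← hΦ, h]
  have hΦ1 : Φ 1 = 1 := by
    ext i j
    rw [hΦ, CStarMatrix.one_apply, CStarMatrix.one_apply]
    split_ifs <;> simp
  have ha : ‖a - Φ a'‖ < ε := hM _ fun i j => hx (true, i, j)
  have hb : ‖b - Φ b'‖ < ε := hM _ fun i j => hx (false, i, j)
  have hεle : ε ≤ 1 := by nlinarith only [norm_nonneg a, norm_nonneg b, hε1]
  have h1 : ‖1 - a * Φ b'‖ ≤ ‖a‖ * ε := by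
    rw [← hab, ← mul_sub]
    exact (norm_mul_le _ _).trans (by gcongr)
  have h2 : ‖1 - a' * b'‖ < 1 := by
    rw [← NonUnitalStarAlgHom.norm_map Φ hΦinj, map_sub, map_mul, hΦ1]
    have h3 : 1 - Φ a' * Φ b' = (1 - a * Φ b') + (a - Φ a') * Φ b' := by noncomm_ring
    have h4 : ‖Φ b'‖ ≤ ‖b‖ + ε := by
      have := norm_sub_le b (b - Φ b')
      simp only [sub_sub_cancel] at this
      linarith only [hb, this]
    have h5 : ‖(a - Φ a') * Φ b'‖ ≤ ε * (‖b‖ + ε) := (norm_mul_le _ _).trans (by gcongr)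
    rw [h3]
    have h6 := norm_add_le (1 - a * Φ b') ((a - Φ a') * Φ b')
    nlinarith only [hε, hε1, hεle, h1, h5, h6]
  have hu : IsUnit (a' * b') := isUnit_of_norm_one_sub_lt h2
  haveI : IsDedekindFiniteMonoid (CStarMatrix (Fin k) (Fin k) (D n)) :=
    (hD n).isDedekindFiniteMonoid k
  have hb' : IsUnit b' := isUnit_of_mul_isUnit_right hu
  obtain ⟨v, hv⟩ := hb'
  have hv1 : Φ b' * Φ (↑v⁻¹) = 1 := by rw [← map_mul, ← hv, Units.mul_inv, hΦ1]
  have hv2 : Φ (↑v⁻¹) * Φ b' = 1 := by rw [← map_mul, ← hv, Units.inv_mul, hΦ1]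
  obtain ⟨w, hw⟩ : IsUnit (a * Φ b') :=
    isUnit_of_norm_one_sub_lt (by nlinarith only [norm_nonneg b, hε, hε1, h1])
  have haw : a = w * Φ (↑v⁻¹) := by rw [hw, mul_assoc, hv1, mul_one]
  let w' : CStarMatrix (Fin k) (Fin k) C := (w⁻¹ : Units _).val
  have hw' : w' * w = 1 := Units.inv_mul w
  have hl : (Φ b' * w') * a = 1 := by
    rw [haw, mul_assoc, ← mul_assoc w', hw', one_mul, hv1]
  have hbeq : b = Φ b' * w' := by
    calc b = (Φ b' * w') * a * b := by rw [hl, one_mul]
      _ = Φ b' * w' := by rw [mul_assoc, hab, mul_one]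
  have : b * a = 1 := by rw [hbeq, hl]
  exact this

/-- Two presentations of the same algebra as a limit, with compatible connecting elements, differ
by an automorphism. -/
theorem exists_aut {g : ∀ n, D n →⋆ₐ[ℂ] C} (hf : IsLim f) (hg : IsLim g)
    (hm : ∀ n x, ∃ y, f (n + 1) y = f n x ∧ g (n + 1) y = g n x) :
    ∃ θ : C ≃⋆ₐ[ℂ] C, ∀ n x, θ (f n x) = g n x := by
  let S : ℕ → StarSubalgebra ℂ (C × C) := fun n => ((f n).prod (g n)).range
  have hS : Monotone S := by
    refine monotone_nat_of_le_succ fun n => ?_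
    rintro _ ⟨x, rfl⟩
    obtain ⟨y, h1, h2⟩ := hm n x
    exact ⟨y, Prod.ext h1 h2⟩
  let T : StarSubalgebra ℂ (C × C) := (⨆ n, S n).topologicalClosure
  haveI hT : IsClosed (T : Set (C × C)) := StarSubalgebra.isClosed_topologicalClosure _
  have hnorm : ∀ p ∈ T, ‖p.1‖ = ‖p.2‖ := by
    intro p hp
    have hc : IsClosed {p : C × C | ‖p.1‖ = ‖p.2‖} := isClosed_eq (by fun_prop) (by fun_prop)
    refine hc.closure_subset_iff.mpr ?_ hp
    intro q hq
    have hq' : q ∈ ((⨆ n, S n : StarSubalgebra ℂ (C × C)) : Set (C × C)) := hq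
    rw [StarSubalgebra.coe_iSup_of_directed hS.directed_le] at hq'
    obtain ⟨n, x, rfl⟩ := Set.mem_iUnion.mp hq'
    show ‖f n x‖ = ‖g n x‖
    rw [hf.norm_map, hg.norm_map]
  have hmem : ∀ n x, (f n x, g n x) ∈ T := fun n x =>
    StarSubalgebra.le_topologicalClosure _ (le_iSup S n ⟨x, rfl⟩)
  let p1 : T →⋆ₐ[ℂ] C := (StarAlgHom.fst ℂ C C).comp T.subtype
  let p2 : T →⋆ₐ[ℂ] C := (StarAlgHom.snd ℂ C C).comp T.subtype
  have hp1 : Injective p1 := by
    rw [injective_iff_map_eq_zero]
    intro p hp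
    have h1 : p.1.1 = 0 := hp
    have h2 := hnorm p.1 p.2
    rw [h1, norm_zero] at h2
    exact Subtype.ext (Prod.ext h1 (norm_eq_zero.mp h2.symm))
  have hp2 : Injective p2 := by
    rw [injective_iff_map_eq_zero]
    intro p hp
    have h1 : p.1.2 = 0 := hp
    have h2 := hnorm p.1 p.2
    rw [h1, norm_zero] at h2
    exact Subtype.ext (Prod.ext (norm_eq_zero.mp h2) h1)
  have hsurj : ∀ (p : T →⋆ₐ[ℂ] C) (h : ∀ n, D n →⋆ₐ[ℂ] C), Injective p → IsLim h →
      (∀ n x, h n x ∈ Set.range p) → Surjective p := by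
    intro p h hp hh hr c
    have hc : IsClosed (Set.range p) :=
      (NonUnitalStarAlgHom.isometry p hp).isClosedEmbedding.isClosed_range
    refine hc.closure_subset_iff.mpr (le_refl _) ?_
    refine Metric.mem_closure_iff.mpr fun ε hε => ?_
    obtain ⟨n, x, hx⟩ := hh.dense c ε hε
    exact ⟨h n x, hr n x, by rwa [dist_eq_norm]⟩
  have hs1 : Surjective p1 := hsurj p1 f hp1 hf fun n x => ⟨⟨_, hmem n x⟩, rfl⟩
  have hs2 : Surjective p2 := hsurj p2 g hp2 hg fun n x => ⟨⟨_, hmem n x⟩, rfl⟩
  let e1 := StarAlgEquiv.ofBijective p1 ⟨hp1, hs1⟩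
  let e2 := StarAlgEquiv.ofBijective p2 ⟨hp2, hs2⟩
  refine ⟨e1.symm.trans e2, fun n x => ?_⟩
  have : e1.symm (f n x) = ⟨_, hmem n x⟩ := by
    rw [StarAlgEquiv.symm_apply_eq]; rfl
  rw [StarAlgEquiv.trans_apply, this]
  rfl

theorem aut_ext (hf : IsLim f) {θ θ' : C ≃⋆ₐ[ℂ] C} (h : ∀ n x, θ (f n x) = θ' (f n x)) :
    θ = θ' := by
  ext c
  have hc : IsClosed {c : C | θ c = θ' c} :=
    isClosed_eq (StarAlgEquiv.isometry θ).continuous (StarAlgEquiv.isometry θ').continuous
  refine hc.closure_subset_iff.mpr (le_refl _) ?_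
  refine Metric.mem_closure_iff.mpr fun ε hε => ?_
  obtain ⟨n, x, hx⟩ := hf.dense c ε hε
  exact ⟨f n x, h n x, by rwa [dist_eq_norm]⟩

end IsLim

end Pool.Agent.MP_eaab15_an

end

-- part MP_eaab15_an.LimExists
section

/-!
Existence of sequential inductive limits of unital C*-algebras with injective connecting maps.
-/

set_option autoImplicit false
set_option linter.style.haveILetI false

open Function

namespace Pool.Agent.MP_eaab15_an

section completion

open UniformSpace UniformSpace.Completion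

variable {L : Type} [SeminormedRing L] [StarRing L] [NormedAlgebra ℂ L] [StarModule ℂ L]

theorem uc_star (hs : ∀ x : L, ‖star x‖ = ‖x‖) : UniformContinuous (star : L → L) := by
  have : Isometry (star : L → L) := AddMonoidHomClass.isometry_of_norm (starAddEquiv : L ≃+ L) hs
  exact this.uniformContinuous

theorem exists_completion (hs : ∀ x : L, ‖star x‖ = ‖x‖)
    (hc : ∀ x : L, ‖x‖ * ‖x‖ ≤ ‖star x * x‖) :
    ∃ (C : Type) (_ : CStarAlgebra C) (j : L →⋆ₐ[ℂ] C), (∀ x, ‖j x‖ = ‖x‖) ∧ DenseRange j := by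
  have huc := uc_star hs
  letI iR : NormedRing (Completion L) := inferInstance
  letI iS : Star (Completion L) := ⟨Completion.map star⟩
  have hstar : ∀ x : L, star (x : Completion L) = ((star x : L) : Completion L) :=
    fun x => Completion.map_coe huc x
  have hcont : Continuous (star : Completion L → Completion L) := Completion.continuous_map
  letI iSR : StarRing (Completion L) :=
    { star_involutive := fun x => by
        induction x using induction_on with
        | hp => exact isClosed_eq (hcont.comp hcont) continuous_id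
        | ih x => rw [hstar, hstar, star_star]
      star_mul := fun x y => by
        induction x, y using induction_on₂ with
        | hp =>
          exact isClosed_eq (hcont.comp (continuous_fst.mul continuous_snd))
            ((hcont.comp continuous_snd).mul (hcont.comp continuous_fst))
        | ih x y => rw [← coe_mul, hstar, hstar, hstar, star_mul, coe_mul]
      star_add := fun x y => by
        induction x, y using induction_on₂ with
        | hp =>
          exact isClosed_eq (hcont.comp (continuous_fst.add continuous_snd))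
            ((hcont.comp continuous_fst).add (hcont.comp continuous_snd))
        | ih x y => rw [← coe_add, hstar, hstar, hstar, star_add, coe_add] }
  letI iA : NormedAlgebra ℂ (Completion L) := { norm_smul_le := norm_smul_le }
  haveI iM : StarModule ℂ (Completion L) :=
    { star_smul := fun r x => by
        induction x using induction_on with
        | hp =>
          exact isClosed_eq (hcont.comp (continuous_const_smul r))
            ((continuous_const_smul _).comp hcont)
        | ih x => rw [← coe_smul, hstar, hstar, star_smul, coe_smul] }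
  haveI iC : CStarRing (Completion L) :=
    { norm_mul_self_le := fun x => by
        induction x using induction_on with
        | hp =>
          exact isClosed_le (continuous_norm.mul continuous_norm)
            (continuous_norm.comp (hcont.mul continuous_id))
        | ih x => rw [hstar, ← coe_mul, norm_coe, norm_coe]; exact hc x }
  letI iCS : CStarAlgebra (Completion L) := {}
  let j : L →⋆ₐ[ℂ] Completion L :=
    { (coeRingHom : L →+* Completion L) with
      commutes' := fun r => rfl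
      map_star' := fun x => (hstar x).symm }
  exact ⟨Completion L, iCS, j, fun x => norm_coe x, denseRange_coe⟩

end completion

section limit

variable {D : ℕ → Type} [∀ n, CStarAlgebra (D n)] (φ : ∀ n, D n →⋆ₐ[ℂ] D (n + 1))

/-- Composite connecting maps. -/
noncomputable def conn (n m : ℕ) (h : n ≤ m) : D n →⋆ₐ[ℂ] D m :=
  Nat.leRec (motive := fun m _ => D n →⋆ₐ[ℂ] D m) (StarAlgHom.id ℂ (D n))
    (fun k _ g => (φ k).comp g) h

theorem conn_self (n : ℕ) : conn φ n n le_rfl = StarAlgHom.id ℂ (D n) := Nat.leRec_self _ _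

theorem conn_succ (n m : ℕ) (h : n ≤ m) (h' : n ≤ m + 1) :
    conn φ n (m + 1) h' = (φ m).comp (conn φ n m h) := Nat.leRec_succ _ _ h

theorem conn_conn {k j i : ℕ} (hij : i ≤ j) (hjk : j ≤ k) (x : D i) :
    conn φ j k hjk (conn φ i j hij x) = conn φ i k (hij.trans hjk) x := by
  induction k, hjk using Nat.le_induction with
  | base => rw [conn_self]; rfl
  | succ k hjk ih =>
    rw [conn_succ φ j k hjk, conn_succ φ i k (hij.trans hjk), StarAlgHom.comp_apply,
      StarAlgHom.comp_apply, ih]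

instance directedSystem_conn : DirectedSystem D (fun i j h => ⇑(conn φ i j h)) where
  map_self := fun i x => by rw [conn_self]; rfl
  map_map := fun _ _ _ hij hjk x => conn_conn φ hij hjk x

theorem norm_conn (hφ : ∀ n, Injective (φ n)) (n m : ℕ) (h : n ≤ m) (x : D n) :
    ‖conn φ n m h x‖ = ‖x‖ := by
  induction m, h using Nat.le_induction with
  | base => rw [conn_self]; rfl
  | succ m h ih =>
    rw [conn_succ φ n m h, StarAlgHom.comp_apply, NonUnitalStarAlgHom.norm_map _ (hφ m), ih]

theorem exists_lim (hφ : ∀ n, Injective (φ n)) :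
    ∃ (C : Type) (_ : CStarAlgebra C) (f : ∀ n, D n →⋆ₐ[ℂ] C),
      IsLim f ∧ ∀ n x, f (n + 1) (φ n x) = f n x := by
  let L := DirectLimit D (conn φ)
  let N : L → ℝ := DirectLimit.lift (conn φ) (fun i x => ‖x‖)
    (fun i j h x => (norm_conn φ hφ i j h x).symm)
  have hN : ∀ i (x : D i), N (⟦⟨i, x⟩⟧ : L) = ‖x‖ := fun i x => rfl
  let ν : RingSeminorm L :=
    { toFun := N
      map_zero' := by rw [DirectLimit.zero_def 0, hN, norm_zero]
      add_le' := DirectLimit.induction₂ (conn φ) fun i x y => by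
        rw [DirectLimit.add_def, hN, hN, hN]; exact norm_add_le _ _
      neg' := DirectLimit.induction (conn φ) fun i x => by
        rw [DirectLimit.neg_def, hN, hN, norm_neg]
      mul_le' := DirectLimit.induction₂ (conn φ) fun i x y => by
        rw [DirectLimit.mul_def, hN, hN, hN]; exact norm_mul_le _ _ }
  letI iR : SeminormedRing L := ν.toSeminormedRing
  have hn : ∀ i (x : D i), ‖(⟦⟨i, x⟩⟧ : L)‖ = ‖x‖ := fun i x => rfl
  letI iA : NormedAlgebra ℂ L :=
    { norm_smul_le := fun r => DirectLimit.induction (conn φ) fun i x => by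
        rw [DirectLimit.smul_def, hn, hn]; exact norm_smul_le _ _ }
  obtain ⟨C, iC, j, hj, hd⟩ := exists_completion (L := L)
    (DirectLimit.induction (conn φ) fun i x => by rw [DirectLimit.star_def, hn, hn, norm_star])
    (DirectLimit.induction (conn φ) fun i x => by
      rw [DirectLimit.star_def, DirectLimit.mul_def, hn, hn, CStarRing.norm_star_mul_self])
  let o : ∀ n, D n →⋆ₐ[ℂ] L := fun n =>
    { DirectLimit.Ring.of D (conn φ) n with
      commutes' := fun r => (DirectLimit.algebraMap_def n r).symm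
      map_star' := fun x => (DirectLimit.star_def n x).symm }
  have ho : ∀ n x, o n x = (⟦⟨n, x⟩⟧ : L) := fun n x => rfl
  have hcomp : ∀ n x, o (n + 1) (φ n x) = o n x := by
    intro n x
    rw [ho, ho, DirectLimit.eq_of_le (⟨n, x⟩ : Σ i, D i) (n + 1) (Nat.le_succ n)]
    simp only
    rw [conn_succ φ n n le_rfl, conn_self]
    rfl
  refine ⟨C, iC, fun n => j.comp (o n), ⟨fun n => ?_, fun n x => ⟨φ n x, ?_⟩, fun c ε hε => ?_⟩,
    fun n x => ?_⟩
  · rw [injective_iff_map_eq_zero]
    intro x hx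
    have : ‖j (o n x)‖ = ‖x‖ := by rw [hj, ho, hn]
    rw [show j (o n x) = 0 from hx, norm_zero] at this
    exact norm_eq_zero.mp this.symm
  · simp only [StarAlgHom.comp_apply, hcomp]
  · obtain ⟨y, hy⟩ := hd.exists_dist_lt c hε
    obtain ⟨n, x, rfl⟩ := DirectLimit.exists_eq_mk (conn φ) y
    exact ⟨n, x, by rwa [dist_eq_norm] at hy⟩
  · simp only [StarAlgHom.comp_apply, hcomp]

end limit

end Pool.Agent.MP_eaab15_an

end

-- part MP_eaab15_an.Mat
section

/-!
Matrix lemmas: block diagonal embeddings, amplifications, traces of idempotents.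
-/

set_option autoImplicit false
set_option linter.style.haveILetI false
set_option linter.unusedSectionVars false

open Function Matrix

namespace Pool.Agent.MP_eaab15_an

section bd

variable {I K : Type} [Fintype I] [DecidableEq I] [Fintype K] [DecidableEq K]

/-- Block diagonal matrices, as a *-homomorphism. -/
def bd : (K → Matrix I I ℂ) →⋆ₐ[ℂ] Matrix (I × K) (I × K) ℂ :=
  { blockDiagonalRingHom I K ℂ with
    commutes' := fun r => by
      ext ⟨i, k⟩ ⟨j, l⟩
      simp only [blockDiagonalRingHom, algebraMap_matrix_apply, Prod.mk.injEq]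
      show blockDiagonal _ _ _ = _
      rw [blockDiagonal_apply]
      by_cases h1 : k = l <;> by_cases h2 : i = j <;> simp [h1, h2, algebraMap_matrix_apply]
    map_star' := fun x => (blockDiagonal_conjTranspose x).symm }

/-- Reindexing, as a *-homomorphism. -/
def reidx (e : K ≃ I) : Matrix I I ℂ →⋆ₐ[ℂ] Matrix K K ℂ :=
  { (reindexAlgEquiv ℂ ℂ e.symm).toAlgHom with
    map_star' := fun _ => rfl }

end bd

section amp

variable {I P M : Type} [Fintype I] [DecidableEq I] [Fintype P] [DecidableEq P] [Fintype M]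
  [DecidableEq M]

/-- Constant families. -/
def cst (M R : Type) [Ring R] [StarRing R] [Algebra ℂ R] : R →⋆ₐ[ℂ] (M → R) :=
  { Pi.constAlgHom ℂ M R with map_star' := fun _ => rfl }

/-- The amplification of a matrix along an identification of the index set with a product. -/
def amp (e : I ≃ P × M) : Matrix P P ℂ →⋆ₐ[ℂ] Matrix I I ℂ :=
  (reidx e).comp (bd.comp (cst M (Matrix P P ℂ)))

theorem amp_apply (e : I ≃ P × M) (a : Matrix P P ℂ) (i j : I) :
    amp e a i j = if (e i).2 = (e j).2 then a (e i).1 (e j).1 else 0 := rfl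

theorem amp_injective [Nonempty M] (e : I ≃ P × M) : Injective (amp e) := by
  intro a b h
  ext i j
  obtain ⟨m⟩ := ‹Nonempty M›
  have := congrFun (congrFun h (e.symm (i, m))) (e.symm (j, m))
  simpa [amp_apply] using this

theorem amp_commute (e : I ≃ P × M) (a : Matrix P P ℂ) (b : Matrix M M ℂ) :
    amp e a * amp (e.trans (Equiv.prodComm P M)) b
      = amp (e.trans (Equiv.prodComm P M)) b * amp e a := by
  ext i j
  simp only [mul_apply, amp_apply, Equiv.trans_apply, Equiv.prodComm_apply, Prod.snd_swap,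
    Prod.fst_swap]
  rw [Equiv.sum_comp e (fun x => (if (e i).2 = x.2 then a (e i).1 x.1 else 0) *
      if x.1 = (e j).1 then b x.2 (e j).2 else 0),
    Equiv.sum_comp e (fun x => (if (e i).1 = x.1 then b (e i).2 x.2 else 0) *
      if x.2 = (e j).2 then a x.1 (e j).1 else 0), Fintype.sum_prod_type, Fintype.sum_prod_type]
  simp only [mul_ite, ite_mul, zero_mul, mul_comm, mul_zero, ite_self, Finset.sum_ite_irrel, Finset.sum_ite_eq, Finset.mem_univ, ↓ reduceIte, Finset.sum_const_zero, Finset.sum_ite_eq']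

end amp

end Pool.Agent.MP_eaab15_an

end

-- part MP_eaab15_an.AlgA
section

/-!
The simple projectionless algebra with a central sequence of odd unitaries.
-/

set_option autoImplicit false
set_option linter.style.haveILetI false
set_option linter.unusedSectionVars false

open Function Matrix
open scoped Matrix.Norms.L2Operator

namespace Pool.Agent.MP_eaab15_an

theorem IsLim.exists_action {C : Type} [CStarAlgebra C] {D : ℕ → Type} [∀ n, CStarAlgebra (D n)]
    {f : ∀ n, D n →⋆ₐ[ℂ] C} (hf : IsLim f) {G : Type} [Group G]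
    (φ : ∀ n, D n →⋆ₐ[ℂ] D (n + 1)) (hφ : ∀ n x, f (n + 1) (φ n x) = f n x)
    (ρ : ∀ n, G → D n →⋆ₐ[ℂ] D n) (h1 : ∀ n x, ρ n 1 x = x)
    (hmul : ∀ n g h x, ρ n (g * h) x = ρ n g (ρ n h x))
    (hc : ∀ n g x, ρ (n + 1) g (φ n x) = φ n (ρ n g x)) :
    ∃ α : G →* StarAut C, ∀ g n x, α g (f n x) = f n (ρ n g x) := by
  have hinv : ∀ n g x, ρ n g (ρ n g⁻¹ x) = x := fun n g x => by rw [← hmul, mul_inv_cancel, h1]
  have hinv' : ∀ n g x, ρ n g⁻¹ (ρ n g x) = x := fun n g x => by rw [← hmul, inv_mul_cancel, h1]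
  have key : ∀ g : G, ∃ θ : C ≃⋆ₐ[ℂ] C, ∀ n x, θ (f n x) = ((f n).comp (ρ n g)) x := by
    intro g
    refine hf.exists_aut ⟨fun n => ?_, fun n x => ⟨φ n x, ?_⟩, fun c ε hε => ?_⟩
      fun n x => ⟨φ n x, hφ n x, ?_⟩
    · exact (hf.inj n).comp (LeftInverse.injective (hinv' n g))
    · simp only [StarAlgHom.comp_apply, hc, hφ]
    · obtain ⟨n, x, hx⟩ := hf.dense c ε hε
      exact ⟨n, ρ n g⁻¹ x, by simpa only [StarAlgHom.comp_apply, hinv] using hx⟩
    · simp only [StarAlgHom.comp_apply, hc, hφ]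
  choose θ hθ using key
  simp only [StarAlgHom.comp_apply] at hθ
  refine ⟨MonoidHom.mk' θ fun g h => hf.aut_ext fun n x => ?_, hθ⟩
  rw [StarAlgEquiv.mul_apply, hθ, hθ, hθ, hmul]

end Pool.Agent.MP_eaab15_an

end

-- part MP_eaab15_an.AlgB
section

/-!
The UHF algebra of type two to the infinity with a product type action.
-/

set_option autoImplicit false
set_option linter.style.haveILetI false
set_option linter.unusedSectionVars false

open Function Matrix
open scoped Matrix.Norms.L2Operator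

namespace Pool.Agent.MP_eaab15_an

/-- The action of the sign group on four points. -/
def tau (g : ℤˣ) : Equiv.Perm (Fin 4) := if g = 1 then 1 else Equiv.swap 0 1 * Equiv.swap 2 3

theorem tau_one : tau 1 = 1 := by simp [tau]

theorem tau_mul (g h : ℤˣ) : tau (g * h) = tau h * tau g := by
  rcases Int.units_eq_one_or g with rfl | rfl <;> rcases Int.units_eq_one_or h with rfl | rfl <;>
    decide

/-- First Pauli type matrix. -/
def ms : Matrix (Fin 4) (Fin 4) ℂ := !![0, 0, 1, 0; 0, 0, 0, 1; 1, 0, 0, 0; 0, 1, 0, 0]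
/-- Second Pauli type matrix. -/
def mt : Matrix (Fin 4) (Fin 4) ℂ := !![1, 0, 0, 0; 0, 1, 0, 0; 0, 0, -1, 0; 0, 0, 0, -1]
/-- Third Pauli type matrix. -/
def mr : Matrix (Fin 4) (Fin 4) ℂ := !![1, 0, 0, 0; 0, -1, 0, 0; 0, 0, 1, 0; 0, 0, 0, -1]

theorem ms_sa : IsSelfAdjoint ms := by
  ext i j; fin_cases i <;> fin_cases j <;> simp [ms, star_apply]
theorem mt_sa : IsSelfAdjoint mt := by
  ext i j; fin_cases i <;> fin_cases j <;> simp [mt, star_apply]
theorem mr_sa : IsSelfAdjoint mr := by
  ext i j; fin_cases i <;> fin_cases j <;> simp [mr, star_apply]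
theorem ms_sq : ms * ms = 1 := by
  ext i j; fin_cases i <;> fin_cases j <;> simp [ms, Matrix.mul_apply, Fin.sum_univ_four]
theorem mt_sq : mt * mt = 1 := by
  ext i j; fin_cases i <;> fin_cases j <;> simp [mt, Matrix.mul_apply, Fin.sum_univ_four]
theorem mr_sq : mr * mr = 1 := by
  ext i j; fin_cases i <;> fin_cases j <;> simp [mr, Matrix.mul_apply, Fin.sum_univ_four]
theorem ms_mt : ms * mt = -(mt * ms) := by
  ext i j; fin_cases i <;> fin_cases j <;> simp [ms, mt, Matrix.mul_apply, Fin.sum_univ_four]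
theorem ms_mr : Commute ms mr := by
  show ms * mr = mr * ms
  ext i j; fin_cases i <;> fin_cases j <;> simp [ms, mr, Matrix.mul_apply, Fin.sum_univ_four]
theorem mt_mr : Commute mt mr := by
  show mt * mr = mr * mt
  ext i j; fin_cases i <;> fin_cases j <;> simp only [mt, mr, Fin.zero_eta, Fin.isValue, Matrix.mul_apply, of_apply, cons_val', cons_val_fin_one, cons_val_zero, Fin.sum_univ_four, mul_one, cons_val_one, mul_zero, add_zero, cons_val, Fin.mk_one, mul_neg, neg_zero, Fin.reduceFinMk, zero_add, neg_neg]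

theorem tau_neg : tau (-1) = Equiv.swap 0 1 * Equiv.swap 2 3 := by decide
theorem tau_neg0 : tau (-1) 0 = 1 := by decide
theorem tau_neg1 : tau (-1) 1 = 0 := by decide
theorem tau_neg2 : tau (-1) 2 = 3 := by decide
theorem tau_neg3 : tau (-1) 3 = 2 := by decide

theorem tau_ms (g : ℤˣ) (i j : Fin 4) : ms (tau g i) (tau g j) = ms i j := by
  rcases Int.units_eq_one_or g with rfl | rfl
  · simp [tau_one]
  · fin_cases i <;> fin_cases j <;> simp [ms, tau_neg0, tau_neg1, tau_neg2, tau_neg3]
theorem tau_mt (g : ℤˣ) (i j : Fin 4) : mt (tau g i) (tau g j) = mt i j := by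
  rcases Int.units_eq_one_or g with rfl | rfl
  · simp [tau_one]
  · fin_cases i <;> fin_cases j <;> simp [mt, tau_neg0, tau_neg1, tau_neg2, tau_neg3]
theorem tau_mr (g : ℤˣ) (i j : Fin 4) : mr (tau g i) (tau g j) = ((g : ℤ) : ℂ) * mr i j := by
  rcases Int.units_eq_one_or g with rfl | rfl
  · simp [tau_one]
  · fin_cases i <;> fin_cases j <;> simp [mr, tau_neg0, tau_neg1, tau_neg2, tau_neg3]

/-- A finite index set with an action of the sign group. -/
structure StB where
  J : Type
  [fJ : Fintype J]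
  [dJ : DecidableEq J]
  [nJ : Nonempty J]
  σ : ℤˣ → Equiv.Perm J
  σ_one : σ 1 = 1
  σ_mul : ∀ g h, σ (g * h) = σ h * σ g

attribute [instance] StB.fJ StB.dJ StB.nJ

/-- The next index set. -/
def StB.next (s : StB) : StB where
  J := s.J × Fin 4
  σ g := Equiv.prodCongr (s.σ g) (tau g)
  σ_one := by rw [s.σ_one, tau_one]; rfl
  σ_mul g h := by rw [s.σ_mul, tau_mul]; rfl

/-- The sequence of index sets. -/
def stB : ℕ → StB
  | 0 => { J := Unit, σ := fun _ => 1, σ_one := rfl, σ_mul := fun _ _ => rfl }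
  | n + 1 => (stB n).next

/-- The connecting maps. -/
def conB (n : ℕ) : Matrix (stB n).J (stB n).J ℂ →⋆ₐ[ℂ] Matrix (stB (n + 1)).J (stB (n + 1)).J ℂ :=
  amp (Equiv.refl ((stB n).J × Fin 4))

/-- The embedding of the new tensor factor. -/
def newB (n : ℕ) : Matrix (Fin 4) (Fin 4) ℂ →⋆ₐ[ℂ] Matrix (stB (n + 1)).J (stB (n + 1)).J ℂ :=
  amp ((Equiv.refl ((stB n).J × Fin 4)).trans (Equiv.prodComm _ _))

theorem exists_algB : ∃ (B : Type) (_ : CStarAlgebra B) (β : ℤˣ →* StarAut B)
    (J : ℕ → Type) (_ : ∀ n, Fintype (J n)) (_ : ∀ n, DecidableEq (J n)) (_ : ∀ n, Nonempty (J n))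
    (ι : ∀ n, Matrix (J n) (J n) ℂ →⋆ₐ[ℂ] B),
    IsLim ι ∧ IsSimpleCStar B ∧
    ∀ n, ∃ s t r : B, IsSelfAdjoint s ∧ IsSelfAdjoint t ∧ IsSelfAdjoint r ∧
      s * s = 1 ∧ t * t = 1 ∧ r * r = 1 ∧ s * t = -(t * s) ∧ Commute s r ∧ Commute t r ∧
      (∀ g : ℤˣ, β g s = s) ∧ (∀ g : ℤˣ, β g t = t) ∧ (∀ g : ℤˣ, β g r = ((g : ℤ) : ℂ) • r) ∧
      ∀ x, Commute s (ι n x) ∧ Commute t (ι n x) ∧ Commute r (ι n x) := by
  obtain ⟨B, iB, ι, hι, hφ⟩ := exists_lim (D := fun n => Matrix (stB n).J (stB n).J ℂ) conB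
    (fun n => amp_injective _)
  obtain ⟨β, hβ⟩ := hι.exists_action (G := ℤˣ) conB hφ (fun n g => reidx ((stB n).σ g))
    (fun n x => by rw [(stB n).σ_one]; rfl)
    (fun n g h x => by rw [(stB n).σ_mul]; rfl)
    (fun n g x => by
      ext ⟨i, a⟩ ⟨j, b⟩
      show (if tau g a = tau g b then x ((stB n).σ g i) ((stB n).σ g j) else 0) =
        if a = b then x ((stB n).σ g i) ((stB n).σ g j) else 0
      simp)
  have hnt : Nontrivial B := by
    refine ⟨1, 0, fun h => ?_⟩
    have h1 : ι 0 1 = ι 0 0 := by rw [map_one, map_zero, h]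
    exact one_ne_zero (hι.inj 0 h1)
  refine ⟨B, iB, β, fun n => (stB n).J, inferInstance, inferInstance, inferInstance, ι, hι, ?_,
    fun n => ?_⟩
  · refine hι.simple fun n e he I hI => ?_
    have h1 : (1 : Matrix (stB n).J (stB n).J ℂ) ∈ I.comap (ι n) :=
      IsSimpleRing.one_mem_of_ne_zero_mem _ he (TwoSidedIdeal.mem_comap _ |>.mpr hI)
    simpa only [TwoSidedIdeal.mem_comap, map_one] using h1
  · let ψ := (ι (n + 1)).comp (newB n)
    have hψ : ∀ (g : ℤˣ) (m : Matrix (Fin 4) (Fin 4) ℂ) (c : ℂ),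
        (∀ i j, m (tau g i) (tau g j) = c * m i j) → β g (ψ m) = c • ψ m := by
      intro g m c hm
      simp only [ψ, StarAlgHom.comp_apply]
      rw [hβ, ← map_smul]
      congr 1
      ext ⟨i, a⟩ ⟨j, b⟩
      show (if (stB n).σ g i = (stB n).σ g j then m (tau g a) (tau g b) else 0) =
        c * if i = j then m a b else 0
      simp [hm]
    have hcomm : ∀ m x, Commute (ψ m) (ι n x) := by
      intro m x
      rw [← hφ]
      exact Commute.map (amp_commute (Equiv.refl ((stB n).J × Fin 4)) x m).symm (ι (n + 1))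
    refine ⟨ψ ms, ψ mt, ψ mr, ms_sa.map _, mt_sa.map _, mr_sa.map _, ?_, ?_, ?_, ?_,
      ms_mr.map _, mt_mr.map _, fun g => ?_, fun g => ?_, fun g => hψ g mr _ (tau_mr g),
      fun x => ⟨hcomm _ _, hcomm _ _, hcomm _ _⟩⟩
    · rw [← map_mul, ms_sq, map_one]
    · rw [← map_mul, mt_sq, map_one]
    · rw [← map_mul, mr_sq, map_one]
    · rw [← map_mul, ms_mt, map_neg, map_mul]
    · simpa using hψ g ms 1 (by simpa using tau_ms g)
    · simpa using hψ g mt 1 (by simpa using tau_mt g)

end Pool.Agent.MP_eaab15_an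

end

-- part MP_eaab15_an.Tensor
section

/-!
C*-algebras generated by commuting copies of an algebra and of a UHF algebra.
-/

set_option autoImplicit false
set_option linter.style.haveILetI false
set_option linter.unusedSectionVars false

open Function Matrix
open scoped Matrix.Norms.L2Operator

namespace Pool.Agent.MP_eaab15_an

theorem cont_hom {A C : Type} [CStarAlgebra A] [CStarAlgebra C] (j : A →⋆ₐ[ℂ] C) : Continuous j :=
  AddMonoidHomClass.continuous_of_bound j 1 fun a => by
    simpa only [one_mul] using NonUnitalStarAlgHom.norm_apply_le j a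

section matHom

variable {A C J : Type} [CStarAlgebra A] [CStarAlgebra C] [Fintype J] [DecidableEq J]

theorem sum_single_one : ∑ a : J, single a a (1 : ℂ) = 1 := by
  ext i j
  simp only [Matrix.sum_apply, single_apply, Matrix.one_apply]
  by_cases h : i = j
  · subst h; simp only [and_self, Finset.sum_ite_eq', Finset.mem_univ, ↓ reduceIte]
  · rw [if_neg h]
    refine Finset.sum_eq_zero fun a _ => if_neg ?_
    rintro ⟨rfl, rfl⟩
    exact h rfl

/-- The *-homomorphism from matrices over `A` given by commuting copies of `A` and of the scalar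
matrices. -/
noncomputable def matHom (i : A →⋆ₐ[ℂ] C) (k : Matrix J J ℂ →⋆ₐ[ℂ] C)
    (hc : ∀ a m, Commute (i a) (k m)) : CStarMatrix J J A →⋆ₐ[ℂ] C where
  toFun x := ∑ a, ∑ b, i (x a b) * k (single a b 1)
  map_one' := by
    have : ∀ a : J, ∑ b, i ((1 : CStarMatrix J J A) a b) * k (single a b 1) = k (single a a 1) := by
      intro a
      rw [Finset.sum_eq_single a]
      · simp
      · intro b _ hb
        rw [CStarMatrix.one_apply_ne hb.symm]; simp
      · simp only [Finset.mem_univ, not_true_eq_false, CStarMatrix.one_apply_eq, map_one, one_mul, IsEmpty.forall_iff]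
    simp only [this]
    rw [← map_sum, sum_single_one, map_one]
  map_mul' x y := by
    simp only [CStarMatrix.mul_apply, map_sum, Finset.sum_mul, Finset.mul_sum]
    rw [Finset.sum_comm]
    have key : ∀ a b c d : J, i (x a b) * k (single a b 1) * (i (y c d) * k (single c d 1)) =
        if b = c then i (x a b * y c d) * k (single a d 1) else 0 := by
      intro a b c d
      rw [mul_assoc, ← mul_assoc (k _), ← (hc _ _).eq, mul_assoc, ← mul_assoc, ← map_mul,
        ← map_mul]
      split_ifs with h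
      · subst h; simp
      · rw [single_mul_single_of_ne _ _ _ _ h]; simp only [map_mul, map_zero, mul_zero]
    simp only [key, Finset.sum_ite_eq', Finset.mem_univ, if_true]
    symm
    rw [Finset.sum_comm]
    refine Finset.sum_congr rfl fun d _ => ?_
    rw [Finset.sum_comm]
  map_zero' := by simp only [CStarMatrix.zero_apply, map_zero, zero_mul, Finset.sum_const_zero]
  map_add' x y := by simp only [CStarMatrix.add_apply, map_add, add_mul, Finset.sum_add_distrib]
  commutes' r := by
    have : ∀ a : J, ∑ b, i ((algebraMap ℂ (CStarMatrix J J A) r) a b) * k (single a b 1) =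
        algebraMap ℂ C r * k (single a a 1) := by
      intro a
      rw [Finset.sum_eq_single a]
      · rw [CStarMatrix.algebraMap_apply, if_pos rfl, AlgHomClass.commutes]
      · intro b _ hb
        rw [CStarMatrix.algebraMap_apply, if_neg hb.symm]; simp
      · simp only [Finset.mem_univ, not_true_eq_false, IsEmpty.forall_iff]
    simp only [this]
    rw [← Finset.mul_sum, ← map_sum, sum_single_one, map_one, mul_one]
  map_star' x := by
    simp only [star_sum, star_mul, ← map_star, CStarMatrix.star_apply]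
    rw [Finset.sum_comm]
    refine Finset.sum_congr rfl fun a _ => Finset.sum_congr rfl fun b _ => ?_
    rw [(hc _ _).eq, star_eq_conjTranspose, conjTranspose_single, star_one]

theorem matHom_apply (i : A →⋆ₐ[ℂ] C) (k : Matrix J J ℂ →⋆ₐ[ℂ] C)
    (hc : ∀ a m, Commute (i a) (k m)) (x : CStarMatrix J J A) :
    matHom i k hc x = ∑ a, ∑ b, i (x a b) * k (single a b 1) := rfl

/-- Elementary tensors. -/
def tens (a : A) (m : Matrix J J ℂ) : CStarMatrix J J A := fun p q => m p q • a

theorem matHom_tens (i : A →⋆ₐ[ℂ] C) (k : Matrix J J ℂ →⋆ₐ[ℂ] C)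
    (hc : ∀ a m, Commute (i a) (k m)) (a : A) (m : Matrix J J ℂ) :
    matHom i k hc (tens a m) = i a * k m := by
  rw [matHom_apply]
  conv_rhs => rw [matrix_eq_sum_single m]
  simp only [tens, map_smul, map_sum, Finset.mul_sum]
  refine Finset.sum_congr rfl fun p _ => Finset.sum_congr rfl fun q _ => ?_
  rw [smul_mul_assoc, ← mul_smul_comm, ← map_smul, smul_single, smul_eq_mul, mul_one]

theorem matHom_injective (i : A →⋆ₐ[ℂ] C) (k : Matrix J J ℂ →⋆ₐ[ℂ] C)
    (hc : ∀ a m, Commute (i a) (k m)) (hi : Injective i) : Injective (matHom i k hc) := by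
  rw [injective_iff_map_eq_zero]
  intro x hx
  ext p q
  apply hi
  have key : ∀ l : J, k (single l p 1) * matHom i k hc x * k (single q l 1) =
      i (x p q) * k (single l l 1) := by
    intro l
    rw [matHom_apply]
    simp only [Finset.mul_sum, Finset.sum_mul]
    have h1 : ∀ a b : J, k (single l p 1) * (i (x a b) * k (single a b 1)) * k (single q l 1) =
        i (x a b) * k (single l p 1 * single a b 1 * single q l 1) := by
      intro a b
      rw [← mul_assoc, ← (hc _ _).eq, map_mul, map_mul]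
      simp only [mul_assoc]
    simp only [h1, single_mul_mul_single]
    rw [Finset.sum_eq_single p, Finset.sum_eq_single q]
    · simp
    · intro b _ hb; simp [hb]
    · simp only [Finset.mem_univ, not_true_eq_false, single_apply_same, mul_one, IsEmpty.forall_iff]
    · intro a _ ha
      refine Finset.sum_eq_zero fun b _ => ?_
      simp [ha]
    · simp only [Finset.mem_univ, not_true_eq_false, one_mul, mul_one, IsEmpty.forall_iff]
  have h2 : ∑ l : J, k (single l p 1) * matHom i k hc x * k (single q l 1) = i (x p q) := by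
    simp only [key]
    rw [← Finset.mul_sum, ← map_sum, sum_single_one, map_one, mul_one]
  rw [← h2, hx]
  simp only [mul_zero, zero_mul, Finset.sum_const_zero, CStarMatrix.zero_apply, map_zero]

end matHom

/-- Commuting generating copies. -/
structure IsGen {A B C : Type} [CStarAlgebra A] [CStarAlgebra B] [CStarAlgebra C]
    (i : A →⋆ₐ[ℂ] C) (j : B →⋆ₐ[ℂ] C) : Prop where
  inj : Injective i
  comm : ∀ a b, Commute (i a) (j b)
  gen : ∀ S : StarSubalgebra ℂ C, IsClosed (S : Set C) → (∀ a b, i a * j b ∈ S) → ∀ c, c ∈ S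

section gen

variable {A B C : Type} [CStarAlgebra A] [CStarAlgebra B] [CStarAlgebra C] [PartialOrder A]
  [StarOrderedRing A] {J : ℕ → Type} [∀ n, Fintype (J n)] [∀ n, DecidableEq (J n)]
  {ι : ∀ n, Matrix (J n) (J n) ℂ →⋆ₐ[ℂ] B}

/-- The finite stages of the tensor product. -/
noncomputable def IsGen.st {i : A →⋆ₐ[ℂ] C} {j : B →⋆ₐ[ℂ] C} (h : IsGen i j)
    (ι : ∀ n, Matrix (J n) (J n) ℂ →⋆ₐ[ℂ] B) (n : ℕ) : CStarMatrix (J n) (J n) A →⋆ₐ[ℂ] C :=
  matHom i (j.comp (ι n)) fun a m => h.comm a (ι n m)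

theorem IsGen.st_tens {i : A →⋆ₐ[ℂ] C} {j : B →⋆ₐ[ℂ] C} (h : IsGen i j) (n : ℕ) (a : A)
    (m : Matrix (J n) (J n) ℂ) : h.st ι n (tens a m) = i a * j (ι n m) := matHom_tens _ _ _ _ _

theorem IsGen.st_mono (hι : IsLim ι) (n : ℕ) (x : CStarMatrix (J n) (J n) A) :
    ∃ y : CStarMatrix (J (n + 1)) (J (n + 1)) A, ∀ (i : A →⋆ₐ[ℂ] C) (j : B →⋆ₐ[ℂ] C)
      (h : IsGen i j), h.st ι (n + 1) y = h.st ι n x := by
  choose m hm using fun a b : J n => hι.mono n (single a b 1)
  refine ⟨∑ a, ∑ b, tens (x a b) (m a b), fun i j h => ?_⟩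
  simp only [map_sum, h.st_tens, hm]
  rfl

theorem IsGen.isLim (hι : IsLim ι) {i : A →⋆ₐ[ℂ] C} {j : B →⋆ₐ[ℂ] C} (h : IsGen i j) :
    IsLim (h.st ι) := by
  have hmono : ∀ n x, ∃ y, h.st ι (n + 1) y = h.st ι n x := fun n x =>
    (IsGen.st_mono (C := C) hι n x).imp fun y hy => hy i j h
  refine ⟨fun n => matHom_injective _ _ _ h.inj, hmono, fun c ε hε => ?_⟩
  let S : ℕ → StarSubalgebra ℂ C := fun n => (h.st ι n).range
  have hS : Monotone S := by
    refine monotone_nat_of_le_succ fun n => ?_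
    rintro _ ⟨x, rfl⟩
    exact hmono n x
  have hc : c ∈ (⨆ n, S n).topologicalClosure := by
    refine h.gen _ (StarSubalgebra.isClosed_topologicalClosure _) (fun a b => ?_) c
    have hcont : Continuous fun b => i a * j b := continuous_const.mul (cont_hom j)
    have hcl : IsClosed ((fun b => i a * j b) ⁻¹' ((⨆ n, S n).topologicalClosure : Set C)) :=
      (StarSubalgebra.isClosed_topologicalClosure _).preimage hcont
    refine hcl.closure_subset_iff.mpr (le_refl _) (Metric.mem_closure_iff.mpr fun δ hδ => ?_)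
    obtain ⟨n, m, hm⟩ := hι.dense b δ hδ
    refine ⟨ι n m, ?_, by rwa [dist_eq_norm]⟩
    exact StarSubalgebra.le_topologicalClosure _ (le_iSup S n ⟨tens a m, h.st_tens n a m⟩)
  obtain ⟨y, hy, hcy⟩ := Metric.mem_closure_iff.mp hc ε hε
  have hy' : y ∈ ((⨆ n, S n : StarSubalgebra ℂ C) : Set C) := hy
  rw [StarSubalgebra.coe_iSup_of_directed hS.directed_le] at hy'
  obtain ⟨n, x, rfl⟩ := Set.mem_iUnion.mp hy'
  exact ⟨n, x, by rwa [dist_eq_norm] at hcy⟩

theorem IsGen.twist {i : A →⋆ₐ[ℂ] C} {j : B →⋆ₐ[ℂ] C} (h : IsGen i j) (α : StarAut A)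
    (β : StarAut B) : IsGen (i.comp α.toStarAlgHom) (j.comp β.toStarAlgHom) where
  inj := h.inj.comp α.injective
  comm a b := h.comm _ _
  gen S hS hm := h.gen S hS fun a b => by simpa only [StarAlgHom.comp_apply, StarAlgEquiv.toStarAlgHom_apply, StarAlgEquiv.apply_symm_apply] using hm (α.symm a) (β.symm b)

theorem IsGen.exists_aut (hι : IsLim ι) {i : A →⋆ₐ[ℂ] C} {j : B →⋆ₐ[ℂ] C} (h : IsGen i j)
    (α : StarAut A) (β : StarAut B) :
    ∃ θ : StarAut C, ∀ a b, θ (i a * j b) = i (α a) * j (β b) := by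
  obtain ⟨θ, hθ⟩ := (h.isLim hι).exists_aut ((h.twist α β).isLim hι) fun n x =>
    (IsGen.st_mono (C := C) hι n x).imp fun y hy => ⟨hy _ _ _, hy _ _ _⟩
  refine ⟨θ, fun a b => ?_⟩
  have hcl : IsClosed {b : B | θ (i a * j b) = i (α a) * j (β b)} :=
    isClosed_eq ((StarAlgEquiv.isometry θ).continuous.comp
      (continuous_const.mul (cont_hom j)))
      (continuous_const.mul ((cont_hom j).comp (StarAlgEquiv.isometry β).continuous))
  refine hcl.closure_subset_iff.mpr (le_refl _) (Metric.mem_closure_iff.mpr fun δ hδ => ?_)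
  obtain ⟨n, m, hm⟩ := hι.dense b δ hδ
  refine ⟨ι n m, ?_, by rwa [dist_eq_norm]⟩
  have := hθ n (tens a m)
  rw [h.st_tens, IsGen.st_tens] at this
  exact this

theorem IsGen.exists_action (hι : IsLim ι) {i : A →⋆ₐ[ℂ] C} {j : B →⋆ₐ[ℂ] C} (h : IsGen i j)
    {G H : Type} [Group G] [Group H] (α : G →* StarAut A) (β : H →* StarAut B) :
    ∃ γ : G × H →* StarAut C, ∀ g k a b, γ (g, k) (i a * j b) = i (α g a) * j (β k b) := by
  choose θ hθ using fun g : G × H => h.exists_aut hι (α g.1) (β g.2)
  refine ⟨MonoidHom.mk' θ fun g g' => (h.isLim hι).aut_ext fun n x => ?_,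
    fun g k a b => hθ (g, k) a b⟩
  simp only [IsGen.st, matHom_apply, map_sum, StarAlgHom.comp_apply, StarAlgEquiv.mul_apply, hθ,
    Prod.fst_mul, Prod.snd_mul, map_mul α, map_mul β]

theorem IsGen.simple (hι : IsLim ι) [∀ n, Nonempty (J n)] {i : A →⋆ₐ[ℂ] C} {j : B →⋆ₐ[ℂ] C}
    (h : IsGen i j) (hA : IsSimpleCStar A) : IsSimpleCStar C := by
  haveI := hA.isSimpleRing
  haveI : Nontrivial C := h.inj.nontrivial
  refine (h.isLim hι).simple fun n e he I hI => ?_
  haveI : IsSimpleRing (CStarMatrix (J n) (J n) A) :=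
    inferInstanceAs (IsSimpleRing (Matrix (J n) (J n) A))
  have h1 : (1 : CStarMatrix (J n) (J n) A) ∈ I.comap (h.st ι n) :=
    IsSimpleRing.one_mem_of_ne_zero_mem _ he (TwoSidedIdeal.mem_comap _ |>.mpr hI)
  simpa only [TwoSidedIdeal.mem_comap, map_one] using h1

theorem IsGen.stablyFinite (hι : IsLim ι) {i : A →⋆ₐ[ℂ] C} {j : B →⋆ₐ[ℂ] C}
    (h : IsGen i j) (hA : IsStablyFiniteRing A) : IsStablyFiniteRing C :=
  (h.isLim hι).stablyFinite fun n =>
    inferInstanceAs (IsStablyFiniteRing (Matrix (J n) (J n) A))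

end gen

end Pool.Agent.MP_eaab15_an

end

-- part MP_eaab15_an.Rokhlin
section

/-!
The Rokhlin property of the tensor product action and its failure for the first factor.
-/

set_option autoImplicit false
set_option linter.style.haveILetI false
set_option linter.unusedSectionVars false

open Function
open scoped Matrix.Norms.L2Operator

namespace Pool.Agent.MP_eaab15_an

theorem HasRokhlin.tracial {G A : Type} [Group G] [Fintype G] [CStarAlgebra A]
    {α : G →* StarAut A} (h : HasRokhlin α) : HasTracialRokhlin α := by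
  intro F ε hε x _ _
  obtain ⟨e, h1, h2, h3, h4, h5⟩ := h F ε hε
  refine ⟨e, h1, h2, h3, h4, 0, IsStarProjection.zero A, subset_closure ⟨0, by simp⟩, 0, ?_, ?_⟩
  · simp only [star_zero, mul_zero, h5, sub_self]
  · simp

section rok

variable {C : Type} [CStarAlgebra C]

/-- The spectral projection of a self-adjoint unitary for a sign. -/
noncomputable def halfProj (σ : C) (g : ℤˣ) : C := (1 / 2 : ℂ) • (1 + ((g : ℤ) : ℂ) • σ)

theorem halfProj_proj {σ : C} (h1 : IsSelfAdjoint σ) (h2 : σ * σ = 1) (g : ℤˣ) :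
    IsStarProjection (halfProj σ g) := by
  constructor
  · show halfProj σ g * halfProj σ g = halfProj σ g
    rcases Int.units_eq_one_or g with rfl | rfl <;>
      simp only [halfProj, one_div, Units.val_one, Int.cast_one, one_smul, smul_add, mul_add, Algebra.mul_smul_comm, mul_one, smul_smul, add_mul, Algebra.smul_mul_assoc, one_mul, h2, Units.val_neg, Int.reduceNeg, Int.cast_neg, neg_smul, smul_neg, mul_neg, neg_mul, neg_add_rev, neg_neg] <;> module
  · show star (halfProj σ g) = halfProj σ g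
    simp only [halfProj, one_div, smul_add, star_add, star_smul, star_inv₀, star_ofNat, star_one, star_intCast, h1.star_eq]

theorem halfProj_orth {σ : C} (h2 : σ * σ = 1) {g h : ℤˣ} (hne : g ≠ h) :
    halfProj σ g * halfProj σ h = 0 := by
  rcases Int.units_eq_one_or g with rfl | rfl <;> rcases Int.units_eq_one_or h with rfl | rfl
  · exact absurd rfl hne
  · simp only [halfProj, one_div, Units.val_one, Int.cast_one, one_smul, smul_add, Units.val_neg, Int.reduceNeg, Int.cast_neg, neg_smul, smul_neg, mul_add, Algebra.mul_smul_comm, mul_one, mul_neg, add_mul, Algebra.smul_mul_assoc, one_mul, h2, neg_add_rev]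
    module
  · simp only [halfProj, one_div, Units.val_neg, Units.val_one, Int.reduceNeg, Int.cast_neg, Int.cast_one, neg_smul, one_smul, smul_add, smul_neg, mul_add, Algebra.mul_smul_comm, mul_one, add_mul, Algebra.smul_mul_assoc, one_mul, neg_mul, h2, add_neg_add_add_cancel, add_neg_cancel]
  · exact absurd rfl hne

theorem halfProj_sum (σ : C) : ∑ g, halfProj σ g = 1 := by
  rw [show (Finset.univ : Finset ℤˣ) = {1, -1} from rfl, Finset.sum_pair (by decide)]
  simp only [halfProj, one_div, Units.val_one, Int.cast_one, one_smul, smul_add, Units.val_neg, Int.reduceNeg, Int.cast_neg, neg_smul, smul_neg]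
  module

theorem halfProj_map (θ : StarAut C) {σ : C} (g h : ℤˣ) (hθ : θ σ = ((g : ℤ) : ℂ) • σ) :
    θ (halfProj σ h) = halfProj σ (g * h) := by
  simp [halfProj, hθ, smul_smul, mul_comm, mul_assoc]

theorem halfProj_commute {σ x : C} (h : Commute σ x) (g : ℤˣ) : Commute (halfProj σ g) x :=
  ((Commute.one_left x).add_left (h.smul_left _)).smul_left _

theorem rokhlin_of (γ : ℤˣ × ℤˣ →* StarAut C) (σ ρ : ℕ → C)
    (hσ1 : ∀ n, IsSelfAdjoint (σ n)) (hσ2 : ∀ n, σ n * σ n = 1)
    (hρ1 : ∀ n, IsSelfAdjoint (ρ n)) (hρ2 : ∀ n, ρ n * ρ n = 1)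
    (hσρ : ∀ n, Commute (σ n) (ρ n))
    (hγσ : ∀ n g h, γ (g, h) (σ n) = ((g : ℤ) : ℂ) • σ n)
    (hγρ : ∀ n g h, γ (g, h) (ρ n) = ((h : ℤ) : ℂ) • ρ n)
    (hd : ∀ (c : C) (ε : ℝ), 0 < ε → ∃ (N : ℕ) (c' : C), ‖c - c'‖ < ε ∧
      ∀ n, N ≤ n → Commute (σ n) c' ∧ Commute (ρ n) c') : HasRokhlin γ := by
  intro F ε hε
  choose N c' hc' hN using fun c => hd c (ε / 2) (by positivity)
  let n := F.sup N
  have hcomm : ∀ g h, Commute (halfProj (σ n) g) (halfProj (ρ n) h) := fun g h =>
    halfProj_commute (halfProj_commute (hσρ n).symm h).symm g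
  have hproj : ∀ g : ℤˣ × ℤˣ, IsStarProjection (halfProj (σ n) g.1 * halfProj (ρ n) g.2) :=
    fun g => (halfProj_proj (hσ1 n) (hσ2 n) g.1).mul (halfProj_proj (hρ1 n) (hρ2 n) g.2)
      (hcomm _ _)
  refine ⟨fun g => halfProj (σ n) g.1 * halfProj (ρ n) g.2, hproj, ?_, ?_, ?_, ?_⟩
  · rintro ⟨g1, g2⟩ ⟨h1, h2⟩ hne
    simp only
    rw [mul_assoc, ← mul_assoc (halfProj (ρ n) g2), ← (hcomm h1 g2).eq, mul_assoc, ← mul_assoc]
    by_cases h : g1 = h1
    · have : g2 ≠ h2 := fun h' => hne (Prod.ext h h')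
      rw [halfProj_orth (hρ2 n) this, mul_zero]
    · rw [halfProj_orth (hσ2 n) h, zero_mul]
  · rintro ⟨g1, g2⟩ ⟨h1, h2⟩
    simp only [Action.app, map_mul, Prod.fst_mul, Prod.snd_mul]
    rw [halfProj_map _ g1 h1 (hγσ n g1 g2), halfProj_map _ g2 h2 (hγρ n g1 g2)]
    simpa using hε
  · intro g a ha
    have hle : N a ≤ n := Finset.le_sup ha
    have h1 : Commute (halfProj (σ n) g.1 * halfProj (ρ n) g.2) (c' a) :=
      (halfProj_commute (hN a n hle).1 _).mul_left (halfProj_commute (hN a n hle).2 _)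
    have h2 := (hproj g).norm_le
    set e := halfProj (σ n) g.1 * halfProj (ρ n) g.2
    have h3 : e * a - a * e = e * (a - c' a) - (a - c' a) * e := by
      rw [mul_sub, sub_mul, h1.eq]; abel
    have h4 : ‖e * (a - c' a)‖ ≤ 1 * ‖a - c' a‖ := (norm_mul_le _ _).trans (by gcongr)
    have h5 : ‖(a - c' a) * e‖ ≤ ‖a - c' a‖ * 1 := (norm_mul_le _ _).trans (by gcongr)
    have h6 := norm_sub_le (e * (a - c' a)) ((a - c' a) * e)
    have h7 := hc' a
    rw [h3]
    linarith only [h4, h5, h6, h7]
  · rw [Fintype.sum_prod_type, ← Finset.sum_mul_sum, halfProj_sum, halfProj_sum, mul_one]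

end rok

theorem IsGen.approx {A B C : Type} [CStarAlgebra A] [CStarAlgebra B] [CStarAlgebra C]
    {i : A →⋆ₐ[ℂ] C} {j : B →⋆ₐ[ℂ] C} (h : IsGen i j)
    {D : ℕ → Type} [∀ n, CStarAlgebra (D n)] {f : ∀ n, D n →⋆ₐ[ℂ] A} (hf : IsLim f)
    {E : ℕ → Type} [∀ n, CStarAlgebra (E n)] {g : ∀ n, E n →⋆ₐ[ℂ] B} (hg : IsLim g)
    (σ ρ : ℕ → C) (hσ1 : ∀ n, IsSelfAdjoint (σ n)) (hρ1 : ∀ n, IsSelfAdjoint (ρ n))
    (h1 : ∀ n x, Commute (σ n) (i (f n x)) ∧ Commute (ρ n) (i (f n x)))
    (h2 : ∀ n x, Commute (σ n) (j (g n x)) ∧ Commute (ρ n) (j (g n x)))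
    (c : C) (ε : ℝ) (hε : 0 < ε) : ∃ (N : ℕ) (c' : C), ‖c - c'‖ < ε ∧
      ∀ n, N ≤ n → Commute (σ n) c' ∧ Commute (ρ n) c' := by
  let S : StarSubalgebra ℂ C :=
    { carrier := {c' | ∃ N : ℕ, ∀ n, N ≤ n → Commute (σ n) c' ∧ Commute (ρ n) c'}
      mul_mem' := by
        rintro a b ⟨N, hN⟩ ⟨M, hM⟩
        exact ⟨max N M, fun n hn =>
          ⟨(hN n (le_of_max_le_left hn)).1.mul_right (hM n (le_of_max_le_right hn)).1,
           (hN n (le_of_max_le_left hn)).2.mul_right (hM n (le_of_max_le_right hn)).2⟩⟩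
      add_mem' := by
        rintro a b ⟨N, hN⟩ ⟨M, hM⟩
        exact ⟨max N M, fun n hn =>
          ⟨(hN n (le_of_max_le_left hn)).1.add_right (hM n (le_of_max_le_right hn)).1,
           (hN n (le_of_max_le_left hn)).2.add_right (hM n (le_of_max_le_right hn)).2⟩⟩
      algebraMap_mem' := fun r => ⟨0, fun n _ =>
        ⟨(Algebra.commutes r _).symm, (Algebra.commutes r _).symm⟩⟩
      star_mem' := by
        rintro a ⟨N, hN⟩
        refine ⟨N, fun n hn => ⟨?_, ?_⟩⟩
        · have := (hN n hn).1.star_star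
          rwa [(hσ1 n).star_eq] at this
        · have := (hN n hn).2.star_star
          rwa [(hρ1 n).star_eq] at this }
  have hcl := StarSubalgebra.isClosed_topologicalClosure S
  have hc : c ∈ S.topologicalClosure := by
    refine h.gen _ hcl (fun a b => mul_mem ?_ ?_) c
    · refine (hcl.preimage (cont_hom i)).closure_subset_iff.mpr (le_refl _)
        (Metric.mem_closure_iff.mpr fun δ hδ => ?_)
      obtain ⟨n, m, hm⟩ := hf.dense a δ hδ
      refine ⟨f n m, StarSubalgebra.le_topologicalClosure _ ⟨n, fun k hk => ?_⟩,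
        by rwa [dist_eq_norm]⟩
      obtain ⟨y, hy⟩ := hf.mono_le hk m
      rw [← hy]
      exact h1 k y
    · refine (hcl.preimage (cont_hom j)).closure_subset_iff.mpr (le_refl _)
        (Metric.mem_closure_iff.mpr fun δ hδ => ?_)
      obtain ⟨n, m, hm⟩ := hg.dense b δ hδ
      refine ⟨g n m, StarSubalgebra.le_topologicalClosure _ ⟨n, fun k hk => ?_⟩,
        by rwa [dist_eq_norm]⟩
      obtain ⟨y, hy⟩ := hg.mono_le hk m
      rw [← hy]
      exact h2 k y
  obtain ⟨c', ⟨N, hN⟩, hcc⟩ := Metric.mem_closure_iff.mp hc ε hε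
  exact ⟨N, c', by rwa [dist_eq_norm] at hcc, hN⟩

end Pool.Agent.MP_eaab15_an

end

-- part MP_eaab15_an.Spatial
section

/-!
Faithful representations and the spatial tensor product.
-/

set_option autoImplicit false
set_option linter.style.haveILetI false
set_option linter.unusedSectionVars false

open Function
open scoped TensorProduct

namespace Pool.Agent.MP_eaab15_an

section state

variable {A : Type} [CStarAlgebra A]

theorem im_eq_zero_of_norm_one (g : A →L[ℂ] ℂ) (hg : ‖g‖ = 1) (h1 : g 1 = 1) [Nontrivial A]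
    (a : A) (ha : IsSelfAdjoint a) : (g a).im = 0 := by
  have key : ∀ t : ℝ, -2 * t * (g a).im ≤ t ^ 2 * ‖a‖ ^ 2 := by
    intro t
    set x : A := 1 + ((t : ℂ) * Complex.I) • a with hx
    have h2 : star x * x = 1 + ((t : ℂ) ^ 2) • (a * a) := by
      have h3 : star x = 1 - ((t : ℂ) * Complex.I) • a := by
        rw [hx, star_add, star_one, star_smul, ha.star_eq]
        simp [sub_eq_add_neg]
      rw [h3, hx]
      simp only [mul_add, sub_mul, one_mul, mul_one, smul_mul_smul_comm]
      have : (t : ℂ) * Complex.I * ((t : ℂ) * Complex.I) = -(t : ℂ) ^ 2 := by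
        ring_nf; simp
      rw [this]
      module
    have h4 : ‖x‖ * ‖x‖ ≤ 1 + t ^ 2 * ‖a‖ ^ 2 := by
      rw [← CStarRing.norm_star_mul_self, h2]
      refine (norm_add_le _ _).trans ?_
      rw [norm_one, norm_smul]
      have h5 : ‖a * a‖ ≤ ‖a‖ ^ 2 := by rw [sq]; exact norm_mul_le _ _
      have h6 : ‖(t : ℂ) ^ 2‖ = t ^ 2 := by simp
      rw [h6]
      gcongr
    have h7 : ‖g x‖ ≤ ‖x‖ := by simpa only [hg, one_mul] using g.le_opNorm x
    have h8 : 1 - t * (g a).im ≤ ‖g x‖ := by
      have : (g x).re = 1 - t * (g a).im := by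
        rw [hx, map_add, h1, map_smul]
        simp [sub_eq_add_neg]
      rw [← this]
      exact Complex.re_le_norm _
    have h9 : |1 - t * (g a).im| ≤ ‖g x‖ := by
      have : (g x).re = 1 - t * (g a).im := by
        rw [hx, map_add, h1, map_smul]
        simp [sub_eq_add_neg]
      rw [← this]
      exact Complex.abs_re_le_norm _
    have h10 : (1 - t * (g a).im) ^ 2 ≤ ‖x‖ * ‖x‖ := by
      rw [← sq_abs, sq]
      exact mul_self_le_mul_self (abs_nonneg _) (h9.trans h7)
    linarith only [sq_nonneg (t * (g a).im), h4, h10]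
  by_contra hne
  set y := (g a).im
  have hy : 0 < y ^ 2 := by positivity
  have hpos : 0 < ‖a‖ ^ 2 + 1 := by positivity
  have := key (-y / (‖a‖ ^ 2 + 1))
  have h2 : -2 * (-y / (‖a‖ ^ 2 + 1)) * y = 2 * y ^ 2 / (‖a‖ ^ 2 + 1) := by ring
  have h3 : (-y / (‖a‖ ^ 2 + 1)) ^ 2 * ‖a‖ ^ 2 = y ^ 2 * ‖a‖ ^ 2 / (‖a‖ ^ 2 + 1) ^ 2 := by
    field_simp
  rw [h2, h3, div_le_div_iff₀ hpos (by positivity)] at this
  linarith only [mul_pos hy hpos, mul_pos (mul_pos hy hpos) hpos, this]

open scoped ComplexOrder in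
theorem exists_rep (hA : IsSimpleCStar A) :
    ∃ (E : Type) (_ : NormedAddCommGroup E) (_ : InnerProductSpace ℂ E) (_ : CompleteSpace E)
      (π : CStarHom A (BOp E)), Injective π := by
  haveI := hA.1
  letI : PartialOrder A := CStarAlgebra.spectralOrder A
  haveI : StarOrderedRing A := CStarAlgebra.spectralOrderedRing A
  obtain ⟨g, hg, h1⟩ := exists_dual_vector ℂ (1 : A) (by simp)
  have h1' : g 1 = 1 := by simpa only [norm_one, Complex.coe_algebraMap, Complex.ofReal_one] using h1
  have hpos : ∀ a : A, 0 ≤ a → 0 ≤ g a := by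
    intro a ha
    have him := im_eq_zero_of_norm_one g hg h1' a ha.isSelfAdjoint
    rw [Complex.nonneg_iff]
    refine ⟨?_, him.symm⟩
    have h2 : ‖algebraMap ℝ A ‖a‖ - a‖ ≤ ‖a‖ := by
      have h3 : 0 ≤ algebraMap ℝ A ‖a‖ - a :=
        sub_nonneg.mpr (IsSelfAdjoint.le_algebraMap_norm_self ha.isSelfAdjoint)
      rw [CStarAlgebra.norm_le_iff_le_algebraMap _ (norm_nonneg a) h3]
      simpa only [tsub_le_iff_right, le_add_iff_nonneg_right] using ha
    have h4 : ‖g (algebraMap ℝ A ‖a‖ - a)‖ ≤ ‖a‖ := by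
      have := g.le_opNorm (algebraMap ℝ A ‖a‖ - a)
      rw [hg, one_mul] at this
      exact this.trans h2
    have h5 : g (algebraMap ℝ A ‖a‖) = ‖a‖ := by
      rw [Algebra.algebraMap_eq_smul_one, ← Complex.coe_smul, map_smul, h1']
      simp
    have h6 := (Complex.re_le_norm _).trans h4
    rw [map_sub, h5] at h6
    simpa only [ge_iff_le, Complex.sub_re, Complex.ofReal_re, tsub_le_iff_right, le_add_iff_nonneg_right] using h6
  let f : A →ₚ[ℂ] ℂ := PositiveLinearMap.mk₀ g.toLinearMap hpos
  have hnt : Nontrivial f.GNS := by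
    refine ⟨(f.toPreGNS 1 : f.PreGNS), 0, fun h => ?_⟩
    have h2 : ‖((f.toPreGNS 1 : f.PreGNS) : f.GNS)‖ = 0 := by rw [h, norm_zero]
    rw [UniformSpace.Completion.norm_coe] at h2
    have h3 := f.preGNS_norm_sq (f.toPreGNS 1)
    rw [h2] at h3
    have h4 : f 1 = 1 := h1'
    simp only [Complex.ofReal_zero, ne_eq, OfNat.ofNat_ne_zero, not_false_eq_true, zero_pow, PositiveLinearMap.ofPreGNS_toPreGNS, star_one, mul_one, h4, zero_ne_one] at h3
  exact ⟨f.GNS, inferInstance, inferInstance, inferInstance, f.gnsStarAlgHom, hA.injective _⟩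

end state

section op

variable {H K : Type} [NormedAddCommGroup H] [InnerProductSpace ℂ H] [CompleteSpace H]
  [NormedAddCommGroup K] [InnerProductSpace ℂ K] [CompleteSpace K]

theorem op_ext {S T : HilbertTensor H K →L[ℂ] HilbertTensor H K}
    (h : ∀ x : H ⊗[ℂ] K, S x = T x) : S = T := by
  ext x
  induction x using UniformSpace.Completion.induction_on with
  | hp => exact isClosed_eq S.continuous T.continuous
  | ih x => exact h x

theorem opTensor_coe (S : H →L[ℂ] H) (T : K →L[ℂ] K) (x : H ⊗[ℂ] K) :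
    opTensor S T x = (TensorProduct.mapL S T x : H ⊗[ℂ] K) :=
  ContinuousLinearMap.completion_apply_coe _ _

theorem opTensor_mul (S S' : H →L[ℂ] H) (T T' : K →L[ℂ] K) :
    opTensor (S * S') (T * T') = opTensor S T * opTensor S' T' :=
  op_ext fun x => by
    rw [mul_apply_eq_comp, opTensor_coe, opTensor_coe, opTensor_coe,
      TensorProduct.mapL_mul, mul_apply_eq_comp]

theorem opTensor_one : opTensor (1 : H →L[ℂ] H) (1 : K →L[ℂ] K) = 1 :=
  op_ext fun x => by
    rw [opTensor_coe]
    exact congrArg _ (congrArg (fun f : H ⊗[ℂ] K →L[ℂ] H ⊗[ℂ] K => f x) TensorProduct.mapL_id_id)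

theorem opTensor_add_left (S S' : H →L[ℂ] H) (T : K →L[ℂ] K) :
    opTensor (S + S') T = opTensor S T + opTensor S' T :=
  op_ext fun x => by
    rw [add_apply, opTensor_coe, opTensor_coe, opTensor_coe,
      TensorProduct.mapL_add_left, add_apply, UniformSpace.Completion.coe_add]

theorem opTensor_add_right (S : H →L[ℂ] H) (T T' : K →L[ℂ] K) :
    opTensor S (T + T') = opTensor S T + opTensor S T' :=
  op_ext fun x => by
    rw [add_apply, opTensor_coe, opTensor_coe, opTensor_coe,
      TensorProduct.mapL_add_right, add_apply, UniformSpace.Completion.coe_add]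

theorem opTensor_smul_left (c : ℂ) (S : H →L[ℂ] H) (T : K →L[ℂ] K) :
    opTensor (c • S) T = c • opTensor S T :=
  op_ext fun x => by
    rw [smul_apply, opTensor_coe, opTensor_coe,
      TensorProduct.mapL_smul_left, smul_apply,
      UniformSpace.Completion.coe_smul]

theorem opTensor_smul_right (c : ℂ) (S : H →L[ℂ] H) (T : K →L[ℂ] K) :
    opTensor S (c • T) = c • opTensor S T :=
  op_ext fun x => by
    rw [smul_apply, opTensor_coe, opTensor_coe,
      TensorProduct.mapL_smul_right, smul_apply,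
      UniformSpace.Completion.coe_smul]

theorem inner_mapL (S : H →L[ℂ] H) (T : K →L[ℂ] K) (x y : H ⊗[ℂ] K) :
    inner ℂ (TensorProduct.mapL (star S) (star T) x) y = inner ℂ x (TensorProduct.mapL S T y) := by
  induction x using TensorProduct.induction_on with
  | zero => simp
  | add a b ha hb => rw [map_add, inner_add_left, inner_add_left, ha, hb]
  | tmul a b =>
    induction y using TensorProduct.induction_on with
    | zero => simp
    | add c d hc hd => rw [map_add, inner_add_right, inner_add_right, hc, hd]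
    | tmul c d =>
      rw [TensorProduct.mapL_tmul, TensorProduct.mapL_tmul, TensorProduct.inner_tmul,
        TensorProduct.inner_tmul, ContinuousLinearMap.star_eq_adjoint,
        ContinuousLinearMap.star_eq_adjoint, ContinuousLinearMap.adjoint_inner_left,
        ContinuousLinearMap.adjoint_inner_left]

theorem opTensor_star (S : H →L[ℂ] H) (T : K →L[ℂ] K) :
    opTensor (star S) (star T) = star (opTensor S T) := by
  rw [ContinuousLinearMap.star_eq_adjoint (opTensor S T), ContinuousLinearMap.eq_adjoint_iff]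
  intro x y
  induction x, y using UniformSpace.Completion.induction_on₂ with
  | hp => apply isClosed_eq <;> fun_prop
  | ih x y =>
    rw [opTensor_coe, opTensor_coe, UniformSpace.Completion.inner_coe,
      UniformSpace.Completion.inner_coe, inner_mapL]

/-- The map `S ↦ S ⊗ 1`. -/
noncomputable def leftOp : (H →L[ℂ] H) →⋆ₐ[ℂ] (HilbertTensor H K →L[ℂ] HilbertTensor H K) where
  toFun S := opTensor S 1
  map_one' := opTensor_one
  map_mul' S S' := by rw [← opTensor_mul, mul_one]
  map_zero' := by simpa using opTensor_smul_left 0 (0 : H →L[ℂ] H) (1 : K →L[ℂ] K)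
  map_add' S S' := opTensor_add_left _ _ _
  commutes' c := by
    rw [Algebra.algebraMap_eq_smul_one, Algebra.algebraMap_eq_smul_one, opTensor_smul_left,
      opTensor_one]
  map_star' S := by rw [← opTensor_star, star_one]

/-- The map `T ↦ 1 ⊗ T`. -/
noncomputable def rightOp : (K →L[ℂ] K) →⋆ₐ[ℂ] (HilbertTensor H K →L[ℂ] HilbertTensor H K) where
  toFun T := opTensor 1 T
  map_one' := opTensor_one
  map_mul' S S' := by rw [← opTensor_mul, mul_one]
  map_zero' := by simpa only [smul_zero, zero_smul] using opTensor_smul_right 0 (1 : H →L[ℂ] H) (0 : K →L[ℂ] K)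
  map_add' S S' := opTensor_add_right _ _ _
  commutes' c := by
    rw [Algebra.algebraMap_eq_smul_one, Algebra.algebraMap_eq_smul_one, opTensor_smul_right,
      opTensor_one]
  map_star' S := by rw [← opTensor_star, star_one]

theorem nontrivial_hilbertTensor [Nontrivial H] [Nontrivial K] :
    Nontrivial (HilbertTensor H K) := by
  obtain ⟨x, hx⟩ := exists_ne (0 : H)
  obtain ⟨y, hy⟩ := exists_ne (0 : K)
  refine ⟨(x ⊗ₜ[ℂ] y : H ⊗[ℂ] K), 0, fun h => ?_⟩
  have h2 : ‖((x ⊗ₜ[ℂ] y : H ⊗[ℂ] K) : HilbertTensor H K)‖ = 0 := by rw [h, norm_zero]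
  rw [UniformSpace.Completion.norm_coe, TensorProduct.norm_tmul] at h2
  simp [hx, hy] at h2

theorem nontrivial_of_rep {A : Type} [CStarAlgebra A] [Nontrivial A]
    (π : A →⋆ₐ[ℂ] (H →L[ℂ] H)) (hπ : Injective π) : Nontrivial H := by
  by_contra h
  rw [not_nontrivial_iff_subsingleton] at h
  have : π 1 = π 0 := by ext x; exact Subsingleton.elim _ _
  exact one_ne_zero (hπ this)

theorem mem_generated {C : Type} [CStarAlgebra C] {X : Set C} {x : C} (hx : x ∈ X) :
    x ∈ generatedCStar X :=
  StarSubalgebra.le_topologicalClosure _ (StarAlgebra.subset_adjoin ℂ X hx)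

theorem generated_gen {C : Type} [CStarAlgebra C] (X : Set C)
    (S : StarSubalgebra ℂ (generatedCStar X)) (hS : IsClosed (S : Set (generatedCStar X)))
    (hX : ∀ c : generatedCStar X, c.1 ∈ X → c ∈ S) (c : generatedCStar X) : c ∈ S := by
  have hcl : IsClosed ((S.map (generatedCStar X).subtype : StarSubalgebra ℂ C) : Set C) :=
    (isClosed_generatedCStar X).isClosedEmbedding_subtypeVal.isClosedMap _ hS
  have hle : generatedCStar X ≤ S.map (generatedCStar X).subtype := by
    refine StarSubalgebra.topologicalClosure_minimal (StarAlgebra.adjoin_le fun x hx => ?_) hcl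
    have hx' : x ∈ generatedCStar X :=
      StarSubalgebra.le_topologicalClosure _ (StarAlgebra.subset_adjoin ℂ X hx)
    exact ⟨⟨x, hx'⟩, hX _ hx, rfl⟩
  obtain ⟨d, hd, hdc⟩ := hle c.2
  have : d = c := Subtype.ext hdc
  rwa [← this]

theorem exists_isGen {A B : Type} [CStarAlgebra A] [CStarAlgebra B] (hA : IsSimpleCStar A)
    (hB : IsSimpleCStar B) (π : CStarHom A (BOp H)) (ρ : CStarHom B (BOp K))
    (hπ : Injective π) (hρ : Injective ρ) :
    ∃ (i : CStarHom A (SpatialTensor π ρ)) (j : CStarHom B (SpatialTensor π ρ)),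
      IsGen (A := A) (B := B) (C := SpatialTensor π ρ) i j ∧
      ∀ a b, (i a * j b).1 = opTensor (π a) (ρ b) := by
  haveI := hA.1
  haveI := hB.1
  haveI := nontrivial_of_rep π hπ
  haveI := nontrivial_of_rep ρ hρ
  haveI : Nontrivial (HilbertTensor H K) := nontrivial_hilbertTensor
  let X : Set (BOp (HilbertTensor H K)) := elemTensors π ρ
  have hmem : ∀ a b, opTensor (π a) (ρ b) ∈ generatedCStar X := fun a b =>
    mem_generated (C := BOp (HilbertTensor H K)) ⟨a, b, rfl⟩
  let i : CStarHom A (SpatialTensor π ρ) :=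
    (leftOp.comp π).codRestrict (generatedCStar X) fun a => by
      have := hmem a 1
      rwa [map_one] at this
  let j : CStarHom B (SpatialTensor π ρ) :=
    (rightOp.comp ρ).codRestrict (generatedCStar X) fun b => by
      have := hmem 1 b
      rwa [map_one] at this
  have hij : ∀ a b, (i a * j b).1 = opTensor (π a) (ρ b) := fun a b => by
    show opTensor (π a) 1 * opTensor 1 (ρ b) = _
    rw [← opTensor_mul, mul_one, one_mul]
  have hji : ∀ a b, (j b * i a).1 = opTensor (π a) (ρ b) := fun a b => by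
    show opTensor 1 (ρ b) * opTensor (π a) 1 = _
    rw [← opTensor_mul, mul_one, one_mul]
  refine ⟨i, j, ⟨?_, fun a b => Subtype.ext ((hij a b).trans (hji a b).symm), ?_⟩, hij⟩
  · have : Injective ((leftOp (K := K)).comp π) := 
      hA.injective (E := HilbertTensor H K →L[ℂ] HilbertTensor H K) ((leftOp (K := K)).comp π)
    intro a b h
    exact this (congrArg Subtype.val h)
  · intro S hS hm c
    refine generated_gen _ S hS (fun c hc => ?_) c
    obtain ⟨a, b, hab⟩ := hc
    have : c = i a * j b := Subtype.ext (hab.trans (hij a b).symm)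
    rw [this]
    exact hm a b

end op

end Pool.Agent.MP_eaab15_an

end
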