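import Mathlib

/-!
Definitions used in the statement about the tracial Rokhlin property of tensor product actions.
-/

set_option autoImplicit false

open scoped TensorProduct

namespace Pool.Agent.MP_eaab15_an

/-- A unital C*-algebra is simple: it is nonzero and its only closed two-sided ideals are
zero and the whole algebra. -/
def IsSimpleCStar (A : Type*) [CStarAlgebra A] : Prop :=
  Nontrivial A ∧ ∀ I : TwoSidedIdeal A, IsClosed (I : Set A) → I = ⊥ ∨ I = ⊤

/-- A unital C*-algebra is stably finite: every isometry in every matrix algebra over it is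
unitary. -/
def IsStablyFiniteCStar (A : Type*) [CStarAlgebra A] : Prop :=
  ∀ (n : ℕ) (v : Matrix (Fin n) (Fin n) A), star v * v = 1 → v * star v = 1

/-- The group of *-automorphisms of a unital C*-algebra. -/
abbrev StarAut (A : Type*) [CStarAlgebra A] := A ≃⋆ₐ[ℂ] A

/-- An action of a group on a unital C*-algebra by *-automorphisms. -/
abbrev Action (G A : Type*) [Group G] [CStarAlgebra A] := G →* StarAut A

/-- The value of the automorphism attached to `g` at `a`. -/
abbrev Action.app {G A : Type*} [Group G] [CStarAlgebra A] (α : Action G A) (g : G) (a : A) : A :=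
  α g a

/-- Murray-von Neumann equivalence. -/
def MvNEquiv {A : Type*} [CStarAlgebra A] (p q : A) : Prop :=
  ∃ v : A, star v * v = p ∧ v * star v = q

/-- The tracial Rokhlin property for an action of a finite group. -/
def HasTracialRokhlin {G A : Type*} [Group G] [Fintype G] [CStarAlgebra A]
    (α : Action G A) : Prop :=
  ∀ (F : Finset A) (ε : ℝ), 0 < ε → ∀ x : A, (∃ y : A, x = star y * y) → x ≠ 0 →
    ∃ e : G → A, (∀ g, IsStarProjection (e g)) ∧ (∀ g h, g ≠ h → e g * e h = 0) ∧
      (∀ g h, ‖α.app g (e h) - e (g * h)‖ < ε) ∧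
      (∀ g, ∀ a ∈ F, ‖e g * a - a * e g‖ < ε) ∧
      ∃ p : A, IsStarProjection p ∧ p ∈ closure {z : A | ∃ a : A, z = x * a * x} ∧
        MvNEquiv (1 - ∑ g, e g) p

/-- The Rokhlin property for an action of a finite group. -/
def HasRokhlin {G A : Type*} [Group G] [Fintype G] [CStarAlgebra A]
    (α : Action G A) : Prop :=
  ∀ (F : Finset A) (ε : ℝ), 0 < ε →
    ∃ e : G → A, (∀ g, IsStarProjection (e g)) ∧ (∀ g h, g ≠ h → e g * e h = 0) ∧
      (∀ g h, ‖α.app g (e h) - e (g * h)‖ < ε) ∧
      (∀ g, ∀ a ∈ F, ‖e g * a - a * e g‖ < ε) ∧ ∑ g, e g = 1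

/-- The C*-subalgebra generated by a set: the norm closure of the unital *-subalgebra it
generates. -/
noncomputable def generatedCStar {C : Type*} [CStarAlgebra C] (S : Set C) : StarSubalgebra ℂ C :=
  (StarAlgebra.adjoin ℂ S).topologicalClosure

/-- It is norm closed, hence a C*-algebra for the norm of the ambient algebra. -/
instance isClosed_generatedCStar {C : Type*} [CStarAlgebra C] (S : Set C) :
    IsClosed (generatedCStar S : Set C) :=
  StarSubalgebra.isClosed_topologicalClosure _

/-- The C*-subalgebra generated by a set, as a type. -/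
abbrev Generated {C : Type*} [CStarAlgebra C] (S : Set C) : Type _ := generatedCStar S

/-- Its C*-algebra structure is the one of a closed *-subalgebra. -/
noncomputable instance cstarGenerated {C : Type*} [CStarAlgebra C] (S : Set C) :
    CStarAlgebra (Generated S) :=
  StarSubalgebra.cstarAlgebra (generatedCStar S)

/-- An element of the generated C*-subalgebra, as an element of the ambient algebra. -/
abbrev Generated.val {C : Type*} [CStarAlgebra C] {S : Set C} (x : Generated S) : C := x.1

/-- Unital *-homomorphisms between unital C*-algebras. -/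
abbrev CStarHom (A B : Type*) [CStarAlgebra A] [CStarAlgebra B] := A →⋆ₐ[ℂ] B

/-- A *-homomorphism is faithful when it is injective. -/
def IsFaithful {A B : Type*} [CStarAlgebra A] [CStarAlgebra B] (φ : CStarHom A B) : Prop :=
  Function.Injective φ

/-- Bounded operators on an inner product space. -/
abbrev BOp (H : Type*) [NormedAddCommGroup H] [InnerProductSpace ℂ H] := H →L[ℂ] H

/-- The algebraic tensor product, with the inner product `⟪a ⊗ b, c ⊗ d⟫ = ⟪a, c⟫ ⟪b, d⟫`. -/
abbrev AlgTensor (H K : Type*) [NormedAddCommGroup H] [InnerProductSpace ℂ H]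
    [NormedAddCommGroup K] [InnerProductSpace ℂ K] : Type _ :=
  H ⊗[ℂ] K

/-- The Hilbert space tensor product: the completion of the algebraic tensor product. -/
abbrev HilbertTensor (H K : Type*) [NormedAddCommGroup H] [InnerProductSpace ℂ H]
    [NormedAddCommGroup K] [InnerProductSpace ℂ K] : Type _ :=
  UniformSpace.Completion (AlgTensor H K)

section Spatial

variable {H K : Type*} [NormedAddCommGroup H] [InnerProductSpace ℂ H] [CompleteSpace H]
  [NormedAddCommGroup K] [InnerProductSpace ℂ K] [CompleteSpace K]
  {A B : Type*} [CStarAlgebra A] [CStarAlgebra B]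

/-- The operator `S ⊗ T` on the Hilbert space tensor product. -/
noncomputable def opTensor (S : BOp H) (T : BOp K) : BOp (HilbertTensor H K) :=
  (TensorProduct.mapL S T).completion

/-- The operator `π a ⊗ ρ b`. -/
noncomputable def repTensor (π : CStarHom A (BOp H)) (ρ : CStarHom B (BOp K)) (a : A) (b : B) :
    BOp (HilbertTensor H K) :=
  opTensor (π a) (ρ b)

/-- The set of the operators `π a ⊗ ρ b`. -/
def elemTensors (π : CStarHom A (BOp H)) (ρ : CStarHom B (BOp K)) :
    Set (BOp (HilbertTensor H K)) :=
  {T | ∃ (a : A) (b : B), T = repTensor π ρ a b}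

/-- The spatial tensor product attached to representations `π` of `A` and `ρ` of `B`: the
C*-algebra of operators generated by the operators `π a ⊗ ρ b`.  For faithful `π` and `ρ` this is
the minimal tensor product of `A` and `B`. -/
abbrev SpatialTensor (π : CStarHom A (BOp H)) (ρ : CStarHom B (BOp K)) : Type _ :=
  Generated (elemTensors π ρ)

/-- Its C*-algebra structure is the one of a closed *-subalgebra of the bounded operators. -/
noncomputable instance cstarSpatial (π : CStarHom A (BOp H)) (ρ : CStarHom B (BOp K)) :
    CStarAlgebra (SpatialTensor π ρ) :=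
  cstarGenerated (elemTensors π ρ)

/-- `γ` is the tensor product action: `γ (g, h)` sends `a ⊗ b` to `α g a ⊗ β h b`. -/
def IsTensorAction {G L : Type*} [Group G] [Group L] (π : CStarHom A (BOp H))
    (ρ : CStarHom B (BOp K)) (α : Action G A) (β : Action L B)
    (γ : Action (G × L) (SpatialTensor π ρ)) : Prop :=
  ∀ (g : G) (h : L) (a : A) (b : B) (x : SpatialTensor π ρ), x.val = repTensor π ρ a b →
    (γ.app (g, h) x).val = repTensor π ρ (α.app g a) (β.app h b)

end Spatial

end Pool.Agent.MP_eaab15_an
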