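import Pool.Agent.MP_eaab15_an.Base

attribute [-instance] NonarchimedeanAddGroup.toIsTopologicalAddGroup TotallySeparatedSpace.t2Space
  SubfieldClass.toSubringClass AddSubgroup.seminormedAddCommGroup
  NonUnitalSemiring.toNonUnitalNonAssocSemiring SubringClass.toSubsemiringClass
  LieRinehartAlgebra.toIsScalarTower ProperSMul.toContinuousSMul
  IsValuativeTopology.instIsTopologicalAddGroup littleWedderburn
  IsValuativeTopology.instValuedValueGroupWithZeroOfIsUniformAddGroup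
  IsTopologicalSemiring.toContinuousAdd NonUnitalSubringClass.toNonUnitalRing
  SubsemiringClass.toCommSemiring SetLike.GradeZero.instRing LeftPreLieAlgebra.toModule
  RightPreLieAlgebra.toModule SetLike.GradeZero.instSemiring SetLike.GradeZero.instCommSemiring
  instStarHomClassOfSelfAdjointDecomposeOfStarOrderedRingOfStarModuleOfOrderHomClassOfLinearMapClassComplex
  IsModuleTopology.toContinuousSMul IsIsometricSMul.to_continuousConstSMul
  IsScalarTower.to_smulCommClass MonTypeEquivalenceMon.monMonoid RKHS.instFunLike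
  CoalgHomClass.toSemilinearMapClass SetLike.GradeZero.instCommRing
  NonUnitalSubsemiringClass.toNonUnitalNonAssocSemiring NormedCommRing.toCommRing
  AddSubgroup.instIsTopologicalAddGroupSubtypeMem IsTopologicalTorsor.toContinuousSMul
  MulSemiringAction.toDistribMulAction RingConeClass.toSubsemiringClass
  NonUnitalNonAssocSemiring.toMulZeroClass AlgHom.instContinuousLinearMapClassOfAlgHomClass
  NonUnitalNonAssocRing.toAddCommGroup instCoeTCOfCoe
  NonUnitalCommCStarAlgebra.toNonUnitalNormedCommRing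
  SeparatingDual.instNontrivialContinuousLinearMapIdOfContinuousSMul AddQuantale.instAddLeftMono
  ContinuousLinearMap.instStarModuleId SemilinearIsometryClass.toSemilinearMapClass
  IdemSemiring.toSemiring ContinuousLinearMap.instModuleFinite NumberField.IsCMField.starRing
  SeminormedCommRing.toCommRing
  TopologicalSpace.instSecondCountableTopologyOfLindelofSpaceOfPseudoMetrizableSpace
  EuclideanDomain.toCommRing MulZeroOneClass.toMulZeroClass AddSubgroup.seminormedAddGroup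
  NonarchimedeanRing.toIsTopologicalRing IsScalarTower.of_algHom SubringClass.toSeminormedCommRing
  LieAdmissibleRing.toNonUnitalNonAssocRing GrpTypeEquivalenceGrp.grpGroup
  NonAssocCommSemiring.toNonAssocSemiring NonUnitalSubringClass.toNonUnitalCommRing
  IdemSemiring.toCanonicallyOrderedAdd LieAlgebra.toModule Bialgebra.toAlgebra
  CommMonTypeEquivalenceCommMon.commMonCommMonoid Infinite.instNontrivial
  NonUnitalNonAssocCommSemiring.toNonUnitalNonAssocSemiring SubfieldClass.toField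
  NonAssocCommRing.toNonUnitalNonAssocCommRing BooleanRing.toCommRing BooleanRing.toRing
  SemilinearIsometryClass.toContinuousSemilinearMapClass FunLike.toDecidableEq LieRing.toAddCommGroup
  NumberField.to_charZero NonUnitalNormedCommRing.toNonUnitalSeminormedCommRing
  SeminormedCommGroup.toPseudoMetricSpace NormedDivisionRing.toNormedRing
  ContinuousLinearMap.toSeminormedRing AddCommGroupWithOne.toAddGroupWithOne
  AddSubgroup.normedAddGroup NonUnitalSubringClass.toNonUnitalNonAssocRing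
  RingHomClass.toLinearMapClassRat AddSubmonoidWithOneClass.toAddMonoidWithOne
  SubalgebraClass.normedRing IdemCommSemiring.toCommSemiring continuousSub_of_discreteTopology
  SubalgebraClass.seminormedRing SubringClass.toCommRing Module.complexToReal
  NonUnitalSeminormedCommRing.toNonUnitalCommRing NonUnitalSeminormedRing.toNonUnitalRing
  IsOrderedRing.toIsStrictOrderedRing BialgHomClass.toMonoidHomClass AddQuantale.instAddRightMono
  RCLike.toStarRing NonUnitalCStarAlgebra.toStarModule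
  ContinuousMonoidHom.instCoeOutOfMonoidHomClassOfContinuousMapClass
  NonUnitalNormedCommRing.toNonUnitalCommRing SemigroupWithZero.toMulZeroClass
  SubalgebraClass.toAlgebra NonUnitalSubalgebraClass.nonUnitalNormedRing
  SubsemiringClass.toNonAssocSemiring Group.IsPerfect.subsingleton_of_isMulCommutative
  RCLike.toInnerProductSpaceReal NonUnitalSubalgebraClass.nonUnitalSeminormedRing
  NonUnitalSubringClass.toNonUnitalNonAssocCommRing
  TopologicalSpace.UpgradedIsCompletelyPseudoMetrizableSpace.toPseudoMetricSpace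
  AddCommGroupWithOne.toAddCommGroup NormedDivisionRing.toDivisionRing SubringClass.toNonAssocRing
  Action.instMulAction Quantale.instMulRightMono Nontrivial.to_nonempty
  AddGroupConeClass.toAddSubmonoidClass BialgHomClass.toAlgHomClass Valued.toUniformSpace
  SeparatelyContinuousMul.to_continuousSMul TestFunctionClass.toDFunLike
  AddCommMonoidWithOne.toAddCommMonoid IsStarProjection.instTrivialStarOfStarOrderedRing
  RightPreLieRing.toNonUnitalNonAssocRing SubmoduleClass.module' SMulMemClass.toModule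
  StarSubalgebra.commCStarAlgebra NonAssocRing.toNonAssocSemiring NeZero.of_gt' MulOne.toOne
  ContDiffMapSupportedInClass.toDFunLike NonUnitalNormedCommRing.toNonUnitalNormedRing
  PseudoEpimorphismClass.toRelHomClass LeftPreLieRing.toNonUnitalNonAssocRing
  IsUniformGroup.instUniformContinuousConstSMul Unique.fintype
  LinearOrderedCommMonoidWithZero.toPosMulStrictMono
  ContinuousSemilinearEquivClass.continuousSemilinearMapClass instCoeTOfCoeDep
  LieAdmissibleAlgebra.toIsScalarTower CommGrpTypeEquivalenceCommGrp.commGrpCommGroup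
  LieAdmissibleAlgebra.toSMulCommClass RightPreLieAlgebra.toIsScalarTower
  CommSemiring.toNonUnitalCommSemiring Unique.instSubsingleton Ring.uniformContinuousConstSMul
  RightPreLieAlgebra.toSMulCommClass LeftPreLieAlgebra.toIsScalarTower IdemSemiring.toSemilatticeSup
  NonUnitalCStarAlgebra.toStarRing MulActionWithZero.toMulAction LeftPreLieAlgebra.toSMulCommClass
  IsOrderedMonoid.toMulLeftMono instSMulCommClassOfIsScalarTower
  IsValuativeTopology.isTopologicalRing MonoidWithZero.toMulZeroOneClass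
  CStarAlgebra.instOrderClosedTopology LinearOrderedAddCommMonoidWithTop.toAddCommMonoid
  AlexandrovDiscrete.toFirstCountable IdemSemiring.toMulLeftMono SubmonoidClass.toOneMemClass
  Quantale.instMulLeftMono AlgHomClass.linearMapClass ValuationClass.toMonoidWithZeroHomClass
  MulRingSeminormClass.toMonoidWithZeroHomClass Invertible.toNeZero
  SeminormedGroup.toPseudoMetricSpace IsOrderedRing.toIsOrderedAddMonoid Valued.instIsTopologicalRing
  instNontrivialOfCharZero GradedMonoid.GradeZero.mulAction ContinuousMul.to_continuousSMul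
  SMulMemClass.continuousSMul LinearOrder.toDecidableEq MulCharClass.toMonoidHomClass
  NonUnitalStarSubalgebra.nonUnitalCommCStarAlgebra instSMulZeroClass
  MulSemiringAction.toMulDistribMulAction instIsUniformAddGroupOfDiscreteUniformity
  CentroidHomClass.toAddMonoidHomClass UpgradedStandardBorel.toTopologicalSpace
  IsometryClass.instCoeOutIsometryEquiv instCommGroupOfIsSimpleGroupOfIsNilpotent
  LinearOrderedAddCommGroupWithTop.toAddCommMonoid SubfieldClass.toDivisionRing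
  MulDistribMulActionSemiHomClass.toMonoidHomClass CategoryTheory.FinCategory.fintypeObj
  LinearOrderedAddCommGroupWithTop.toIsOrderedAddMonoid SubfieldClass.toNormedField
  MulSemiringActionSemiHomClass.toRingHomClass

/-!
A separable simple algebra of real rank zero with an action of the group of order two that has
approximately central odd unitaries but not the tracial Rokhlin property.  The algebra sits in an
increasing union of mapping tori whose fibres are finite factors built from a free group.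
-/

set_option autoImplicit false
set_option linter.style.haveILetI false
set_option linter.unusedSectionVars false

open scoped InnerProductSpace

namespace Pool.Agent.MP_eaab15_an.RR


section vN

variable {H : Type} [NormedAddCommGroup H] [InnerProductSpace ℂ H] [CompleteSpace H]

/-- The range projection. -/
noncomputable def rp (T : BOp H) : BOp H :=
  (LinearMap.range (T : H →ₗ[ℂ] H)).topologicalClosure.starProjection

theorem rp_proj (T : BOp H) : IsStarProjection (rp T) := isStarProjection_starProjection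

theorem rp_mul (T : BOp H) : rp T * T = T := by
  ext1 ξ
  exact Submodule.starProjection_eq_self_iff.2 (Submodule.le_topologicalClosure _ ⟨ξ, rfl⟩)

theorem mul_rp {T Y : BOp H} (h : Y * T = 0) : Y * rp T = 0 := by
  ext1 ξ
  have h1 : (LinearMap.range (T : H →ₗ[ℂ] H)).topologicalClosure ≤ LinearMap.ker (Y : H →ₗ[ℂ] H) :=
    Submodule.topologicalClosure_minimal _ (by
      rintro _ ⟨η, rfl⟩
      exact congrArg (fun S : BOp H => S η) h) Y.isClosed_ker
  exact h1 (Submodule.starProjection_apply_mem _ ξ)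

theorem comm_of {A : Type} [Ring A] [StarRing A] {e u : A} (he : IsSelfAdjoint e)
    (h1 : (1 - e) * u * e = 0) (h2 : (1 - e) * star u * e = 0) : u * e = e * u := by
  have h3 := congrArg star h2
  simp only [star_mul, star_sub, star_one, star_star, he.star_eq, star_zero] at h3
  have h4 : u * e = e * u * e := by
    rw [← sub_eq_zero, ← h1]; noncomm_ring
  have h5 : e * u = e * u * e := by
    rw [← sub_eq_zero, ← h3]; noncomm_ring
  rw [h4, ← h5]

theorem rp_comm {T u : BOp H} (h1 : u * T = T * u) (h2 : star u * T = T * star u) :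
    u * rp T = rp T * u := by
  have key : ∀ w : BOp H, w * T = T * w → (1 - rp T) * w * rp T = 0 := fun w hw =>
    mul_rp (by rw [mul_assoc, hw, ← mul_assoc, sub_mul, rp_mul, one_mul, sub_self, zero_mul])
  exact comm_of (rp_proj T).isSelfAdjoint (key u h1) (key _ h2)

theorem rp_mem {S : Set (BOp H)} {T : BOp H} (h : T ∈ StarSubalgebra.centralizer ℂ S) :
    rp T ∈ StarSubalgebra.centralizer ℂ S := by
  rw [StarSubalgebra.mem_centralizer_iff] at h ⊢
  exact fun g hg => ⟨rp_comm (h g hg).1 (h g hg).2,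
    rp_comm (h g hg).2 (by rw [star_star]; exact (h g hg).1)⟩

theorem graph (W : Submodule ℂ (H × H)) (hc : IsClosed (W : Set (H × H)))
    (hn : ∀ w ∈ W, ‖w.1‖ = ‖w.2‖) : ∃ v : BOp H,
    (∀ w ∈ W, v w.1 = w.2 ∧ star v w.2 = w.1) ∧ (∀ ξ, (star v (v ξ), v ξ) ∈ W) ∧
      ∀ η, (star v η, v (star v η)) ∈ W := by
  let e := WithLp.prodContinuousLinearEquiv 2 ℂ H H
  let Γ : Submodule ℂ (WithLp 2 (H × H)) := W.comap e.toLinearMap
  have : CompleteSpace Γ := (hc.preimage e.continuous).completeSpace_coe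
  have hin : ∀ w ∈ W, ∀ w' ∈ W, ⟪w.1, w'.1⟫_ℂ = ⟪w.2, w'.2⟫_ℂ := fun w hw w' hw' => by
    have h1 := hn _ (W.add_mem hw hw')
    have h2 := hn _ (W.sub_mem hw hw')
    have h3 := hn _ (W.add_mem hw (W.smul_mem Complex.I hw'))
    have h4 := hn _ (W.sub_mem hw (W.smul_mem Complex.I hw'))
    simp only [Prod.fst_add, Prod.snd_add, Prod.fst_sub, Prod.snd_sub, Prod.smul_fst,
      Prod.smul_snd] at h1 h2 h3 h4
    rw [inner_eq_sum_norm_sq_div_four, inner_eq_sum_norm_sq_div_four]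
    simp only [RCLike.I_to_complex, h1, h2, h3, h4]
  let i1 : H →L[ℂ] WithLp 2 (H × H) :=
    (e.symm : H × H →L[ℂ] WithLp 2 (H × H)) ∘L ContinuousLinearMap.inl ℂ H H
  let i2 : H →L[ℂ] WithLp 2 (H × H) :=
    (e.symm : H × H →L[ℂ] WithLp 2 (H × H)) ∘L ContinuousLinearMap.inr ℂ H H
  let v : BOp H := (2 : ℂ) • (WithLp.sndL 2 ℂ H H ∘L Γ.starProjection ∘L i1)
  let v' : BOp H := (2 : ℂ) • (WithLp.fstL 2 ℂ H H ∘L Γ.starProjection ∘L i2)
  have hv : ∀ ξ, v ξ = (2 : ℂ) • (Γ.starProjection (WithLp.toLp 2 (ξ, 0))).snd := fun _ => rfl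
  have hv' : ∀ ξ, v' ξ = (2 : ℂ) • (Γ.starProjection (WithLp.toLp 2 (0, ξ))).fst := fun _ => rfl
  have hs : star v = v' := by
    rw [ContinuousLinearMap.star_eq_adjoint]
    refine ((ContinuousLinearMap.eq_adjoint_iff _ _).2 fun η ξ => ?_).symm
    have h1 := Γ.inner_starProjection_left_eq_right (WithLp.toLp 2 (0, η)) (WithLp.toLp 2 (ξ, 0))
    rw [WithLp.prod_inner_apply, WithLp.prod_inner_apply] at h1
    rw [hv, hv', inner_smul_left, inner_smul_right]
    simp only [inner_zero_right, inner_zero_left, add_zero, zero_add] at h1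
    simp only [map_ofNat]
    exact congrArg _ h1
  have ha : ∀ w ∈ W, v w.1 = w.2 ∧ star v w.2 = w.1 := fun w hw => by
    have hw' : WithLp.toLp 2 ((1 / 2 : ℂ) • w) ∈ Γ := W.smul_mem _ hw
    constructor
    · rw [hv, Submodule.eq_starProjection_of_mem_of_inner_eq_zero hw' fun u hu => ?_]
      · simp [smul_smul]
      · have := hin w hw _ hu
        rw [WithLp.prod_inner_apply]
        simp only [WithLp.ofLp_sub, Prod.fst_sub, Prod.snd_sub, Prod.smul_fst, Prod.smul_snd,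
          inner_sub_left, inner_smul_left, inner_zero_left]
        change ⟪w.1, u.ofLp.1⟫_ℂ = ⟪w.2, u.ofLp.2⟫_ℂ at this
        rw [this]; simp only [one_div, map_inv₀, map_ofNat]; ring
    · rw [hs, hv', Submodule.eq_starProjection_of_mem_of_inner_eq_zero hw' fun u hu => ?_]
      · simp [smul_smul]
      · have := hin w hw _ hu
        rw [WithLp.prod_inner_apply]
        simp only [WithLp.ofLp_sub, Prod.fst_sub, Prod.snd_sub, Prod.smul_fst, Prod.smul_snd,
          inner_sub_left, inner_smul_left, inner_zero_left]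
        change ⟪w.1, u.ofLp.1⟫_ℂ = ⟪w.2, u.ofLp.2⟫_ℂ at this
        rw [this]; simp only [one_div, map_inv₀, map_ofNat]; ring
  refine ⟨v, ha, fun ξ => ?_, fun η => ?_⟩
  · have h1 : (2 : ℂ) • (Γ.starProjection (WithLp.toLp 2 (ξ, 0))).ofLp ∈ W :=
      W.smul_mem _ (Γ.starProjection_apply_mem _)
    have h2 := (ha _ h1).2
    convert h1 using 1
    exact Prod.ext h2 rfl
  · have h1 : (2 : ℂ) • (Γ.starProjection (WithLp.toLp 2 (0, η))).ofLp ∈ W :=
      W.smul_mem _ (Γ.starProjection_apply_mem _)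
    have h2 := (ha _ h1).1
    convert h1 using 1
    rw [hs]
    exact Prod.ext rfl h2

theorem norm_abs_apply (T : BOp H) (ξ : H) : ‖CFC.abs T ξ‖ = ‖T ξ‖ := by
  have h1 : IsSelfAdjoint (CFC.abs T) := IsSelfAdjoint.of_nonneg (CFC.abs_nonneg T)
  rw [@norm_eq_sqrt_re_inner ℂ, @norm_eq_sqrt_re_inner ℂ _ _ _ _ (T ξ),
    ← ContinuousLinearMap.adjoint_inner_right, ← ContinuousLinearMap.adjoint_inner_right,
    ← ContinuousLinearMap.star_eq_adjoint, h1.star_eq, ← mul_apply_eq_comp, CFC.abs_mul_abs]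
  rfl

theorem proj_sub {A : Type} [Ring A] [StarRing A] {p v : A} (hp : IsStarProjection p)
    (h1 : v * p = v) (h2 : v * star v * v = v) : IsStarProjection (p - star v * v) := by
  have h3 : p * star v = star v := by
    have := congrArg star h1
    rwa [star_mul, hp.isSelfAdjoint.star_eq] at this
  refine ⟨?_, hp.isSelfAdjoint.sub (IsSelfAdjoint.star_mul_self v)⟩
  have h4 := hp.isIdempotentElem.eq
  calc (p - star v * v) * (p - star v * v)
      = p * p - p * star v * v - star v * (v * p) + star v * (v * star v * v) := by noncomm_ring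
    _ = p - star v * v := by rw [h4, h3, h1, h2]; abel

/-- The commutant is a factor. -/
def IsFac (S : Set (BOp H)) : Prop :=
  ∀ p ∈ StarSubalgebra.centralizer ℂ S, ∀ q ∈ StarSubalgebra.centralizer ℂ S,
    IsStarProjection p → IsStarProjection q → p ≠ 0 → q ≠ 0 →
      ∃ y ∈ StarSubalgebra.centralizer ℂ S, q * y * p ≠ 0

theorem compare {S : Set (BOp H)} (hS : IsFac S) {p q : BOp H}
    (hpN : p ∈ StarSubalgebra.centralizer ℂ S) (hqN : q ∈ StarSubalgebra.centralizer ℂ S)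
    (hp : IsStarProjection p) (hq : IsStarProjection q) :
    ∃ v ∈ StarSubalgebra.centralizer ℂ S, q * v = v ∧ v * p = v ∧ v * star v * v = v ∧
      (star v * v = p ∨ v * star v = q) := by
  let 𝒲 : Set (Submodule ℂ (H × H)) := {W | ∀ w ∈ W, ‖w.1‖ = ‖w.2‖ ∧ p w.1 = w.1 ∧ q w.2 = w.2 ∧
    ∀ g ∈ S, (g w.1, g w.2) ∈ W ∧ (star g w.1, star g w.2) ∈ W}
  obtain ⟨W, -, hW, hmax⟩ := zorn_le_nonempty₀ 𝒲 (fun c hc hch y hy => ⟨sSup c, fun w hw => by
    obtain ⟨V, hV, hw⟩ := (Submodule.mem_sSup_of_directed ⟨y, hy⟩ hch.directedOn).1 hw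
    obtain ⟨h1, h2, h3, h4⟩ := hc hV w hw
    exact ⟨h1, h2, h3, fun g hg => ⟨le_sSup hV (h4 g hg).1, le_sSup hV (h4 g hg).2⟩⟩,
    fun z hz => le_sSup hz⟩) ⊥ (by
      intro w hw
      rw [(Submodule.mem_bot ℂ).1 hw]
      simp only [Prod.fst_zero, norm_zero, Prod.snd_zero, map_zero, Submodule.mem_bot, Prod.mk_eq_zero, and_self, implies_true])
  have hcl : W.topologicalClosure ∈ 𝒲 := fun w hw => by
    refine ⟨?_, ?_, ?_, fun g hg => ⟨?_, ?_⟩⟩
    · exact (isClosed_eq (f := fun w : H × H => ‖w.1‖) (by fun_prop) (by fun_prop)).closure_subset_iff.2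
        (fun w hw => (hW w hw).1) hw
    · exact (isClosed_eq (f := fun w : H × H => p w.1) (by fun_prop) (by fun_prop)).closure_subset_iff.2
        (fun w hw => (hW w hw).2.1) hw
    · exact (isClosed_eq (f := fun w : H × H => q w.2) (by fun_prop) (by fun_prop)).closure_subset_iff.2
        (fun w hw => (hW w hw).2.2.1) hw
    · exact map_mem_closure (f := fun w : H × H => (g w.1, g w.2)) (by fun_prop) hw
        fun w hw => ((hW w hw).2.2.2 g hg).1
    · exact map_mem_closure (f := fun w : H × H => (star g w.1, star g w.2)) (by fun_prop) hw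
        fun w hw => ((hW w hw).2.2.2 g hg).2
  have hc : IsClosed (W : Set (H × H)) :=
    closure_subset_iff_isClosed.1 (hmax hcl W.le_topologicalClosure)
  obtain ⟨v, ha, hb, hd⟩ := graph W hc fun w hw => (hW w hw).1
  have hcomm : ∀ g : BOp H, (∀ w ∈ W, (g w.1, g w.2) ∈ W) →
      (∀ w ∈ W, (star g w.1, star g w.2) ∈ W) → g * v = v * g := fun g h1 h2 => by
    ext1 ξ
    have h3 := (ha _ (h1 _ (hb ξ))).1
    have h4 : v (g (ξ - star v (v ξ))) = 0 := ext_inner_left ℂ fun η => by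
      have h5 := ha _ (h2 _ (hd η))
      simp only at h5
      rw [← ContinuousLinearMap.adjoint_inner_left, ← ContinuousLinearMap.adjoint_inner_left,
        ← ContinuousLinearMap.star_eq_adjoint, ← ContinuousLinearMap.star_eq_adjoint,
        inner_sub_right, ContinuousLinearMap.star_eq_adjoint v,
        ContinuousLinearMap.adjoint_inner_right, ← ContinuousLinearMap.adjoint_inner_left v ξ,
        ← ContinuousLinearMap.star_eq_adjoint v, h5.1, h5.2]
      simp only [sub_self, inner_zero_right]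
    rw [map_sub, map_sub] at h4
    exact h3.symm.trans (sub_eq_zero.1 h4).symm
  have hvN : v ∈ StarSubalgebra.centralizer ℂ S := by
    rw [StarSubalgebra.mem_centralizer_iff]
    exact fun g hg => ⟨hcomm g (fun w hw => ((hW w hw).2.2.2 g hg).1)
      fun w hw => ((hW w hw).2.2.2 g hg).2, hcomm _ (fun w hw => ((hW w hw).2.2.2 g hg).2)
      fun w hw => by rw [star_star]; exact ((hW w hw).2.2.2 g hg).1⟩
  have h1 : q * v = v := ContinuousLinearMap.ext fun ξ => (hW _ (hb ξ)).2.2.1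
  have h2' : p * star v = star v := ContinuousLinearMap.ext fun ξ => (hW _ (hd ξ)).2.1
  have h2 : v * p = v := by
    have := congrArg star h2'
    rwa [star_mul, star_star, hp.isSelfAdjoint.star_eq] at this
  have h1' : star v * q = star v := by
    have := congrArg star h1
    rwa [star_mul, hq.isSelfAdjoint.star_eq] at this
  have h3 : v * star v * v = v := ContinuousLinearMap.ext fun ξ => (ha _ (hb ξ)).1
  refine ⟨v, hvN, h1, h2, h3, ?_⟩
  by_contra hcon
  push Not at hcon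
  have hp' := proj_sub hp h2 h3
  have hq' := proj_sub hq h1' (by simpa only [star_star, mul_assoc, star_mul] using congrArg star h3)
  rw [star_star] at hq'
  set p' := p - star v * v with hp'd
  set q' := q - v * star v with hq'd
  have hp'N : p' ∈ StarSubalgebra.centralizer ℂ S := sub_mem hpN (mul_mem (star_mem hvN) hvN)
  have hq'N : q' ∈ StarSubalgebra.centralizer ℂ S := sub_mem hqN (mul_mem hvN (star_mem hvN))
  obtain ⟨y, hyN, hy⟩ := hS p' hp'N q' hq'N hp' hq' (sub_ne_zero.2 hcon.1.symm)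
    (sub_ne_zero.2 hcon.2.symm)
  obtain ⟨T, hT⟩ : ∃ T, T = q' * y * p' := ⟨_, rfl⟩
  rw [← hT] at hy
  have hTN : T ∈ StarSubalgebra.centralizer ℂ S := hT ▸ mul_mem (mul_mem hq'N hyN) hp'N
  have hb1 : IsSelfAdjoint (CFC.abs T) := IsSelfAdjoint.of_nonneg (CFC.abs_nonneg T)
  have hb2 : p' * CFC.abs T = CFC.abs T := by
    have h4 : CFC.abs T * (1 - p') = 0 := ContinuousLinearMap.ext fun ξ => by
      rw [mul_apply_eq_comp, zero_apply, ← norm_eq_zero, norm_abs_apply,
        ← mul_apply_eq_comp, hT, mul_assoc, mul_sub, mul_one, hp'.isIdempotentElem.eq]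
      simp
    have h5 := congrArg star h4
    rw [star_mul, hb1.star_eq, hp'.one_sub.isSelfAdjoint.star_eq, star_zero, sub_mul, one_mul,
      sub_eq_zero] at h5
    exact h5.symm
  have hb3 : q' * T = T := by rw [hT, ← mul_assoc, ← mul_assoc, hq'.isIdempotentElem.eq]
  have hb4 : p * p' = p' := by rw [hp'd, mul_sub, hp.isIdempotentElem.eq, ← mul_assoc, h2']
  have hb5 : q * q' = q' := by rw [hq'd, mul_sub, hq.isIdempotentElem.eq, ← mul_assoc, h1]
  have hk1 : ∀ w ∈ W, p' w.1 = 0 := fun w hw => by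
    change p w.1 - star v (v w.1) = 0
    rw [(hW w hw).2.1, (ha w hw).1, (ha w hw).2, sub_self]
  have hk2 : ∀ w ∈ W, q' w.2 = 0 := fun w hw => by
    change q w.2 - v (star v w.2) = 0
    rw [(hW w hw).2.2.1, (ha w hw).2, (ha w hw).1, sub_self]
  have hpy : ∀ {r Z : BOp H} {x : H} (ξ : H), IsStarProjection r → r * Z = Z → r x = 0 →
      ‖x + Z ξ‖ * ‖x + Z ξ‖ = ‖x‖ * ‖x‖ + ‖Z ξ‖ * ‖Z ξ‖ := fun {r Z x} ξ hr hZ hx => by
    refine norm_add_sq_eq_norm_sq_add_norm_sq_of_inner_eq_zero (𝕜 := ℂ) _ _ ?_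
    rw [← hZ, mul_apply_eq_comp, ← ContinuousLinearMap.adjoint_inner_left,
      ← ContinuousLinearMap.star_eq_adjoint, hr.isSelfAdjoint.star_eq, hx, inner_zero_left]
  have hTc : ∀ g : BOp H, g * T = T * g → star g * T = T * star g →
      g * CFC.abs T = CFC.abs T * g := fun g e1 e2 => by
    have e3 : star T * g = g * star T := by simpa only [star_mul, star_star] using congrArg star e2
    exact (Commute.cfcₙ_nnreal (Commute.mul_left e3 e1.symm) _).symm
  let V : Submodule ℂ (H × H) := LinearMap.range ((CFC.abs T).prod T : H →ₗ[ℂ] H × H)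
  have hW' : W ⊔ V ∈ 𝒲 := fun w hw => by
    obtain ⟨x, hx, _, ⟨ξ, rfl⟩, rfl⟩ := Submodule.mem_sup.1 hw
    obtain ⟨e1, e2, e3, e4⟩ := hW x hx
    have key : ∀ g : BOp H, g * T = T * g → star g * T = T * star g → (g x.1, g x.2) ∈ W →
        (g (x.1 + CFC.abs T ξ), g (x.2 + T ξ)) ∈ W ⊔ V := fun g f1 f2 f3 => by
      refine Submodule.mem_sup.2 ⟨_, f3, _, ⟨g ξ, rfl⟩, ?_⟩
      rw [map_add, map_add, ← mul_apply_eq_comp g, ← mul_apply_eq_comp g T, hTc g f1 f2, f1]
      rfl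
    refine ⟨?_, ?_, ?_, fun g hg => ?_⟩
    · change ‖x.1 + CFC.abs T ξ‖ = ‖x.2 + T ξ‖
      rw [← mul_self_inj (norm_nonneg _) (norm_nonneg _), hpy ξ hp' hb2 (hk1 x hx),
        hpy ξ hq' hb3 (hk2 x hx), e1, norm_abs_apply]
    · change p (x.1 + CFC.abs T ξ) = x.1 + CFC.abs T ξ
      rw [map_add, e2, ← mul_apply_eq_comp, ← hb2, ← mul_assoc, hb4]
    · change q (x.2 + T ξ) = x.2 + T ξ
      rw [map_add, e3, ← mul_apply_eq_comp, ← hb3, ← mul_assoc, hb5]
    · obtain ⟨f1, f2⟩ := (StarSubalgebra.mem_centralizer_iff ℂ).1 hTN g hg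
      exact ⟨key g f1 f2 (e4 g hg).1, key _ f2 (by rwa [star_star]) (e4 g hg).2⟩
  refine hy (ContinuousLinearMap.ext fun ξ => ?_)
  have h6 := hk2 _ (hmax hW' le_sup_left (Submodule.mem_sup_right (⟨ξ, rfl⟩ : _ ∈ V)))
  exact (congrArg (fun Z : BOp H => Z ξ) hb3).symm.trans h6

end vN


section tr

variable {H : Type} [NormedAddCommGroup H] [InnerProductSpace ℂ H] [CompleteSpace H]

/-- A factor with a faithful trace on the corner of a projection. -/
structure Tr (S : Set (BOp H)) (P : BOp H) (τ : BOp H →+ ℝ) : Prop where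
  fac : IsFac S
  proj : IsStarProjection P
  mem : P ∈ StarSubalgebra.centralizer ℂ S
  comm : ∀ v ∈ StarSubalgebra.centralizer ℂ S, P * v = v → v * P = v →
    τ (star v * v) = τ (v * star v)
  nonneg : ∀ v, 0 ≤ τ (star v * v)
  faith : ∀ v ∈ StarSubalgebra.centralizer ℂ S, v * P = v → τ (star v * v) = 0 → v = 0

theorem sa_left {A : Type} [Ring A] [StarRing A] {P p r : A} (hP : IsSelfAdjoint P)
    (hp : IsSelfAdjoint p) (hr : IsSelfAdjoint r) (h : p * P = r) : P * p = r := by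
  simpa only [star_mul, hP.star_eq, hp.star_eq, hr.star_eq] using congrArg star h

theorem proj_sq {A : Type} [Ring A] [StarRing A] {p : A} (hp : IsStarProjection p) :
    star p * p = p := by rw [hp.isSelfAdjoint.star_eq, hp.isIdempotentElem.eq]

variable {S : Set (BOp H)} {P : BOp H} {τ : BOp H →+ ℝ}

theorem Tr.pos (h : Tr S P τ) {p : BOp H} (hp : IsStarProjection p) : 0 ≤ τ p :=
  proj_sq hp ▸ h.nonneg p

theorem Tr.zero (h : Tr S P τ) {p : BOp H} (hN : p ∈ StarSubalgebra.centralizer ℂ S)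
    (hp : IsStarProjection p) (hP : p * P = p) (h0 : τ p ≤ 0) : p = 0 :=
  h.faith p hN hP (by rw [proj_sq hp]; exact le_antisymm h0 (h.pos hp))

theorem Tr.cmp (h : Tr S P τ) {p q : BOp H} (hpN : p ∈ StarSubalgebra.centralizer ℂ S)
    (hqN : q ∈ StarSubalgebra.centralizer ℂ S) (hp : IsStarProjection p)
    (hq : IsStarProjection q) (hpP : p * P = p) (hqP : q * P = q) :
    ∃ v ∈ StarSubalgebra.centralizer ℂ S, q * v = v ∧ v * p = v ∧ P * v = v ∧ v * P = v ∧
      IsStarProjection (p - star v * v) ∧ IsStarProjection (q - v * star v) ∧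
      (p - star v * v) * P = p - star v * v ∧ (q - v * star v) * P = q - v * star v ∧
      τ (star v * v) = τ (v * star v) ∧ (star v * v = p ∨ v * star v = q) := by
  obtain ⟨v, hv, h1, h2, h3, h4⟩ := compare h.fac hpN hqN hp hq
  have h5 : P * v = v := by
    rw [← h1, ← mul_assoc, sa_left h.proj.isSelfAdjoint hq.isSelfAdjoint hq.isSelfAdjoint hqP]
  have h6 : v * P = v := by rw [← h2, mul_assoc, hpP]
  have h7 : star v * P = star v := by
    simpa only [star_mul, h.proj.isSelfAdjoint.star_eq] using congrArg star h5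
  have h8 : star v * q = star v := by
    simpa only [star_mul, hq.isSelfAdjoint.star_eq] using congrArg star h1
  refine ⟨v, hv, h1, h2, h5, h6, proj_sub hp h2 h3, ?_, by rw [sub_mul, hpP, mul_assoc, h6],
    by rw [sub_mul, hqP, mul_assoc, h7], h.comm v hv h5 h6, h4⟩
  simpa only [star_star] using proj_sub hq h8 (by simpa only [star_star, mul_assoc, star_mul] using congrArg star h3)

theorem Tr.equiv (h : Tr S P τ) {p q : BOp H} (hpN : p ∈ StarSubalgebra.centralizer ℂ S)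
    (hqN : q ∈ StarSubalgebra.centralizer ℂ S) (hp : IsStarProjection p)
    (hq : IsStarProjection q) (hpP : p * P = p) (hqP : q * P = q) (he : τ p = τ q) :
    ∃ v ∈ StarSubalgebra.centralizer ℂ S, q * v = v ∧ v * p = v ∧ star v * v = p ∧
      v * star v = q := by
  obtain ⟨v, hv, h1, h2, -, -, h3, h4, h5, h6, h7, h8⟩ := h.cmp hpN hqN hp hq hpP hqP
  refine ⟨v, hv, h1, h2, h8.elim (fun h9 => ⟨h9, ?_⟩) fun h9 => ⟨?_, h9⟩⟩
  · refine (sub_eq_zero.1 (h.zero (sub_mem hqN (mul_mem hv (star_mem hv))) h4 h6 ?_)).symm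
    rw [map_sub, ← h7, h9, he, sub_self]
  · refine (sub_eq_zero.1 (h.zero (sub_mem hpN (mul_mem (star_mem hv) hv)) h3 h5 ?_)).symm
    rw [map_sub, h7, h9, he, sub_self]

theorem Tr.cover (h : Tr S P τ) {q : BOp H} (hqN : q ∈ StarSubalgebra.centralizer ℂ S)
    (hq : IsStarProjection q) (hqP : q * P = q) (h0 : q ≠ 0) (J : AddSubmonoid (BOp H))
    (hJ : ∀ v ∈ StarSubalgebra.centralizer ℂ S, q * v = v → P * v = v → v * P = v →
      star v * v ∈ J) : P ∈ J := by
  have h1 : 0 < τ q := lt_of_not_ge fun h1 => h0 (h.zero hqN hq hqP h1)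
  have key : ∀ k : ℕ, ∀ r ∈ StarSubalgebra.centralizer ℂ S, IsStarProjection r → r * P = r →
      τ r ≤ k * τ q → r ∈ J := by
    intro k
    induction k with
    | zero => exact fun r hN hr hP hk => h.zero hN hr hP (by simpa only [CharP.cast_eq_zero, zero_mul] using hk) ▸ J.zero_mem
    | succ k ih =>
      intro r hN hr hP hk
      obtain ⟨v, hv, h1, -, h2, h3, h4, -, h5, -, h6, h7⟩ := h.cmp hN hqN hr hq hP hqP
      have h8 := hJ v hv h1 h2 h3
      rcases h7 with h7 | h7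
      · exact h7 ▸ h8
      · have := J.add_mem (ih _ (sub_mem hN (mul_mem (star_mem hv) hv)) h4 h5 (by
          rw [map_sub, h6, h7]; push_cast at hk; linarith only [hk])) h8
        rwa [sub_add_cancel] at this
  obtain ⟨k, hk⟩ := Archimedean.arch (τ P) h1
  exact key k P h.mem h.proj h.proj.isIdempotentElem.eq (by simpa only [nsmul_eq_mul] using hk)

theorem norm_le_add {A : Type} [CStarAlgebra A] [PartialOrder A] [StarOrderedRing A] {b : A}
    (hb : 0 ≤ b) (Z : A) : ‖Z‖ ≤ ‖Z + b * Z‖ := by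
  rw [mul_self_le_mul_self_iff (norm_nonneg _) (norm_nonneg _),
    ← CStarRing.norm_star_mul_self, ← CStarRing.norm_star_mul_self]
  refine CStarAlgebra.norm_le_norm_of_nonneg_of_le (star_mul_self_nonneg Z) (sub_nonneg.1 ?_)
  have : star (Z + b * Z) * (Z + b * Z) - star Z * Z =
      star Z * b * Z + star Z * b * Z + star (b * Z) * (b * Z) := by
    rw [star_add, star_mul, hb.isSelfAdjoint.star_eq]; noncomm_ring
  rw [this]
  exact add_nonneg (add_nonneg (star_left_conjugate_nonneg hb Z) (star_left_conjugate_nonneg hb Z))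
    (star_mul_self_nonneg _)

theorem part_mem {a : BOp H} (ha : a ∈ StarSubalgebra.centralizer ℂ S) :
    a⁺ ∈ StarSubalgebra.centralizer ℂ S := by
  rw [StarSubalgebra.mem_centralizer_iff] at ha ⊢
  exact fun g hg => ⟨(Commute.cfcₙ_real (ha g hg).1.symm _).symm,
    (Commute.cfcₙ_real (ha g hg).2.symm _).symm⟩

theorem part_facts (hP : IsStarProjection P) {a : BOp H} (ha : IsSelfAdjoint a) (h : P * a = a) :
    rp a⁺ * P = rp a⁺ ∧ rp a⁺ * a⁻ = 0 ∧
      ∀ Y Z, P * Y = Y → Z * P = Z → Z * rp a⁺ = 0 → ‖Z * Y‖ ≤ ‖Z‖ * ‖Y - a * Y‖ := by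
  have h1 : IsSelfAdjoint a⁺ := (CFC.posPart_nonneg a).isSelfAdjoint
  have h2 : IsSelfAdjoint a⁻ := (CFC.negPart_nonneg a).isSelfAdjoint
  have hr := rp_proj a⁺
  have h3 : Commute a⁺ P :=
    Commute.cfcₙ_real ((sa_left ha hP.isSelfAdjoint ha h).trans h.symm) _
  have h4 : (1 - P) * a⁺ = (1 - P) * a⁻ := by
    rw [← sub_eq_zero, ← mul_sub, CFC.posPart_sub_negPart a ha, sub_mul, h, one_mul, sub_self]
  have h5 : (1 - P) * a⁺ = 0 := by
    rw [← CStarRing.star_mul_self_eq_zero_iff]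
    nth_rewrite 2 [h4]
    rw [star_mul, h1.star_eq, hP.one_sub.isSelfAdjoint.star_eq, mul_assoc, ← mul_assoc (1 - P),
      hP.one_sub.isIdempotentElem.eq, ← mul_assoc, ((Commute.one_right _).sub_right h3).eq,
      mul_assoc, CFC.posPart_mul_negPart, mul_zero]
  have h6 : rp a⁺ * P = rp a⁺ := by
    refine sa_left hr.isSelfAdjoint hP.isSelfAdjoint hr.isSelfAdjoint ?_
    have := mul_rp h5
    rw [sub_mul, one_mul, sub_eq_zero] at this
    exact this.symm
  have h7 : rp a⁺ * a⁻ = 0 :=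
    sa_left hr.isSelfAdjoint h2 (.zero _) (mul_rp (CFC.negPart_mul_posPart a))
  refine ⟨h6, h7, fun Y Z hY hZ hZ0 => ?_⟩
  have h8 : P * a⁻ = a⁻ := by
    rw [h5, eq_comm, sub_mul, one_mul, sub_eq_zero] at h4
    exact h4.symm
  have h9 : (P - rp a⁺) * a = -a⁻ := by
    rw [sub_mul, h]
    nth_rewrite 3 [← CFC.posPart_sub_negPart a ha]
    rw [mul_sub, rp_mul, h7, sub_zero, sub_eq_iff_eq_add, neg_add_eq_sub,
      CFC.posPart_sub_negPart a ha]
  have h10 : a⁻ * (P - rp a⁺) = a⁻ := by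
    rw [mul_sub, mul_rp (CFC.negPart_mul_posPart a), sub_zero,
      sa_left h2 hP.isSelfAdjoint h2 h8]
  have h11 : (P - rp a⁺) * Y + a⁻ * ((P - rp a⁺) * Y) = (P - rp a⁺) * (Y - a * Y) := by
    rw [← mul_assoc, h10, mul_sub, ← mul_assoc, h9, neg_mul, sub_neg_eq_add]
  have h12 : IsStarProjection (P - rp a⁺) := by
    simpa only [proj_sq hr] using proj_sub hP h6 (by
      rw [hr.isSelfAdjoint.star_eq, hr.isIdempotentElem.eq, hr.isIdempotentElem.eq])
  calc ‖Z * Y‖ = ‖Z * ((P - rp a⁺) * Y)‖ := by rw [← mul_assoc, mul_sub, hZ, hZ0, sub_zero]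
    _ ≤ ‖Z‖ * ‖(P - rp a⁺) * Y‖ := norm_mul_le _ _
    _ ≤ ‖Z‖ * ‖Y - a * Y‖ := by
      gcongr
      refine (norm_le_add (CFC.negPart_nonneg a) _).trans ?_
      rw [h11]
      exact (norm_mul_le _ _).trans (mul_le_of_le_one_left (norm_nonneg _) h12.norm_le)

theorem Tr.sym (h : Tr S P τ) {p q : BOp H} (hpN : p ∈ StarSubalgebra.centralizer ℂ S)
    (hqN : q ∈ StarSubalgebra.centralizer ℂ S) (hp : IsStarProjection p)
    (hq : IsStarProjection q) (hpP : p * P = p) (hqP : q * P = q) (he : τ p = τ q) :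
    ∃ s ∈ StarSubalgebra.centralizer ℂ S, IsSelfAdjoint s ∧ s * s = P ∧ s * P = s ∧
      s * p = q * s ∧ ∀ Y, P * Y = Y → ‖Y - s * Y‖ ≤ 2 * ‖Y - (p + q - P) * Y‖ ∧
        ‖Y + s * Y‖ ≤ 2 * ‖Y + (p + q - P) * Y‖ := by
  have hP := h.proj
  have Ps := hP.isSelfAdjoint
  have ps := hp.isSelfAdjoint
  have qs := hq.isSelfAdjoint
  have PP := hP.isIdempotentElem.eq
  have pp := hp.isIdempotentElem.eq
  have qq := hq.isIdempotentElem.eq
  have hPp := sa_left Ps ps ps hpP
  have hPq := sa_left Ps qs qs hqP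
  obtain ⟨a, had⟩ : ∃ a, a = p + q - P := ⟨_, rfl⟩
  rw [← had]
  have ha : IsSelfAdjoint a := had ▸ (ps.add qs).sub Ps
  have haN : a ∈ StarSubalgebra.centralizer ℂ S := had ▸ sub_mem (add_mem hpN hqN) h.mem
  have hPa : P * a = a := by rw [had, mul_sub, mul_add, hPp, hPq, PP]
  have hap : a * p = q * a := by
    rw [had, sub_mul, add_mul, mul_sub, mul_add, pp, qq, hPp, hqP]; abel
  have haq : a * q = p * a := by
    rw [had, sub_mul, add_mul, mul_sub, mul_add, pp, qq, hPq, hpP]; abel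
  obtain ⟨e1, e2, e3⟩ := part_facts hP ha hPa
  obtain ⟨f1, f2, f3⟩ := part_facts hP ha.neg (by rw [mul_neg, hPa])
  rw [CFC.posPart_neg] at f1 f2 f3
  rw [CFC.negPart_neg] at f2
  have a1 : IsSelfAdjoint a⁺ := (CFC.posPart_nonneg a).isSelfAdjoint
  have a2 : IsSelfAdjoint a⁻ := (CFC.negPart_nonneg a).isSelfAdjoint
  have hr := rp_proj a⁺
  have hr' := rp_proj a⁻
  have rN := rp_mem (part_mem haN)
  have rN' := rp_mem (part_mem (neg_mem haN))
  rw [CFC.posPart_neg] at rN'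
  have rr : rp a⁺ * rp a⁻ = 0 := mul_rp e2
  have rr' : rp a⁻ * rp a⁺ = 0 := mul_rp f2
  have r1 := rp_mul a⁺
  have r2 := rp_mul a⁻
  have hkill : ∀ Z : BOp H, Z * (a⁺ + a⁻) = 0 → Z * (rp a⁺ + rp a⁻) = 0 := fun Z hZ => by
    have g1 := congrArg (· * rp a⁺) hZ
    have g2 := congrArg (· * rp a⁻) hZ
    simp only [mul_assoc, add_mul, sa_left a1 hr.isSelfAdjoint a1 r1, zero_mul, add_zero, zero_add,
      sa_left a2 hr'.isSelfAdjoint a2 r2, sa_left a2 hr.isSelfAdjoint (.zero _) e2,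
      sa_left a1 hr'.isSelfAdjoint (.zero _) f2] at g1 g2
    rw [mul_add, mul_rp g1, mul_rp g2, add_zero]
  have hb : ∀ x, Commute (a * a) x → Commute (a⁺ + a⁻) x := fun x hx => by
    rw [CFC.posPart_add_negPart a ha]
    exact Commute.cfcₙ_nnreal (by rwa [ha.star_eq]) _
  have hbp := hb p (by rw [Commute, SemiconjBy, mul_assoc, hap, ← mul_assoc, haq, mul_assoc])
  have hbq := hb q (by rw [Commute, SemiconjBy, mul_assoc, haq, ← mul_assoc, hap, mul_assoc])
  have ha0 := CFC.posPart_sub_negPart a ha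
  generalize rp a⁺ = r at *
  generalize rp a⁻ = r' at *
  generalize a⁺ = b at *
  generalize a⁻ = b' at *
  have r3 := hr.isIdempotentElem.eq
  have r4 := hr'.isIdempotentElem.eq
  have es : IsSelfAdjoint (r + r') := hr.isSelfAdjoint.add hr'.isSelfAdjoint
  have σs : IsSelfAdjoint (r - r') := hr.isSelfAdjoint.sub hr'.isSelfAdjoint
  have σb : (r - r') * (b + b') = a := by simp only [sub_mul, mul_add, r1, r2, e2, f2, ← ha0]; abel
  have eb : (r + r') * (b + b') = b + b' := by simp [add_mul, mul_add, r1, r2, e2, f2]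
  have σσ : (r - r') * (r - r') = r + r' := by simp [sub_mul, mul_sub, r3, r4, rr, rr']
  have σe : (r - r') * (r + r') = r - r' := by
    simp only [sub_mul, mul_add, r3, r4, rr, rr']; abel
  have ee : (r + r') * (r + r') = r + r' := by simp [add_mul, mul_add, r3, r4, rr, rr']
  have σP : (r - r') * P = r - r' := by rw [sub_mul, e1, f1]
  have eP : (r + r') * P = r + r' := by rw [add_mul, e1, f1]
  have rn : r * (P - (r + r')) = 0 := by
    rw [mul_sub, mul_add, e1, r3, rr, add_zero, sub_self]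
  have rn' : r' * (P - (r + r')) = 0 := by
    rw [mul_sub, mul_add, f1, r4, rr', zero_add, sub_self]
  have σr : (r - r') * r = r := by rw [sub_mul, r3, rr', sub_zero]
  have σr' : (r - r') * r' = -r' := by rw [sub_mul, r4, rr, zero_sub]
  have σN := sub_mem rN rN'
  have eN := add_mem rN rN'
  have hce : ∀ x, IsSelfAdjoint x → Commute (b + b') x → x * (r + r') = (r + r') * x :=
    fun x hx hc => by
      have := hkill ((1 - (r + r')) * x) (by
        rw [mul_assoc, ← hc.eq, ← mul_assoc, sub_mul, eb, one_mul, sub_self, zero_mul])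
      exact comm_of es this (by rwa [hx.star_eq])
  have pe := hce p ps hbp
  have qe := hce q qs hbq
  have σp := hkill ((r - r') * p - q * (r - r')) (by
    rw [sub_mul, mul_assoc, ← hbp.eq, ← mul_assoc, σb, mul_assoc, σb, hap, sub_self])
  rw [sub_mul, mul_assoc, pe, ← mul_assoc, σe, mul_assoc, σe, sub_eq_zero] at σp
  generalize r - r' = σ at *
  generalize r + r' = e at *
  have Pe := sa_left Ps es es eP
  have Pσ := sa_left Ps σs σs σP
  have eσ := sa_left es σs σs σe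
  have hn : IsStarProjection (P - e) :=
    ⟨by rw [IsIdempotentElem, sub_mul, mul_sub, mul_sub, PP, Pe, eP, ee]; abel, Ps.sub es⟩
  have np : Commute (P - e) p := by rw [Commute, SemiconjBy, sub_mul, mul_sub, hPp, hpP, pe]
  have nq : Commute (P - e) q := by rw [Commute, SemiconjBy, sub_mul, mul_sub, hPq, hqP, qe]
  have na : (P - e) * p + (P - e) * q = P - e := by
    have : (P - e) * a = 0 := by rw [sub_mul, hPa, ← σb, ← mul_assoc, eσ, sub_self]
    rw [had, mul_sub, mul_add, sub_eq_zero] at this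
    rw [this, sub_mul, PP, eP]
  have σn : σ * (P - e) = 0 := by rw [mul_sub, σP, σe, sub_self]
  have ht : τ (e * p) = τ (e * q) := by
    have := h.comm (σ * p) (mul_mem σN hpN) (by rw [← mul_assoc, Pσ]) (by rw [mul_assoc, hpP])
    rwa [star_mul, ps.star_eq, σs.star_eq, mul_assoc, ← mul_assoc σ, σσ, ← mul_assoc, pe,
      mul_assoc, pp, mul_assoc, ← mul_assoc p, pp, ← mul_assoc, σp, mul_assoc, σσ, qe] at this
  have nN := sub_mem h.mem eN
  obtain ⟨v, vN, v1, v2, v3, v4⟩ := h.equiv (mul_mem nN hpN) (mul_mem nN hqN) (hn.mul hp np)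
    (hn.mul hq nq) (by rw [mul_assoc, hpP]) (by rw [mul_assoc, hqP])
    (by rw [sub_mul, sub_mul, hPp, hPq, map_sub, map_sub, ht, he])
  have Pn : P * (P - e) = P - e := by rw [mul_sub, PP, Pe]
  have nP : P = (P - e) + e := by abel
  generalize P - e = n at *
  have nn := hn.isIdempotentElem.eq
  have ns := hn.isSelfAdjoint
  have nv : n * v = v := by rw [← v1, ← mul_assoc, ← mul_assoc, nn]
  have vn : v * n = v := by rw [← v2, np.eq, mul_assoc, mul_assoc, nn]
  have vp : v * p = v := by rw [← v2, mul_assoc, mul_assoc, pp]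
  have qv : q * v = v := by rw [← v1, nq.eq, ← mul_assoc, ← mul_assoc, qq]
  have pq : n * p * q = 0 := by
    have := congrArg (p * ·) na
    simp only [mul_add, ← mul_assoc, ← np.eq] at this
    rwa [mul_assoc n p p, pp, add_eq_left] at this
  have pv : p * v = 0 := by rw [← v1, ← mul_assoc, ← mul_assoc, ← np.eq, pq, zero_mul]
  have vq : v * q = 0 := by rw [← v2, mul_assoc, pq, mul_zero]
  have st : ∀ {x y z : BOp H}, IsSelfAdjoint x → x * y = z → star y * x = star z :=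
    fun hx hh => by rw [← hh, star_mul, hx.star_eq]
  have st' : ∀ {x y z : BOp H}, IsSelfAdjoint x → y * x = z → x * star y = star z :=
    fun hx hh => by rw [← hh, star_mul, hx.star_eq]
  have kill : ∀ x : BOp H, IsSelfAdjoint x → x * n = 0 → v * x = 0 ∧ star v * x = 0 ∧ x * v = 0 ∧
      x * star v = 0 := fun x hx h0 => by
    have h1 := sa_left ns hx (.zero _) h0
    exact ⟨by rw [← vn, mul_assoc, h1, mul_zero], by rw [← st ns nv, mul_assoc, h1, mul_zero],
      by rw [← nv, ← mul_assoc, h0, zero_mul], by rw [← st' ns vn, ← mul_assoc, h0, zero_mul]⟩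
  obtain ⟨k1, k2, k3, k4⟩ := kill σ σs σn
  have vv : v * v = 0 := by
    nth_rewrite 2 [← qv]
    rw [← mul_assoc, vq, zero_mul]
  have vv' : star v * star v = 0 := by rw [← star_mul, vv, star_zero]
  have ss : IsSelfAdjoint (σ + (v + star v)) := σs.add (.add_star_self v)
  have s2 : (σ + (v + star v)) * (σ + (v + star v)) = P := by
    simp only [mul_add, add_mul, σσ, k1, k2, k3, k4, vv, vv', v3, v4, add_zero, zero_add]
    rw [na, nP, add_comm]
  have nP' : n * P = n := sa_left ns Ps ns Pn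
  have sP : (σ + (v + star v)) * P = σ + (v + star v) := by
    rw [add_mul, add_mul, σP, ← st ns nv, ← vn, mul_assoc, mul_assoc, nP']
  have sn : ‖σ + (v + star v)‖ ≤ 1 := by
    rw [mul_self_le_mul_self_iff (norm_nonneg _) zero_le_one, ← CStarRing.norm_star_mul_self,
      ss.star_eq, s2, one_mul]
    exact hP.norm_le
  refine ⟨σ + (v + star v), add_mem σN (add_mem vN (star_mem vN)), ss, s2, sP, ?_,
    fun Y hY => ⟨?_, ?_⟩⟩
  · rw [add_mul, add_mul, mul_add, mul_add, σp, vp, qv, st ps pv, st' qs vq]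
  · have := e3 Y (P - (σ + (v + star v))) hY (by rw [sub_mul, PP, sP]) (by
      rw [sub_mul, add_mul, add_mul, σr, (kill r hr.isSelfAdjoint rn).1,
        (kill r hr.isSelfAdjoint rn).2.1, sa_left Ps hr.isSelfAdjoint hr.isSelfAdjoint e1]; simp)
    rw [sub_mul, hY] at this
    refine this.trans (mul_le_mul_of_nonneg_right ?_ (norm_nonneg _))
    linarith only [norm_sub_le P (σ + (v + star v)), hP.norm_le, sn]
  · have := f3 Y (P + (σ + (v + star v))) hY (by rw [add_mul, PP, sP]) (by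
      rw [add_mul, add_mul, add_mul, σr', (kill r' hr'.isSelfAdjoint rn').1,
        (kill r' hr'.isSelfAdjoint rn').2.1, sa_left Ps hr'.isSelfAdjoint hr'.isSelfAdjoint f1]
      simp)
    rw [add_mul, hY, neg_mul, sub_neg_eq_add] at this
    refine this.trans (mul_le_mul_of_nonneg_right ?_ (norm_nonneg _))
    linarith only [norm_add_le P (σ + (v + star v)), hP.norm_le, sn]

theorem Tr.path (h : Tr S P τ) {p q : BOp H} (hpN : p ∈ StarSubalgebra.centralizer ℂ S)
    (hqN : q ∈ StarSubalgebra.centralizer ℂ S) (hp : IsStarProjection p)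
    (hq : IsStarProjection q) (hpP : p * P = p) (hqP : q * P = q) (he : τ p = τ q)
    {Y Z : BOp H} {η : ℝ} (hY : P * Y = Y) (hZ : P * Z = Z) (hpY : p * Y = Y) (hpZ : p * Z = 0)
    (hqY : ‖Y - q * Y‖ ≤ η) (hqZ : ‖q * Z‖ ≤ η) :
    ∃ f : ℝ → BOp H, Continuous f ∧ f 0 = p + p - P ∧ f 1 = q + q - P ∧
      ∀ u, f u ∈ StarSubalgebra.centralizer ℂ S ∧ IsSelfAdjoint (f u) ∧ f u * f u = P ∧
        f u * P = f u ∧ ‖f u * (Y - Z) - (Y + Z)‖ ≤ 8 * η := by
  obtain ⟨s, sN, ss, s2, sP, sp, hs⟩ := h.sym hpN hqN hp hq hpP hqP he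
  have Ps := h.proj.isSelfAdjoint
  have PP := h.proj.isIdempotentElem.eq
  have Ps' := sa_left Ps ss ss sP
  have hPp := sa_left Ps hp.isSelfAdjoint hp.isSelfAdjoint hpP
  have hPq := sa_left Ps hq.isSelfAdjoint hq.isSelfAdjoint hqP
  have h1 := (hs Y hY).1
  have h2 := (hs Z hZ).2
  rw [sub_mul, add_mul, hpY, hY, add_sub_cancel_left] at h1
  rw [sub_mul, add_mul, hpZ, hZ, zero_add, add_sub_cancel] at h2
  obtain ⟨j, hj⟩ : ∃ j, j = p + p - P := ⟨_, rfl⟩
  have js : IsSelfAdjoint j := hj ▸ (hp.isSelfAdjoint.add hp.isSelfAdjoint).sub Ps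
  have jP : j * P = j := by rw [hj, sub_mul, add_mul, hpP, PP]
  have Pj := sa_left Ps js js jP
  have jj : j * j = P := by
    simp only [hj, sub_mul, add_mul, mul_sub, mul_add, hp.isIdempotentElem.eq, hpP, hPp, PP]; abel
  have jY : j * Y = Y := by rw [hj, sub_mul, add_mul, hpY, hY, add_sub_cancel_right]
  have jZ : j * Z = -Z := by rw [hj, sub_mul, add_mul, hpZ, hZ]; simp
  have nrm : ∀ x : BOp H, star x * x = P → ‖x‖ ≤ 1 := fun x hx => by
    rw [mul_self_le_mul_self_iff (norm_nonneg _) zero_le_one, ← CStarRing.norm_star_mul_self,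
      hx, one_mul]
    exact h.proj.norm_le
  let W : ℂ → BOp H := fun c => ((1 + c) / 2) • P + ((1 - c) / 2) • s
  have Wst : ∀ c, star (W c) = W (starRingEnd ℂ c) := fun c => by
    simp only [W, star_add, star_smul, star_div₀, star_one, RCLike.star_def, star_ofNat, Ps.star_eq, star_sub, ss.star_eq]
  have WW : ∀ c d, c * d = 1 → W c * W d = P := fun c d hcd => by
    simp only [W, add_mul, mul_add, smul_mul_smul_comm, PP, Ps', sP, s2]
    have e1 : (1 + c) / 2 * ((1 + d) / 2) + (1 - c) / 2 * ((1 - d) / 2) = 1 := by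
      linear_combination hcd / 2
    have e2 : (1 - c) / 2 * ((1 + d) / 2) + (1 + c) / 2 * ((1 - d) / 2) = 0 := by
      linear_combination -hcd / 2
    calc _ = ((1 + c) / 2 * ((1 + d) / 2) + (1 - c) / 2 * ((1 - d) / 2)) • P +
        ((1 - c) / 2 * ((1 + d) / 2) + (1 + c) / 2 * ((1 - d) / 2)) • s := by module
      _ = P := by rw [e1, e2]; simp
  have WP : ∀ c, W c * P = W c := fun c => by simp only [W, add_mul, smul_mul_assoc, PP, sP]
  have hc : ∀ c : ℂ, ‖c‖ = 1 → ‖(1 - c) / 2‖ ≤ 1 := fun c hc => by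
    have := norm_sub_le 1 c
    rw [norm_div, div_le_one (by simp)]
    simp only [norm_one, hc, Complex.norm_ofNat] at this ⊢
    linarith only [this]
  have WY : ∀ c, ‖c‖ = 1 → ‖W c * Y - Y‖ ≤ 2 * η := fun c h0 => by
    have : W c * Y - Y = -(((1 - c) / 2) • (Y - s * Y)) := by
      simp only [W, add_mul, smul_mul_assoc, hY]; module
    rw [this, norm_neg, norm_smul]
    nlinarith only [hc c h0, norm_nonneg (Y - s * Y), hqY, h1]
  have WZ : ∀ c, ‖c‖ = 1 → ‖W c * Z - c • Z‖ ≤ 2 * η := fun c h0 => by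
    have : W c * Z - c • Z = ((1 - c) / 2) • (Z + s * Z) := by
      simp only [W, add_mul, smul_mul_assoc, hZ]; module
    rw [this, norm_smul]
    nlinarith only [hc c h0, norm_nonneg (Z + s * Z), hqZ, h2]
  let c : ℝ → ℂ := fun u => Circle.exp (Real.pi * u)
  have c1 : ∀ u, c u * starRingEnd ℂ (c u) = 1 := fun u => by
    rw [Complex.mul_conj, Circle.normSq_coe]; simp
  have c2 : ∀ u, ‖c u‖ = 1 := fun u => Circle.norm_coe _
  refine ⟨fun u => W (c u) * j * W (starRingEnd ℂ (c u)), by fun_prop, ?_, ?_,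
    fun u => ⟨?_, ?_, ?_, ?_, ?_⟩⟩
  · simp only [W, c, Circle.coe_exp, Complex.ofReal_mul, Complex.ofReal_zero, mul_zero, zero_mul, Complex.exp_zero, add_self_div_two, one_smul, sub_self, zero_div, zero_smul, add_zero, Pj, map_one, jP, hj.symm]
  · have : s * j = (q + q - P) * s := by
      rw [hj, mul_sub, mul_add, sub_mul, add_mul, sp, sP, Ps']
    simp only [W, c, mul_one, Circle.coe_exp, Complex.exp_pi_mul_I, map_neg, map_one]
    norm_num only [zero_smul, one_smul, zero_add]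
    rw [this, mul_assoc, s2, sub_mul, add_mul, hqP, PP]
  · have WN : ∀ c, W c ∈ StarSubalgebra.centralizer ℂ S := fun c =>
      add_mem (SMulMemClass.smul_mem _ h.mem) (SMulMemClass.smul_mem _ sN)
    exact mul_mem (mul_mem (WN _) (hj ▸ sub_mem (add_mem hpN hpN) h.mem)) (WN _)
  · simp only [IsSelfAdjoint, star_mul, Wst, js.star_eq, Complex.conj_conj, mul_assoc]
  · calc _ = W (c u) * (j * (W (starRingEnd ℂ (c u)) * W (c u)) * j) * W (starRingEnd ℂ (c u)) := by
          simp only [mul_assoc]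
      _ = P := by rw [WW _ _ ((mul_comm _ _).trans (c1 u)), jP, jj, WP, WW _ _ (c1 u)]
  · rw [mul_assoc, WP]
  · have n1 : ‖W (c u) * j‖ ≤ 1 := nrm _ (by
      rw [star_mul, Wst, js.star_eq, mul_assoc, ← mul_assoc (W _),
        WW _ _ ((mul_comm _ _).trans (c1 u)), Pj, jj])
    have c3 : ‖starRingEnd ℂ (c u)‖ = 1 := by rw [Complex.norm_conj, c2]
    have e : W (c u) * j * W (starRingEnd ℂ (c u)) * (Y - Z) - (Y + Z) =
        (W (c u) * j * (W (starRingEnd ℂ (c u)) * Y - Y) + (W (c u) * Y - Y)) -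
        (W (c u) * j * (W (starRingEnd ℂ (c u)) * Z - starRingEnd ℂ (c u) • Z) -
          starRingEnd ℂ (c u) • (W (c u) * Z - c u • Z)) := by
      simp only [mul_sub, mul_smul_comm, mul_assoc, jY, jZ, smul_sub, smul_smul, mul_neg,
        (mul_comm _ _).trans (c1 u), one_smul, smul_neg]
      abel
    have b1 : ∀ x : BOp H, ‖x‖ ≤ 2 * η → ‖W (c u) * j * x‖ ≤ 2 * η := fun x hx =>
      (norm_mul_le _ _).trans ((mul_le_of_le_one_left (norm_nonneg _) n1).trans hx)
    have b2 := b1 _ (WY _ c3)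
    have b3 := b1 _ (WZ _ c3)
    have b4 := WY _ (c2 u)
    have b5 : ‖starRingEnd ℂ (c u) • (W (c u) * Z - c u • Z)‖ ≤ 2 * η := by
      rw [norm_smul, c3, one_mul]; exact WZ _ (c2 u)
    rw [e]
    refine (norm_sub_le _ _).trans ?_
    linarith only [norm_add_le (W (c u) * j * (W (starRingEnd ℂ (c u)) * Y - Y)) (W (c u) * Y - Y), norm_sub_le (W (c u) * j * (W (starRingEnd ℂ (c u)) * Z - starRingEnd ℂ (c u) • Z))
        (starRingEnd ℂ (c u) • (W (c u) * Z - c u • Z)), b2, b3, b4, b5]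

end tr


section model

open Classical
open FreeGroup (mk of toWord invRev reduce startsWith)

/-- The free group on the real numbers. -/
abbrev FG : Type := FreeGroup ℝ

/-- Square summable functions on it. -/
abbrev HH : Type := lp (fun _ : FG => ℂ) 2

theorem toWord_cons (x a : ℝ × Bool) {u : FG} {M : List (ℝ × Bool)} (h : u.toWord = a :: M) :
    (mk [x] * u).toWord = if x.1 = a.1 ∧ x.2 = !a.2 then M else x :: a :: M := by
  rw [FreeGroup.toWord_mul, FreeGroup.toWord_mk, FreeGroup.reduce_singleton, List.singleton_append,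
    FreeGroup.reduce.cons, FreeGroup.reduce_toWord, h]

theorem conj_starts {w y : ℝ × Bool} {g : FG} (hg : g ∈ startsWith y) (hne : y.1 ≠ w.1) :
    mk [w] * g * (mk [w])⁻¹ ∈ startsWith w := by
  obtain ⟨L, hL⟩ : ∃ L, g.toWord = y :: L := by
    rcases h : g.toWord with _ | ⟨a, L⟩ <;> simp_all [startsWith]
  have h1 := toWord_cons w y hL
  rw [if_neg fun h => hne h.1.symm] at h1
  obtain ⟨a, M, hM⟩ : ∃ a M, invRev (y :: L) = a :: M := by
    rcases h : invRev (y :: L) with _ | ⟨a, M⟩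
    · simpa using congrArg List.length h
    · exact ⟨a, M, rfl⟩
  have h2 : (mk [w] * g)⁻¹.toWord = a :: (M ++ invRev [w]) := by
    rw [FreeGroup.toWord_inv, h1, FreeGroup.invRev_cons, hM, List.cons_append]
  have h3 : mk [w] * g * (mk [w])⁻¹ = (mk [w] * (mk [w] * g)⁻¹)⁻¹ := by group
  rw [h3, startsWith, Set.mem_ofPred_eq, FreeGroup.toWord_inv, toWord_cons w a h2]
  split_ifs <;> simp [invRev]

theorem le_of_sq {a b : ℝ} (h : a ^ 2 ≤ b ^ 2) (hb : 0 ≤ b) : a ≤ b :=
  (le_abs_self a).trans (abs_le.2 (abs_le_of_sq_le_sq' h hb))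

theorem hasSum_sq (ξ : HH) : HasSum (fun i => ‖ξ i‖ ^ 2) (‖ξ‖ ^ 2) := by
  simpa only [ENNReal.toReal_ofNat, Real.rpow_ofNat] using lp.hasSum_norm (p := 2) (by norm_num) ξ

theorem norm_le_of (σ : FG ≃ FG) {C : ℝ} (hC : 0 ≤ C) (ξ η : HH)
    (h : ∀ z, ‖η z‖ ≤ C * ‖ξ (σ z)‖) : ‖η‖ ≤ C * ‖ξ‖ := by
  refine le_of_sq ?_ (by positivity)
  rw [mul_pow]
  refine hasSum_le (fun z => ?_) (hasSum_sq η)
    ((σ.hasSum_iff.2 (hasSum_sq ξ)).mul_left (C ^ 2))
  rw [Function.comp, ← mul_pow]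
  exact pow_le_pow_left₀ (norm_nonneg _) (h z) 2

theorem norm_eq_of (σ : FG ≃ FG) (ξ η : HH) (h : ∀ z, ‖η z‖ = ‖ξ (σ z)‖) : ‖η‖ = ‖ξ‖ := by
  refine le_antisymm ?_ ?_
  · simpa only [one_mul] using norm_le_of σ zero_le_one ξ η fun z => by simp [h]
  · simpa only [one_mul] using norm_le_of σ.symm zero_le_one η ξ fun z => by simp [h]

/-- Weighted permutation operators. -/
noncomputable def wop (σ : FG ≃ FG) (φ : FG → ℂ) (hφ : ∀ z, ‖φ z‖ ≤ 1) : BOp HH :=
  LinearMap.mkContinuous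
    { toFun := fun ξ => ⟨fun z => φ z * ξ (σ z), memℓp_gen (by
        simpa only [Complex.norm_mul, ENNReal.toReal_ofNat, Real.rpow_ofNat] using Summable.of_nonneg_of_le (fun _ => sq_nonneg _) (fun z =>
          pow_le_pow_left₀ (norm_nonneg (φ z * ξ (σ z)))
            ((norm_mul_le _ _).trans (mul_le_of_le_one_left (norm_nonneg _) (hφ z))) 2)
          (σ.hasSum_iff.2 (hasSum_sq ξ)).summable)⟩
      map_add' := fun _ _ => lp.ext (funext fun z => mul_add _ _ _)
      map_smul' := fun _ _ => lp.ext (funext fun z => mul_left_comm _ _ _) } 1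
    fun ξ => norm_le_of σ zero_le_one ξ _ fun z =>
      (norm_mul_le _ _).trans (mul_le_mul_of_nonneg_right (hφ z) (norm_nonneg _))

theorem op_ext {X Y : BOp HH} (h : ∀ ξ z, X ξ z = Y ξ z) : X = Y :=
  ContinuousLinearMap.ext fun ξ => lp.ext (funext (h ξ))

/-- Diagonal operators. -/
noncomputable def dg (φ : FG → ℂ) (hφ : ∀ z, ‖φ z‖ ≤ 1) : BOp HH := wop (.refl _) φ hφ

@[simp] theorem dg_apply (φ : FG → ℂ) (hφ : ∀ z, ‖φ z‖ ≤ 1) (ξ : HH) (z : FG) :
    dg φ hφ ξ z = φ z * ξ z := rfl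

theorem star_dg (φ : FG → ℂ) (hφ : ∀ z, ‖φ z‖ ≤ 1) :
    star (dg φ hφ) = dg (fun z => starRingEnd ℂ (φ z)) fun z => by simpa only [RCLike.norm_conj] using hφ z := by
  rw [ContinuousLinearMap.star_eq_adjoint]
  refine ((ContinuousLinearMap.eq_adjoint_iff _ _).2 fun ξ η => ?_).symm
  simp only [lp.inner_eq_tsum, dg_apply, RCLike.inner_apply, map_mul, Complex.conj_conj]
  exact tsum_congr fun _ => by simp [mul_assoc, mul_left_comm]

/-- Permutation operators. -/
noncomputable def pm : Equiv.Perm FG →* BOp HH where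
  toFun σ := wop σ.symm (fun _ => 1) fun _ => norm_one.le
  map_one' := op_ext fun _ _ => one_mul _
  map_mul' _ _ := op_ext fun _ _ => (one_mul _).symm

theorem pm_apply (σ : Equiv.Perm FG) (ξ : HH) (z : FG) : pm σ ξ z = ξ (σ.symm z) := one_mul _

theorem norm_pm (σ : Equiv.Perm FG) (ξ : HH) : ‖pm σ ξ‖ = ‖ξ‖ :=
  norm_eq_of σ.symm _ _ fun z => by rw [pm_apply]

theorem star_pm (σ : Equiv.Perm FG) : star (pm σ) = pm σ⁻¹ := by
  have h : star (pm σ) * pm σ = 1 := (pm σ).norm_map_iff_adjoint_comp_self.1 (norm_pm σ)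
  rw [← mul_one (star _), ← map_one pm, ← mul_inv_cancel σ, map_mul, ← mul_assoc, h, one_mul]

/-- The left regular representation. -/
noncomputable def Lt : FG →* BOp HH := pm.comp (MulAction.toPermHom FG FG)

/-- The right regular representation. -/
noncomputable def Rt : FG →* BOp HH where
  toFun g := pm (Equiv.mulRight g⁻¹)
  map_one' := op_ext fun _ _ => by simp only [inv_one, Equiv.mulRight_one, map_one, one_apply_eq_self]
  map_mul' _ _ := op_ext fun _ _ => by simp only [mul_inv_rev, Equiv.mulRight_mul, map_mul, mul_apply_eq_comp, pm_apply, Equiv.mulRight_symm_apply, inv_inv, mul_assoc]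

@[simp] theorem Lt_apply (g : FG) (ξ : HH) (z : FG) : Lt g ξ z = ξ (g⁻¹ * z) := pm_apply _ _ _

@[simp] theorem Rt_apply (g : FG) (ξ : HH) (z : FG) : Rt g ξ z = ξ (z * g) := by
  simp only [Rt, MonoidHom.coe_mk, OneHom.coe_mk, pm_apply, Equiv.mulRight_symm_apply, inv_inv]

theorem star_Rt (g : FG) : star (Rt g) = Rt g⁻¹ :=
  (star_pm _).trans (op_ext fun _ _ => by simp only [Equiv.inv_mulRight, inv_inv, pm_apply, Equiv.mulRight_symm_apply, Rt_apply])

theorem norm_Lt (g : FG) (ξ : HH) : ‖Lt g ξ‖ = ‖ξ‖ := norm_pm _ _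

theorem norm_Rt (g : FG) (ξ : HH) : ‖Rt g ξ‖ = ‖ξ‖ := norm_pm _ _

/-- Point masses. -/
noncomputable def dl (g : FG) : HH := lp.single 2 g 1

theorem dl_apply (g z : FG) : dl g z = if z = g then 1 else 0 := by
  rw [dl, lp.single_apply, Pi.single_apply]

theorem norm_dl (g : FG) : ‖dl g‖ = 1 := by rw [dl, lp.norm_single (by norm_num), norm_one]

theorem inner_dl (g : FG) (ξ : HH) : ⟪dl g, ξ⟫_ℂ = ξ g := by simp [dl, lp.inner_single_left]

theorem Rt_dl (g h : FG) : Rt g (dl h) = dl (h * g⁻¹) :=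
  lp.ext (funext fun z => by simp only [Rt_apply, dl_apply, eq_mul_inv_iff_mul_eq])

theorem Lt_dl (g h : FG) : Lt g (dl h) = dl (g * h) :=
  lp.ext (funext fun z => by simp [dl_apply, inv_mul_eq_iff_eq_mul])

theorem dg_dl (φ : FG → ℂ) (hφ : ∀ z, ‖φ z‖ ≤ 1) (g : FG) : dg φ hφ (dl g) = φ g • dl g :=
  lp.ext (funext fun z => by by_cases h : z = g <;> simp [dl_apply, h])

theorem dl_ext {X Y : BOp HH} (h : ∀ g, X (dl g) = Y (dl g)) : X = Y := by
  ext1 ξ
  have h1 := lp.hasSum_single (p := 2) (by norm_num) ξ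
  have h2 : ∀ g, (lp.single 2 g (ξ g) : HH) = ξ g • dl g := fun g => by
    rw [dl, ← lp.single_smul, smul_eq_mul, mul_one]
  refine (X.hasSum h1).unique ?_
  simpa only [h2, map_smul, h] using Y.hasSum h1

/-- Projections onto the functions supported in a set. -/
noncomputable def pr (S : Set FG) : BOp HH :=
  dg (fun z => if z ∈ S then 1 else 0) fun z => by split_ifs <;> simp

theorem pr_apply (S : Set FG) (ξ : HH) (z : FG) : pr S ξ z = if z ∈ S then ξ z else 0 := by
  simp [pr]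

theorem pr_proj (S : Set FG) : IsStarProjection (pr S) :=
  ⟨op_ext fun ξ z => by by_cases h : z ∈ S <;> simp only [mul_apply_eq_comp, pr_apply, h, ↓ reduceIte],
    (star_dg _ _).trans (op_ext fun ξ z => by by_cases h : z ∈ S <;> simp [pr_apply, h])⟩

theorem pr_dl (S : Set FG) (g : FG) : pr S (dl g) = if g ∈ S then dl g else 0 := by
  rw [pr, dg_dl]; split_ifs <;> simp

theorem pr_conj (S : Set FG) (μ : FG) (η : HH) :
    ‖pr S η‖ ≤ ‖pr {z | μ⁻¹ * z * μ ∈ S} η‖ + ‖Lt μ (Rt μ η) - η‖ := by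
  have h1 : ‖pr {z | μ⁻¹ * z * μ ∈ S} (Lt μ (Rt μ η))‖ = ‖pr S η‖ :=
    norm_eq_of ((Equiv.mulLeft μ⁻¹).trans (Equiv.mulRight μ)) _ _ fun z => by simp only [pr_apply, Set.mem_ofPred_eq, Lt_apply, Rt_apply, Equiv.trans_apply, Equiv.coe_mulLeft, Equiv.coe_mulRight]
  have h2 := (pr {z | μ⁻¹ * z * μ ∈ S}).le_of_opNorm_le (pr_proj _).norm_le (Lt μ (Rt μ η) - η)
  rw [map_sub] at h2
  linarith only [norm_sub_norm_le (pr {z | μ⁻¹ * z * μ ∈ S} (Lt μ (Rt μ η)))
    (pr {z | μ⁻¹ * z * μ ∈ S} η), h1, h2]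

theorem pr_le {S T V : Set FG} (h : Disjoint S T) (hS : S ⊆ V) (hT : T ⊆ V) (η : HH) :
    ‖pr S η‖ ^ 2 + ‖pr T η‖ ^ 2 ≤ ‖pr V η‖ ^ 2 := by
  refine hasSum_le (fun z => ?_) ((hasSum_sq _).add (hasSum_sq _)) (hasSum_sq _)
  simp only [pr_apply]
  by_cases h1 : z ∈ S
  · simp [h1, hS h1, Set.disjoint_left.1 h h1]
  · by_cases h2 : z ∈ T
    · simp [h1, h2, hT h2]
    · simp only [h1, ↓ reduceIte, norm_zero, ne_eq, OfNat.ofNat_ne_zero, not_false_eq_true, zero_pow, h2, add_zero, norm_nonneg, pow_succ_nonneg]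

theorem gap (η : HH) {ε : ℝ} (h0 : ‖Lt (of 0) (Rt (of 0) η) - η‖ ≤ ε)
    (h1 : ‖Lt (of 1) (Rt (of 1) η) - η‖ ≤ ε) : ‖η‖ ^ 2 ≤ ‖η 1‖ ^ 2 + 113 * ε ^ 2 := by
  have h2 : ‖Lt (of 1)⁻¹ (Rt (of 1)⁻¹ η) - η‖ ≤ ε := by
    rw [← norm_Lt (of 1), ← norm_Rt (of 1), ← norm_neg]
    refine le_of_eq_of_le (congrArg norm (lp.ext (funext fun z => ?_))) h1
    simp only [map_sub, neg_sub, AddSubgroupClass.coe_sub, PreLp.sub_apply, Rt_apply, Lt_apply, inv_inv, mul_inv_cancel_left, mul_assoc, mul_inv_cancel, mul_one]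
  let T : Set FG := {g | ∃ b, g ∈ startsWith (0, b)}
  let V : Set FG := {g | ∃ y : ℝ × Bool, y.1 ≠ 0 ∧ g ∈ startsWith y}
  have hc : ∀ (w : ℝ × Bool) (S : Set FG), (∀ g ∈ S, ∃ y : ℝ × Bool, y.1 ≠ w.1 ∧ g ∈ startsWith y) →
      {z | (mk [w])⁻¹ * z * mk [w] ∈ S} ⊆ startsWith w := fun w S hS z hz => by
    obtain ⟨y, h1, h2⟩ := hS _ hz
    have := conj_starts h2 h1
    rwa [show mk [w] * ((mk [w])⁻¹ * z * mk [w]) * (mk [w])⁻¹ = z by group] at this
  have hT : ∀ b : Bool, ∀ g ∈ T, ∃ y : ℝ × Bool, y.1 ≠ ((1 : ℝ), b).1 ∧ g ∈ startsWith y :=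
    fun b g ⟨b', hg⟩ => ⟨_, zero_ne_one, hg⟩
  have e1 := pr_conj V (of 0) η
  have e2 := pr_conj T (of 1) η
  have e3 := pr_conj T (of 1)⁻¹ η
  have f1 := pr_le (Set.disjoint_empty _) (V := T)
    ((hc (0, true) V fun _ h => h).trans fun g hg => ⟨true, hg⟩) (Set.empty_subset _) η
  have f2 := pr_le (V := V) ((FreeGroup.startsWith.disjoint_iff_ne.2 (by simp)).mono (hc _ T (hT true))
    (hc _ T (hT false))) ((hc _ T (hT true)).trans fun g hg => ⟨_, one_ne_zero, hg⟩)
    ((hc _ T (hT false)).trans fun g hg => ⟨_, one_ne_zero, hg⟩) η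
  have f3 : ‖η‖ ^ 2 ≤ ‖η 1‖ ^ 2 + (‖pr T η‖ ^ 2 + ‖pr V η‖ ^ 2) := by
    refine hasSum_le (fun z => ?_) (hasSum_sq _)
      ((hasSum_ite_eq 1 _).add ((hasSum_sq _).add (hasSum_sq _)))
    simp only [pr_apply]
    rcases hz : z.toWord with _ | ⟨⟨a, b⟩, L⟩
    · rw [FreeGroup.toWord_eq_nil_iff.1 hz, if_pos rfl]
      exact le_add_of_nonneg_right (by positivity)
    · have h3 : z ∈ startsWith (a, b) := by simp [startsWith, hz]
      by_cases ha : a = 0
      · rw [if_pos (show z ∈ T from ⟨b, ha ▸ h3⟩)]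
        have : (0 : ℝ) ≤ if z = 1 then ‖η 1‖ ^ 2 else 0 := by positivity
        linarith only [sq_nonneg ‖if z ∈ V then η z else 0‖, this]
      · rw [if_pos (show z ∈ V from ⟨_, ha, h3⟩)]
        have : (0 : ℝ) ≤ if z = 1 then ‖η 1‖ ^ 2 else 0 := by positivity
        linarith only [sq_nonneg ‖if z ∈ T then η z else 0‖, this]
  change ‖pr {z | (of 0)⁻¹ * z * of 0 ∈ V} η‖ ^ 2 + _ ≤ _ at f1
  change ‖pr {z | (of 1)⁻¹ * z * of 1 ∈ T} η‖ ^ 2 +
    ‖pr {z | (of 1)⁻¹⁻¹ * z * (of 1)⁻¹ ∈ T} η‖ ^ 2 ≤ _ at f2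
  have g1 := le_of_sq ((le_add_of_nonneg_right (sq_nonneg _)).trans f1) (norm_nonneg _)
  generalize ‖pr {z | (of 0)⁻¹ * z * of 0 ∈ V} η‖ = x0 at *
  generalize ‖pr {z | (of 1)⁻¹ * z * of 1 ∈ T} η‖ = x1 at *
  generalize ‖pr {z | (of 1)⁻¹⁻¹ * z * (of 1)⁻¹ ∈ T} η‖ = x2 at *
  have hε : 0 ≤ ε := (norm_nonneg _).trans h0
  have n1 := norm_nonneg (pr T η)
  have n2 := norm_nonneg (pr V η)
  generalize ‖pr T η‖ = s at *
  generalize ‖pr V η‖ = r at *
  have k1 : s ≤ 7 * ε := by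
    by_contra hc
    nlinarith only [mul_self_le_mul_self (by linarith only [hε, hc] : 0 ≤ s - ε) (by linarith only [h1, e2] : s - ε ≤ x1), mul_self_le_mul_self (by linarith only [hε, hc] : 0 ≤ s - ε) (by linarith : s - ε ≤ x2), mul_self_le_mul_self n2 (by linarith only [h0, g1, e1] : r ≤ s + ε), hε, f2, hc]
  linarith only [mul_self_le_mul_self n1 k1, mul_self_le_mul_self n2 (by linarith only [h0, g1, e1, k1] : r ≤ 8 * ε), f3]

end model


section alg

open Classical
open FreeGroup (of)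

/-- The exponential with period one. -/
noncomputable def ex (t : ℝ) : Circle := Circle.exp (2 * Real.pi * t)

theorem ex_add (s t : ℝ) : ex (s + t) = ex s * ex t := by rw [ex, mul_add, Circle.exp_add]; rfl

theorem ex_int (k : ℤ) : ex k = 1 := Circle.exp_two_pi_mul_int k

theorem ex_pow (t : ℝ) (n : ℕ) : ex t ^ n = ex (n * t) := by
  rw [ex, ex, ← Circle.exp_natCast_mul, mul_left_comm]

theorem ex_eq {s t : ℝ} (h : ex s = ex t) : ∃ k : ℤ, s = t + k := by
  obtain ⟨k, hk⟩ := Circle.exp_eq_exp.1 h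
  exact ⟨k, mul_left_cancel₀ Real.two_pi_pos.ne' (by rw [hk]; ring)⟩

theorem ex_surj (z : Circle) : ∃ u ∈ Set.Icc (0 : ℝ) 1, ex u = z := by
  obtain ⟨t, rfl⟩ := Circle.exp_surjective z
  refine ⟨Int.fract (t / (2 * Real.pi)), ⟨Int.fract_nonneg _, (Int.fract_lt_one _).le⟩, ?_⟩
  rw [← mul_one (ex _), ← ex_int ⌊t / (2 * Real.pi)⌋, ← ex_add, Int.fract_add_floor, ex,
    mul_div_cancel₀ _ Real.two_pi_pos.ne']

theorem continuous_ex : Continuous ex := by unfold ex; fun_prop

/-- The character of the free group sending the generator `t` to `ex t`. -/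
noncomputable def th : FG →* Circle := FreeGroup.lift ex

@[simp] theorem th_of (t : ℝ) : th (of t) = ex t := FreeGroup.lift_apply_of

/-- Right translations by the kernel. -/
def RK : Set (BOp HH) := {x | ∃ k, th k = 1 ∧ x = Rt k}

/-- The commutant of these. -/
noncomputable abbrev NN : StarSubalgebra ℂ (BOp HH) := StarSubalgebra.centralizer ℂ RK

theorem mem_NN {x : BOp HH} : x ∈ NN ↔ ∀ k, th k = 1 → Rt k * x = x * Rt k := by
  rw [StarSubalgebra.mem_centralizer_iff]
  refine ⟨fun h k hk => (h _ ⟨k, hk, rfl⟩).1, ?_⟩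
  rintro h _ ⟨k, hk, rfl⟩
  exact ⟨h k hk, by rw [star_Rt]; exact h _ (by simp [hk])⟩

theorem Lt_mem (g : FG) : Lt g ∈ NN := mem_NN.2 fun k _ => op_ext fun ξ z => by simp only [mul_apply_eq_comp, Rt_apply, Lt_apply, mul_assoc]

theorem dg_mem (φ : Circle → ℂ) (hφ : ∀ z, ‖φ (th z)‖ ≤ 1) : dg (fun z => φ (th z)) hφ ∈ NN :=
  mem_NN.2 fun k hk => op_ext fun ξ z => by simp only [mul_apply_eq_comp, Rt_apply, dg_apply, map_mul, hk, mul_one]

theorem fac : IsFac RK := by
  intro p hpN q hqN hp hq hp0 hq0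
  by_contra hcon
  push Not at hcon
  let W : Submodule ℂ HH := (Submodule.span ℂ {η | ∃ y ∈ NN, ∃ ξ, η = y (p ξ)}).topologicalClosure
  have hle : ∀ (u : BOp HH) (V : Submodule ℂ HH), IsClosed (V : Set HH) →
      (∀ y ∈ NN, ∀ ξ, u (y (p ξ)) ∈ V) → ∀ η ∈ W, u η ∈ V := fun u V hV h =>
    Submodule.topologicalClosure_minimal (t := V.comap (u : HH →ₗ[ℂ] HH)) _
      (Submodule.span_le.2 (by rintro _ ⟨y, hy, ξ, rfl⟩; exact h y hy ξ)) (hV.preimage u.continuous)
  have hin : ∀ y ∈ NN, ∀ ξ, y (p ξ) ∈ W := fun y hy ξ =>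
    Submodule.le_topologicalClosure _ (Submodule.subset_span ⟨y, hy, ξ, rfl⟩)
  have hW := Submodule.isClosed_topologicalClosure
    (Submodule.span ℂ {η | ∃ y ∈ NN, ∃ ξ, η = y (p ξ)})
  have hc : IsStarProjection W.starProjection := isStarProjection_starProjection
  have key : ∀ u : BOp HH, (∀ y ∈ NN, ∀ ξ, u (y (p ξ)) ∈ W) →
      (1 - W.starProjection) * u * W.starProjection = 0 := fun u h =>
    ContinuousLinearMap.ext fun ξ => sub_eq_zero.2 (Submodule.starProjection_eq_self_iff.2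
      (hle u W hW h _ (W.starProjection_apply_mem ξ))).symm
  have hL : ∀ g, Lt g * W.starProjection = W.starProjection * Lt g := fun g =>
    comm_of hc.isSelfAdjoint (key _ fun y hy => hin _ (mul_mem (Lt_mem g) hy))
      (key _ fun y hy => hin _ (mul_mem (star_mem (Lt_mem g)) hy))
  have hR0 : ∀ k, th k = 1 → ∀ y ∈ NN, ∀ ξ, Rt k (y (p ξ)) ∈ W := fun k hk y hy ξ => by
    have := congrArg (fun T : BOp HH => T ξ) (mem_NN.1 (mul_mem hy hpN) k hk)
    exact (show Rt k (y (p ξ)) = y (p (Rt k ξ)) from this) ▸ hin y hy _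
  have hR : ∀ k, th k = 1 → Lt k (Rt k (W.starProjection (dl 1))) = W.starProjection (dl 1) :=
    fun k hk => by
      have h1 := comm_of hc.isSelfAdjoint (key _ (hR0 k hk))
        (key _ (star_Rt k ▸ hR0 k⁻¹ (by simp [hk])))
      rw [← mul_apply_eq_comp (Rt k), h1, mul_apply_eq_comp, ← mul_apply_eq_comp (Lt k), hL,
        mul_apply_eq_comp, Rt_dl, Lt_dl]
      simp
  have h1 := gap (W.starProjection (dl 1)) (ε := 0)
    (by rw [hR _ (by simpa using ex_int 0)]; simp) (by rw [hR _ (by simpa using ex_int 1)]; simp)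
  have h2 : W.starProjection (dl 1) = W.starProjection (dl 1) 1 • dl 1 := by
    generalize W.starProjection (dl 1) = η at h1
    have h3 := norm_sub_sq (𝕜 := ℂ) η (η 1 • dl 1)
    rw [inner_smul_right, ← inner_conj_symm, inner_dl, norm_smul, norm_dl, Complex.mul_conj,
      Complex.normSq_eq_norm_sq] at h3
    simp only [RCLike.re_to_complex, Complex.ofReal_re, mul_one] at h3
    rw [← sub_eq_zero, ← norm_eq_zero]
    nlinarith only [h1, h3]
  have h3 : W.starProjection = W.starProjection (dl 1) 1 • (1 : BOp HH) := dl_ext fun g => by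
    have := congrArg (fun T : BOp HH => T (dl 1)) (hL g)
    simp only [mul_apply_eq_comp, Lt_dl, mul_one] at this
    rw [← this, h2, map_smul, Lt_dl]
    simp [dl_apply]
  have h4 : W.starProjection * p = p := ContinuousLinearMap.ext fun ξ =>
    Submodule.starProjection_eq_self_iff.2 (hin 1 (one_mem _) ξ)
  have h5 : q * W.starProjection = 0 := ContinuousLinearMap.ext fun ξ =>
    hle q ⊥ isClosed_singleton (fun y hy ξ => congrArg (fun T : BOp HH => T ξ) (hcon y hy)) _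
      (W.starProjection_apply_mem ξ)
  rw [h3] at h4 h5
  rw [mul_smul_comm, mul_one, smul_eq_zero] at h5
  rw [h5.resolve_right hq0, zero_smul, zero_mul] at h4
  exact hp0 h4.symm

/-- Conjugation by right translations. -/
noncomputable def Ad (g : FG) : BOp HH →⋆ₐ[ℂ] BOp HH where
  toFun x := Rt g * x * Rt g⁻¹
  map_one' := by rw [mul_one, ← map_mul, mul_inv_cancel, map_one]
  map_mul' x y := by
    simp only [mul_assoc]; rw [← mul_assoc (Rt g⁻¹), ← map_mul, inv_mul_cancel, map_one, one_mul]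
  map_zero' := by simp
  map_add' x y := by rw [mul_add, add_mul]
  commutes' r := by
    rw [← Algebra.commutes, mul_assoc, ← map_mul, mul_inv_cancel, map_one, mul_one]
  map_star' x := by simp only [star_mul, star_Rt, inv_inv, mul_assoc]

theorem Ad_apply (g : FG) (x : BOp HH) : Ad g x = Rt g * x * Rt g⁻¹ := rfl

theorem Ad_mul (g h : FG) (x : BOp HH) : Ad (g * h) x = Ad g (Ad h x) := by
  simp only [Ad_apply, mul_inv_rev, map_mul Rt, mul_assoc]

theorem Ad_ker {x : BOp HH} (hx : x ∈ NN) {k : FG} (hk : th k = 1) : Ad k x = x := by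
  rw [Ad_apply, mem_NN.1 hx k hk, mul_assoc, ← map_mul, mul_inv_cancel, map_one, mul_one]

theorem Ad_congr {x : BOp HH} (hx : x ∈ NN) {g h : FG} (e : th g = th h) : Ad g x = Ad h x := by
  rw [← mul_inv_cancel_left h g, Ad_mul, Ad_ker hx (by simp only [map_mul, map_inv, e, inv_mul_cancel])]

theorem Ad_mem {x : BOp HH} (hx : x ∈ NN) (g : FG) : Ad g x ∈ NN := mem_NN.2 fun k hk => by
  have : Ad k (Ad g x) = Ad g x := by rw [← Ad_mul]; exact Ad_congr hx (by simp only [map_mul, hk, one_mul])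
  nth_rewrite 2 [← this]
  rw [Ad_apply k, mul_assoc, ← map_mul Rt, inv_mul_cancel, map_one, mul_one]

theorem norm_Ad (g : FG) (x : BOp HH) : ‖Ad g x‖ = ‖x‖ :=
  NonUnitalStarAlgHom.norm_map _ (Function.LeftInverse.injective (g := Ad g⁻¹) fun x => by
    rw [← Ad_mul, inv_mul_cancel]; simp [Ad_apply]) x

theorem Ad_dg (g : FG) (φ : FG → ℂ) (hφ : ∀ z, ‖φ z‖ ≤ 1) :
    Ad g (dg φ hφ) = dg (fun z => φ (z * g)) fun _ => hφ _ :=
  op_ext fun ξ z => by simp only [Ad_apply, mul_apply_eq_comp, Rt_apply, dg_apply, mul_inv_cancel_right]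

theorem Ad_Lt (g h : FG) : Ad g (Lt h) = Lt h := op_ext fun ξ z => by simp only [Ad_apply, mul_assoc, mul_apply_eq_comp, Rt_apply, Lt_apply, mul_inv_cancel, mul_one]

/-- The flow. -/
noncomputable abbrev fl (t : ℝ) : BOp HH →⋆ₐ[ℂ] BOp HH := Ad (of t)

theorem fl_add {x : BOp HH} (hx : x ∈ NN) (s t : ℝ) : fl s (fl t x) = fl (s + t) x := by
  rw [← Ad_mul]; exact Ad_congr hx (by simp only [map_mul, th_of, ex_add])

theorem fl_int {x : BOp HH} (hx : x ∈ NN) (k : ℤ) : fl k x = x := Ad_ker hx (by simp [ex_int])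

theorem fl_zero {x : BOp HH} (hx : x ∈ NN) : fl 0 x = x := by simpa using fl_int hx 0

/-- Powers of the character, as diagonal unitaries. -/
noncomputable def UU (n : ℕ) : BOp HH := dg (fun z => ((th z ^ n : Circle) : ℂ)) fun z => by simp

/-- Block projections. -/
noncomputable def QQ (n : ℕ) (w : Circle) : BOp HH := pr {z | th z ^ n = w}

theorem blk {n : ℕ} {x : BOp HH} (hx : Commute (UU n) x) (φ : Circle → ℂ)
    (hφ : ∀ z, ‖φ (th z ^ n)‖ ≤ 1) : Commute (dg (fun z => φ (th z ^ n)) hφ) x :=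
  dl_ext fun g => lp.ext (funext fun z => by
    have h := congrArg (fun T : BOp HH => T (dl g) z) hx
    simp only [UU, mul_apply_eq_comp, dg_dl, map_smul, dg_apply, lp.coeFn_smul, Pi.smul_apply,
      smul_eq_mul, mul_eq_mul_right_iff, Circle.coe_inj] at h ⊢
    exact h.imp (congrArg φ) id)

theorem QQ_comm {n : ℕ} {x : BOp HH} (hx : Commute (UU n) x) (w : Circle) : Commute (QQ n w) x :=
  blk hx (fun z => if z = w then 1 else 0) fun _ => by split_ifs <;> simp

theorem QQ_mem (n : ℕ) (w : Circle) : QQ n w ∈ NN :=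
  dg_mem (fun z => if z ^ n = w then 1 else 0) fun _ => by split_ifs <;> simp

theorem Ad_UU (g : FG) (n : ℕ) : Ad g (UU n) = ((th g ^ n : Circle) : ℂ) • UU n :=
  (Ad_dg _ _ _).trans (op_ext fun ξ z => by simp [UU, mul_pow]; ring)

theorem Ad_comm {n : ℕ} {x : BOp HH} (hx : Commute (UU n) x) (g : FG) : Commute (UU n) (Ad g x) := by
  have := (hx.map (Ad g)).smul_left ((th g ^ n : Circle) : ℂ)⁻¹
  rwa [Ad_UU, inv_smul_smul₀ (Circle.coe_ne_zero _)] at this

theorem fl_QQ {n : ℕ} (hn : n ≠ 0) (u : ℝ) (w : Circle) : fl (u / n) (QQ n (w * ex u)) = QQ n w := by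
  rw [QQ, pr, Ad_dg]
  exact op_ext fun ξ z => by
    simp only [Set.mem_ofPred_eq, map_mul, th_of, mul_pow, ex_pow, mul_div_cancel₀ u (Nat.cast_ne_zero.2 hn), mul_left_inj, dg_apply, ite_mul, one_mul, zero_mul, QQ, pr]

theorem UU_QQ (n : ℕ) : UU n * QQ n 1 = QQ n 1 := op_ext fun ξ z => by
  by_cases h : th z ^ n = 1 <;> simp only [UU, QQ, mul_apply_eq_comp, dg_apply, h, Circle.coe_one, pr_apply, Set.mem_ofPred_eq, ↓ reduceIte, one_mul, mul_zero]

theorem QQ_UU (n : ℕ) : QQ n 1 * UU n = QQ n 1 :=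
  (QQ_comm (Commute.refl _) 1).eq.trans (UU_QQ n)

theorem corner {n : ℕ} {x : BOp HH} (h1 : QQ n 1 * x = x) (h2 : x * QQ n 1 = x) :
    Commute (UU n) x := by
  rw [Commute, SemiconjBy, ← h1, ← mul_assoc, UU_QQ, h1, ← h2, mul_assoc, QQ_UU]

theorem core {ι : Type} (β : FG → ι) (Y : ι → BOp HH) {C : ℝ} (hY : ∀ i, ‖Y i‖ ≤ C)
    (hc : ∀ i, Commute (pr {z | β z = i}) (Y i)) (ξ : HH) (s : Finset FG) :
    ∑ z ∈ s, ‖Y (β z) ξ z‖ ^ 2 ≤ (C * ‖ξ‖) ^ 2 := by
  rw [← Finset.sum_fiberwise_of_maps_to (g := β) (t := s.image β)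
    fun z hz => Finset.mem_image_of_mem β hz]
  calc _ ≤ ∑ i ∈ s.image β, C ^ 2 * ‖pr {z | β z = i} ξ‖ ^ 2 := Finset.sum_le_sum fun i _ => by
        calc _ = ∑ z ∈ s with β z = i, ‖Y i (pr {z | β z = i} ξ) z‖ ^ 2 :=
              Finset.sum_congr rfl fun z hz => by
                have h := (Finset.mem_filter.1 hz).2
                rw [← mul_apply_eq_comp, ← (hc i).eq, mul_apply_eq_comp, pr_apply, if_pos (by exact h), h]
          _ ≤ ‖Y i (pr {z | β z = i} ξ)‖ ^ 2 :=
              sum_le_hasSum _ (fun _ _ => sq_nonneg _) (hasSum_sq _)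
          _ ≤ _ := by
              rw [← mul_pow]
              exact pow_le_pow_left₀ (norm_nonneg _) ((Y i).le_of_opNorm_le (hY i) _) 2
    _ ≤ _ := by
      rw [← Finset.mul_sum, mul_pow]
      refine mul_le_mul_of_nonneg_left (hasSum_le (fun z => ?_)
        (hasSum_sum fun i _ => hasSum_sq (pr {z | β z = i} ξ)) (hasSum_sq ξ)) (sq_nonneg C)
      simp only [pr_apply, Set.mem_ofPred_eq, apply_ite (fun x : ℂ => ‖x‖ ^ 2), norm_zero]
      simp only [ne_eq, OfNat.ofNat_ne_zero, not_false_eq_true, zero_pow, Finset.sum_ite_eq]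
      split_ifs <;> simp only [Std.le_refl, norm_nonneg, pow_succ_nonneg]

theorem glue {ι : Type} (β : FG → ι) (Y : ι → BOp HH) {C : ℝ} (hY : ∀ i, ‖Y i‖ ≤ C)
    (hc : ∀ i, Commute (pr {z | β z = i}) (Y i)) :
    ∃ X : BOp HH, ‖X‖ ≤ C ∧ ∀ ξ z, X ξ z = Y (β z) ξ z := by
  have hC : 0 ≤ C := (norm_nonneg _).trans (hY (β 1))
  let X : HH →ₗ[ℂ] HH :=
    { toFun := fun ξ => ⟨fun z => Y (β z) ξ z, memℓp_gen' (C := (C * ‖ξ‖) ^ 2) fun s => by
        simpa only [ENNReal.toReal_ofNat, Real.rpow_ofNat] using core β Y hY hc ξ s⟩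
      map_add' := fun _ _ => lp.ext (funext fun z => by simp only [map_add, AddSubgroup.coe_add, PreLp.add_apply])
      map_smul' := fun _ _ => lp.ext (funext fun z => by simp) }
  have hX : ∀ ξ, ‖X ξ‖ ≤ C * ‖ξ‖ := fun ξ => le_of_sq
    (hasSum_le_of_sum_le (hasSum_sq _) (core β Y hY hc ξ)) (by positivity)
  exact ⟨X.mkContinuous C hX, X.mkContinuous_norm_le hC hX, fun _ _ => rfl⟩

theorem norm_blk {n : ℕ} (hn : n ≠ 0) {x : BOp HH} (hx : Commute (UU n) x) {C : ℝ}
    (h : ∀ u ∈ Set.Icc (0 : ℝ) 1, ‖fl (u / n) x * QQ n 1‖ ≤ C) : ‖x‖ ≤ C := by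
  obtain ⟨X, h1, h2⟩ := glue (fun z => th z ^ n) (fun w => QQ n w * x) (C := C) (fun w => by
    obtain ⟨u, hu, rfl⟩ := ex_surj w
    have := h u hu
    rwa [← fl_QQ hn u, one_mul, ← map_mul, norm_Ad, ← (QQ_comm hx _).eq] at this)
    fun w => (Commute.refl _).mul_right (QQ_comm hx w)
  rwa [show x = X from op_ext fun ξ z => by simp only [h2, QQ, mul_apply_eq_comp, pr_apply, Set.mem_ofPred_eq, ↓ reduceIte]]

end alg


section trace

open Classical
open FreeGroup (of)

/-- Roots of unity. -/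
noncomputable def mu (n : ℕ) : Subgroup Circle := (powMonoidHom n : Circle →* Circle).ker

instance (n : ℕ) [NeZero n] : Finite (mu n) :=
  ((Polynomial.nthRoots n (1 : ℂ)).toFinset.finite_toSet.preimage
    Circle.coe_injective.injOn).subset fun (z : Circle) hz => by
      have h : z ^ n = 1 := hz
      simp only [Set.mem_preimage, Finset.mem_coe, Multiset.mem_toFinset,
        Polynomial.mem_nthRoots (NeZero.pos n)]
      exact (Circle.coe_pow z n).symm.trans (congrArg _ h)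

noncomputable instance (n : ℕ) [NeZero n] : Fintype (mu n) := Fintype.ofFinite _

/-- A section of the exponential. -/
noncomputable def sc (z : Circle) : ℝ := (ex_surj z).choose

@[simp] theorem ex_sc (z : Circle) : ex (sc z) = z := (ex_surj z).choose_spec.2

/-- The vector state. -/
noncomputable def ev : BOp HH →+ ℝ where
  toFun x := (x (dl 1) 1).re
  map_zero' := by simp
  map_add' x y := by simp only [add_apply, AddSubgroup.coe_add, PreLp.add_apply, Complex.add_re]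

theorem ev_sq (y : BOp HH) : ev (star y * y) = ‖y (dl 1)‖ ^ 2 := by
  change ((star y * y) (dl 1) 1).re = _
  rw [← inner_dl, mul_apply_eq_comp, ContinuousLinearMap.star_eq_adjoint,
    ContinuousLinearMap.adjoint_inner_right, inner_self_eq_norm_sq_to_K]
  norm_cast

theorem ev_Ad (g : FG) (y : BOp HH) : ev (Ad g (star y * y)) = ‖y (dl g)‖ ^ 2 := by
  rw [map_mul, map_star, ev_sq, Ad_apply, mul_apply_eq_comp, mul_apply_eq_comp, norm_Rt, Rt_dl]
  simp only [inv_inv, one_mul]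

variable (n : ℕ) [NeZero n]

/-- The trace on the corner. -/
noncomputable def TT : BOp HH →+ ℝ where
  toFun x := ∑ z : mu n, ev (fl (sc z) x)
  map_zero' := by simp only [map_zero, Finset.sum_const_zero]
  map_add' x y := by simp [Finset.sum_add_distrib]

theorem TT_apply (x : BOp HH) : TT n x = ∑ z : mu n, ev (fl (sc z) x) := rfl

theorem TT_Ad {x : BOp HH} (hx : x ∈ NN) {g : FG} (hg : th g ^ n = 1) : TT n (Ad g x) = TT n x := by
  rw [TT_apply, TT_apply, ← Equiv.sum_comp (Equiv.mulRight (⟨th g, hg⟩ : mu n))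
    fun z => ev (fl (sc z) x)]
  exact Finset.sum_congr rfl fun z _ => by
    rw [← Ad_mul]; exact congrArg ev (Ad_congr hx (by simp only [map_mul, th_of, ex_sc, Equiv.coe_mulRight, Subgroup.coe_mul]))

theorem swap {y : BOp HH} (hy : y ∈ NN) (g h : FG) :
    ‖pr {z | th z = th h} (y (dl g))‖ = ‖pr {z | th z = th g} (star y (dl h))‖ := by
  refine norm_eq_of ((Equiv.inv _).trans ((Equiv.mulLeft g).trans (Equiv.mulRight h))) _ _
    fun z => ?_
  have e : th (g * z⁻¹ * h) = th g ↔ th z = th h := by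
    rw [map_mul, map_mul, map_inv, mul_assoc, mul_eq_left, inv_mul_eq_one]
  simp only [pr_apply, Set.mem_ofPred_eq, Equiv.trans_apply, Equiv.inv_apply, Equiv.coe_mulLeft,
    Equiv.coe_mulRight, e]
  split_ifs with hz
  · have h1 := congrArg (fun T : BOp HH => T (dl h) h) (Ad_ker hy (k := h⁻¹ * z) (by simp only [map_mul, map_inv, hz, inv_mul_cancel]))
    have h2 := congrArg (fun T : BOp HH => T (dl g) h) (mem_NN.1 hy (h⁻¹ * z) (by simp [hz]))
    simp only [mul_apply_eq_comp, Rt_apply, mul_inv_cancel_left, Rt_dl, mul_inv_rev,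
      inv_inv] at h2
    rw [h2, ← inner_dl, ← inner_dl, ContinuousLinearMap.star_eq_adjoint,
      ContinuousLinearMap.adjoint_inner_right, norm_inner_symm, mul_assoc]
  · rfl

theorem sum_pr (η : HH) (h : QQ n 1 η = η) :
    ‖η‖ ^ 2 = ∑ w : mu n, ‖pr {z | th z = th (of (sc w))} η‖ ^ 2 := by
  refine (hasSum_sq η).unique ?_
  convert hasSum_sum fun w (_ : w ∈ Finset.univ) =>
    hasSum_sq (pr {z | th z = th (of (sc (w : mu n)))} η) using 2 with z
  simp only [pr_apply, Set.mem_ofPred_eq, th_of, ex_sc]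
  by_cases hz : th z ^ n = 1
  · rw [Finset.sum_eq_single (⟨th z, hz⟩ : mu n)
      (fun w _ hw => by rw [if_neg fun e => hw (Subtype.ext e.symm)]; simp) (by simp only [Finset.mem_univ, not_true_eq_false, ↓ reduceIte, ne_eq, OfNat.ofNat_ne_zero, not_false_eq_true, pow_eq_zero_iff, norm_eq_zero, IsEmpty.forall_iff]), if_pos rfl]
  · rw [← h, QQ, pr_apply, if_neg (by exact hz)]; simp only [norm_zero, ne_eq, OfNat.ofNat_ne_zero, not_false_eq_true, zero_pow, ite_self, Finset.sum_const_zero]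

theorem TT_comm {y : BOp HH} (hy : y ∈ NN) (hc : Commute (UU n) y) :
    TT n (star y * y) = TT n (y * star y) := by
  have key : ∀ x : BOp HH, Commute (QQ n 1) x → TT n (star x * x) = ∑ v : mu n, ∑ w : mu n,
      ‖pr {z | th z = th (of (sc w))} (x (dl (of (sc v))))‖ ^ 2 := fun x hx =>
    Finset.sum_congr rfl fun v _ => by
      rw [ev_Ad, sum_pr n]
      rw [← mul_apply_eq_comp, hx.eq, mul_apply_eq_comp, QQ, pr_dl, if_pos]
      exact (congrArg (· ^ n) ((th_of _).trans (ex_sc _))).trans v.2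
  have h1 := QQ_comm hc 1
  have h2 := h1.star_star
  rw [show star (QQ n 1) = QQ n 1 from (pr_proj _).isSelfAdjoint] at h2
  rw [key y h1, ← star_star y, star_star (star y), key _ h2, Finset.sum_comm, star_star]
  exact Finset.sum_congr rfl fun _ _ => Finset.sum_congr rfl fun _ _ => by rw [swap hy]

theorem TT_nonneg (y : BOp HH) : 0 ≤ TT n (star y * y) :=
  Finset.sum_nonneg fun _ _ => by rw [ev_Ad]; positivity

theorem TT_faith {y : BOp HH} (hy : y ∈ NN) (h : TT n (star y * y) = 0) : y * QQ n 1 = 0 :=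
  dl_ext fun g => by
    rw [mul_apply_eq_comp, QQ, pr_dl]
    split_ifs with hg
    · have h1 := (Finset.sum_eq_zero_iff_of_nonneg fun _ _ => by rw [ev_Ad]; positivity).1 h
        ⟨th g, hg⟩ (Finset.mem_univ _)
      rw [fl, Ad_congr (mul_mem (star_mem hy) hy) (h := g) (by simp), ev_Ad] at h1
      simpa only [zero_apply, ne_eq, OfNat.ofNat_ne_zero, not_false_eq_true, pow_eq_zero_iff, norm_eq_zero] using h1
    · simp only [map_zero, zero_apply]

theorem tr : Tr RK (QQ n 1) (TT n) where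
  fac := fac
  proj := pr_proj _
  mem := QQ_mem n 1
  comm _ hv h1 h2 := TT_comm n hv (corner h1 h2)
  nonneg := TT_nonneg n
  faith _ hv h1 h2 := h1 ▸ TT_faith n hv h2

/-- The mapping torus algebras. -/
noncomputable def DD (n : ℕ) : StarSubalgebra ℂ (BOp HH) where
  carrier := {x | x ∈ NN ∧ Commute (UU n) x ∧ Continuous fun t => fl t x}
  mul_mem' ha hb := ⟨mul_mem ha.1 hb.1, ha.2.1.mul_right hb.2.1, by
    simp only [map_mul]; exact ha.2.2.mul hb.2.2⟩
  add_mem' ha hb := ⟨add_mem ha.1 hb.1, ha.2.1.add_right hb.2.1, by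
    simp only [map_add]; exact ha.2.2.add hb.2.2⟩
  algebraMap_mem' r := ⟨algebraMap_mem _ r, (Algebra.commutes r _).symm, by
    simpa only [AlgHomClass.commutes] using continuous_const⟩
  star_mem' {x} hx := ⟨star_mem hx.1, by
    have := (blk hx.2.1 (fun z => starRingEnd ℂ z) fun z => by simp).star_star
    rwa [star_dg, show dg _ _ = UU n from op_ext fun _ _ => by simp only [Circle.coe_pow, map_pow, RingHomCompTriple.comp_apply, RingHom.id_apply, dg_apply, UU]] at this, by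
    simpa only [map_star] using hx.2.2.star⟩

theorem closed_fl : IsClosed {x : BOp HH | Continuous fun t => fl t x} :=
  isClosed_of_closure_subset fun x hx => continuous_of_uniform_approx_of_continuous fun u hu => by
    obtain ⟨ε, hε, h⟩ := Metric.mem_uniformity_dist.1 hu
    obtain ⟨y, hy, hxy⟩ := Metric.mem_closure_iff.1 hx ε hε
    exact ⟨_, hy, fun t => h (by rwa [dist_eq_norm, ← map_sub, norm_Ad, ← dist_eq_norm])⟩

theorem closed_NN : IsClosed (NN : Set (BOp HH)) := Set.isClosed_centralizer _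

instance closed_DD (n : ℕ) : IsClosed (DD n : Set (BOp HH)) :=
  closed_NN.inter ((isClosed_eq (f := fun x => UU n * x) (by fun_prop) (by fun_prop)).inter closed_fl)

theorem fl_mem {n : ℕ} {x : BOp HH} (hx : x ∈ DD n) (s : ℝ) : fl s x ∈ DD n :=
  ⟨Ad_mem hx.1 _, Ad_comm hx.2.1 _, by
    simp only [fl_add hx.1]; exact hx.2.2.comp (continuous_add_const s)⟩

theorem UU_pow (n k : ℕ) : UU n ^ k = UU (n * k) := by
  induction k with
  | zero => exact op_ext fun _ _ => by simp only [UU, Circle.coe_pow, pow_zero, one_apply_eq_self, mul_zero, Circle.coe_one, dg_apply, one_mul]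
  | succ k ih => rw [pow_succ, ih]; exact op_ext fun _ _ => by simp only [UU, Circle.coe_pow, mul_apply_eq_comp, dg_apply, mul_add, mul_one, pow_add, Circle.coe_mul, mul_assoc]

theorem DD_le (n k : ℕ) : DD n ≤ DD (n * k) := fun _ hx =>
  ⟨hx.1, UU_pow n k ▸ hx.2.1.pow_left k, hx.2.2⟩

theorem UU_mem (n k : ℕ) : UU k ∈ DD n :=
  ⟨dg_mem (fun z => ((z ^ k : Circle) : ℂ)) fun z => by simp, op_ext fun _ _ => by simp only [UU, Circle.coe_pow, mul_apply_eq_comp, dg_apply]; ring, by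
    simp only [Ad_UU, th_of]
    have := continuous_ex
    fun_prop⟩

theorem section0 (F : ℝ → BOp HH) (hF : Continuous F) (hN : ∀ u, F u ∈ NN)
    (hU : ∀ u, Commute (UU n) (F u)) (hp : ∀ u, F (u + 1) = fl (1 / n) (F u)) :
    ∃ X ∈ DD n, ∀ u, fl (u / n) X * QQ n 1 = F u * QQ n 1 := by
  have hn := NeZero.ne n
  let G : ℝ → BOp HH := fun u => fl (-(u / n)) (F u)
  have hG : Function.Periodic G 1 := fun u => by
    simp only [G, hp, fl_add (hN u)]; congr 3; ring
  obtain ⟨C, hC⟩ := (isCompact_Icc (a := (0 : ℝ)) (b := 1)).exists_bound_of_continuousOn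
    hF.continuousOn
  obtain ⟨X, -, hX⟩ := glue (fun z => th z ^ n) (fun w => G (sc w)) (C := C)
    (fun w => by rw [norm_Ad]; exact hC _ (ex_surj w).choose_spec.1)
    fun w => QQ_comm (Ad_comm (hU _) _) w
  have h1 : X ∈ NN := mem_NN.2 fun k hk => op_ext fun ξ z => by
    have := congrArg (fun T : BOp HH => T ξ z)
      (mem_NN.1 (Ad_mem (hN (sc (th z ^ n))) (of (-(sc (th z ^ n) / n)))) k hk)
    simpa only [mul_apply_eq_comp, Rt_apply, hX, map_mul, hk, mul_one] using this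
  have h2 : Commute (UU n) X := op_ext fun ξ z => by
    have := congrArg (fun T : BOp HH => T ξ z)
      (Ad_comm (hU (sc (th z ^ n))) (of (-(sc (th z ^ n) / n)))).eq
    simpa only [UU, Circle.coe_pow, mul_apply_eq_comp, dg_apply, hX] using this
  have h3 : ∀ u, fl (u / n) X * QQ n 1 = F u * QQ n 1 := fun u => by
    have e : QQ n (1 * ex u) * X = QQ n (1 * ex u) * G u := op_ext fun ξ z => by
      simp only [mul_apply_eq_comp, QQ, pr_apply, Set.mem_ofPred_eq, one_mul, hX]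
      split_ifs with hz
      · obtain ⟨k, hk⟩ := ex_eq ((ex_sc _).trans hz)
        rw [hk, ← mul_one (k : ℝ), hG.int_mul]
      · rfl
    have := congrArg (fl (u / n)) e
    rwa [map_mul, map_mul, fl_QQ hn, fl_add (hN u), add_neg_cancel, fl_zero (hN u),
      (QQ_comm (Ad_comm h2 _) 1).eq, (QQ_comm (hU u) 1).eq] at this
  refine ⟨X, ⟨h1, h2, continuous_iff_continuousAt.2 fun t => Metric.continuousAt_iff.2
    fun ε hε => ?_⟩, h3⟩
  obtain ⟨δ, hδ, h4⟩ := Metric.uniformContinuousOn_iff.1 ((isCompact_Icc (a := n * t - 1)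
    (b := n * t + 2)).uniformContinuousOn_of_continuous hF.continuousOn) (ε / 2) (by positivity)
  have hn' : (0 : ℝ) < n := Nat.cast_pos.2 (NeZero.pos n)
  refine ⟨min δ 1 / n, by positivity, fun s hs => ?_⟩
  rw [Real.dist_eq, lt_div_iff₀ hn', lt_min_iff, ← abs_of_pos hn', ← abs_mul] at hs
  refine lt_of_le_of_lt ((dist_eq_norm _ _).trans_le (norm_blk hn ((Ad_comm h2 _).sub_right
    (Ad_comm h2 _)) fun u hu => ?_)) (half_lt_self hε)
  have e : ∀ s : ℝ, u / n + s = (u + n * s) / n := fun s => by field_simp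
  rw [map_sub, fl_add h1, fl_add h1, e, e, sub_mul, h3, h3, ← sub_mul]
  refine (norm_mul_le _ _).trans ((mul_le_of_le_one_right (norm_nonneg _)
    (pr_proj _).norm_le).trans ((dist_eq_norm _ _).ge.trans (h4 _ ?_ _ ?_ ?_).le))
  · constructor <;> linarith only [abs_lt.1 hs.2, hu.1, hu.2]
  · constructor <;> linarith [hu.1, hu.2]
  · rw [Real.dist_eq, add_sub_add_left_eq_sub, ← mul_sub, mul_comm]; exact hs.1

theorem section1 (f : ℝ → BOp HH) (hf : ContinuousOn f (Set.Icc 0 1))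
    (hN : ∀ u ∈ Set.Icc (0 : ℝ) 1, f u ∈ NN ∧ Commute (UU n) (f u)) (hp : f 1 = fl (1 / n) (f 0)) :
    ∃ X ∈ DD n, ∀ u ∈ Set.Icc (0 : ℝ) 1, fl (u / n) X * QQ n 1 = f u * QQ n 1 := by
  let F : ℝ → BOp HH := fun u => fl (⌊u⌋ / n) (f (Int.fract u))
  have hfr : ∀ u : ℝ, Int.fract u ∈ Set.Icc (0 : ℝ) 1 := fun u =>
    ⟨Int.fract_nonneg _, (Int.fract_lt_one _).le⟩
  have h1 : ∀ k : ℤ, ∀ u ∈ Set.Icc (k : ℝ) (k + 1), F u = fl (k / n) (f (u - k)) := by
    intro k u hu
    rcases hu.2.eq_or_lt with h | h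
    · have : u = ((k + 1 : ℤ) : ℝ) := by rw [h]; simp
      simp only [F, this, Int.floor_intCast, Int.fract_intCast]
      push_cast
      rw [add_sub_cancel_left, hp, fl_add (hN 0 (by simp only [Set.mem_Icc, Std.le_refl, zero_le_one, and_self])).1, add_div]
    · simp only [F, Int.fract, Int.floor_eq_iff.2 ⟨hu.1, h⟩]
  have h2 : ∀ k : ℤ, ContinuousOn F (Set.Icc (k : ℝ) (k + 1)) := fun k =>
    ((cont_hom _).comp_continuousOn (hf.comp (continuous_sub_right _).continuousOn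
      fun u hu => ⟨by linarith only [hu.1], by linarith only [hu.2]⟩)).congr (h1 k)
  obtain ⟨X, hX, h3⟩ := section0 n F (continuous_iff_continuousAt.2 fun u =>
    ((h2 (⌊u⌋ - 1)).union_of_isClosed (h2 ⌊u⌋) isClosed_Icc isClosed_Icc).continuousAt (by
      push_cast
      rw [sub_add_cancel, Set.Icc_union_Icc_eq_Icc (by linarith) (by linarith)]
      exact Icc_mem_nhds (by linarith [Int.floor_le u]) (Int.lt_floor_add_one u)))
    (fun u => Ad_mem (hN _ (hfr u)).1 _) (fun u => Ad_comm (hN _ (hfr u)).2 _) fun u => by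
      simp only [F, Int.floor_add_one, Int.fract_add_one, fl_add (hN _ (hfr u)).1]
      push_cast
      rw [add_div, add_comm]
  exact ⟨X, hX, fun u hu => by
    rw [h3, h1 0 u (by simpa only [Int.cast_zero, zero_add, Set.mem_Icc] using hu)]; simp [fl_zero (hN u hu).1]⟩

end trace


section steps

open Classical Filter Topology
open FreeGroup (of)

theorem small {x : BOp HH} (hx : x ∈ NN) (hc : Continuous fun t => fl t x) {η : ℝ} (hη : 0 < η) :
    ∀ᶠ m : ℕ in atTop, ∀ u ∈ Set.Icc (0 : ℝ) 1, ‖fl (u / (3 ^ m : ℕ)) x - x‖ ≤ η := by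
  obtain ⟨δ, hδ, h⟩ := Metric.continuousAt_iff.1 (hc.continuousAt (x := 0)) η hη
  filter_upwards [(tendsto_pow_atTop_atTop_of_one_lt (by norm_num : (1 : ℝ) < 3)).eventually_gt_atTop
    (1 / δ)] with m hm u hu
  have := h (x := u / (3 ^ m : ℕ)) (by
    rw [dist_zero_right, Real.norm_of_nonneg (div_nonneg hu.1 (by positivity)),
      div_lt_iff₀ (by positivity)]
    rw [div_lt_iff₀ hδ] at hm
    push_cast
    linarith [hu.2])
  rw [fl_zero hx, dist_eq_norm] at this
  exact this.le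

variable {n : ℕ} [NeZero n]

theorem blk_ext {x y : BOp HH} (hx : Commute (UU n) x) (hy : Commute (UU n) y)
    (h : ∀ u ∈ Set.Icc (0 : ℝ) 1, fl (u / n) x * QQ n 1 = fl (u / n) y * QQ n 1) : x = y :=
  sub_eq_zero.1 (norm_le_zero_iff.1 (norm_blk (NeZero.ne n) (hx.sub_right hy) fun u hu => by
    rw [map_sub, sub_mul, h u hu, sub_self, norm_zero]))

theorem rp_le {P T : BOp HH} (hP : IsStarProjection P) (h : P * T = T) : rp T * P = rp T := by
  refine sa_left (rp_proj T).isSelfAdjoint hP.isSelfAdjoint (rp_proj T).isSelfAdjoint ?_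
  have := mul_rp (T := T) (Y := 1 - P) (by rw [sub_mul, h, one_mul, sub_self])
  rw [sub_mul, one_mul, sub_eq_zero] at this
  exact this.symm

theorem rr_step {a b : BOp HH} (ha : a ∈ DD n) (hb : b ∈ DD n) (as : IsSelfAdjoint a)
    (bs : IsSelfAdjoint b) (hab : b * a = 0) {η : ℝ}
    (h1 : ∀ u ∈ Set.Icc (0 : ℝ) 1, ‖fl (u / n) a - a‖ ≤ η)
    (h2 : ∀ u ∈ Set.Icc (0 : ℝ) 1, ‖fl (u / n) b - b‖ ≤ η) :
    ∃ X ∈ DD n, IsSelfAdjoint X ∧ X * X = 1 ∧ ‖X * (a - b) - (a + b)‖ ≤ 12 * η := by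
  have hn := NeZero.ne n
  have hP := (tr n).proj
  have PP := hP.isIdempotentElem.eq
  have e1 : ex 1 = 1 := by simpa using ex_int 1
  have fP : fl (1 / n) (QQ n 1) = QQ n 1 := by simpa [e1] using fl_QQ hn 1 1
  have ca := QQ_comm ha.2.1 1
  have cb := QQ_comm hb.2.1 1
  have PY : QQ n 1 * (a * QQ n 1) = a * QQ n 1 := by rw [← mul_assoc, ca.eq, mul_assoc, PP]
  have PZ : QQ n 1 * (b * QQ n 1) = b * QQ n 1 := by rw [← mul_assoc, cb.eq, mul_assoc, PP]
  have hp := rp_proj (a * QQ n 1)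
  have pN := rp_mem (mul_mem ha.1 (QQ_mem n 1))
  have pP := rp_le hP PY
  have pZ : rp (a * QQ n 1) * (b * QQ n 1) = 0 :=
    sa_left hp.isSelfAdjoint ((bs.commute_iff hP.isSelfAdjoint).1 cb.symm) (.zero _)
      (mul_rp (by rw [mul_assoc, PY, ← mul_assoc, hab, zero_mul]))
  have pY := rp_mul (a * QQ n 1)
  generalize rp (a * QQ n 1) = p at *
  have hq := hp.map (fl (1 / n))
  have nP : ∀ {x : BOp HH}, ‖x‖ ≤ η → ‖x * QQ n 1‖ ≤ η := fun hx =>
    (norm_mul_le _ _).trans ((mul_le_of_le_one_right (norm_nonneg _) hP.norm_le).trans hx)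
  have nr : ∀ {r x : BOp HH}, ‖r‖ ≤ 1 → ‖x‖ ≤ η → ‖r * x‖ ≤ η := fun hr hx =>
    (norm_mul_le _ _).trans ((mul_le_of_le_one_left (norm_nonneg _) hr).trans hx)
  obtain ⟨f, fc, f0, f1, hf⟩ := (tr n).path pN (Ad_mem pN (of (1 / n))) hp hq pP
    (by rw [← fP, ← map_mul, pP]) (TT_Ad n pN (by
      rw [th_of, ex_pow, mul_one_div_cancel (Nat.cast_ne_zero.2 hn), e1])).symm PY PZ pY pZ (η := η)
    (by
      have := congrArg (fl (1 / n)) pY
      rw [map_mul, map_mul, fP] at this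
      rw [← norm_neg]
      refine le_of_eq_of_le (congrArg norm ?_) (nr hq.one_sub.norm_le (nP (h1 1 (by simp only [Set.mem_Icc, zero_le_one, Std.le_refl, and_self]))))
      rw [sub_mul, sub_mul, mul_sub, mul_sub, this]; noncomm_ring)
    (by
      have := congrArg (fl (1 / n)) pZ
      rw [map_mul, map_mul, fP, map_zero] at this
      rw [← norm_neg]
      refine le_of_eq_of_le (congrArg norm ?_) (nr hq.norm_le (nP (h2 1 (by simp only [Set.mem_Icc, zero_le_one, Std.le_refl, and_self]))))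
      rw [sub_mul, mul_sub, this, zero_sub])
  have Pf : ∀ u, QQ n 1 * f u = f u := fun u =>
    sa_left hP.isSelfAdjoint (hf u).2.1 (hf u).2.1 (hf u).2.2.2.1
  obtain ⟨X, hX, h3⟩ := section1 n f fc.continuousOn
    (fun u _ => ⟨(hf u).1, corner (Pf u) (hf u).2.2.2.1⟩)
    (by rw [f0, f1, map_sub, map_add, fP])
  have h4 : ∀ u ∈ Set.Icc (0 : ℝ) 1, fl (u / n) X * QQ n 1 = f u := fun u hu =>
    (h3 u hu).trans (hf u).2.2.2.1
  have h5 : ∀ u ∈ Set.Icc (0 : ℝ) 1, ∀ y, Commute (UU n) y →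
      fl (u / n) (X * y) * QQ n 1 = f u * (fl (u / n) y * QQ n 1) := fun u hu y hy => by
    rw [← h4 u hu, map_mul, mul_assoc, mul_assoc, ← mul_assoc (QQ n 1),
      (QQ_comm (Ad_comm hy _) 1).eq, mul_assoc, PP]
  refine ⟨X, hX, blk_ext (star_mem hX).2.1 hX.2.1 fun u hu => ?_,
    blk_ext (mul_mem hX hX).2.1 (Commute.one_right _) fun u hu => ?_,
    norm_blk hn (sub_mem (mul_mem hX (sub_mem ha hb)) (add_mem ha hb)).2.1 fun u hu => ?_⟩
  · rw [map_star, ← hP.isSelfAdjoint.star_eq, ← star_mul, hP.isSelfAdjoint.star_eq,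
      (QQ_comm (Ad_comm hX.2.1 _) 1).eq, h4 u hu, (hf u).2.1.star_eq]
  · rw [h5 u hu X hX.2.1, h4 u hu, (hf u).2.2.1, map_one, one_mul]
  · have nf : ‖f u‖ ≤ 1 := by
      rw [mul_self_le_mul_self_iff (norm_nonneg _) zero_le_one, ← CStarRing.norm_star_mul_self,
        (hf u).2.1.star_eq, (hf u).2.2.1, one_mul]
      exact hP.norm_le
    have b1 := nP (h1 u hu)
    have b2 := nP (h2 u hu)
    have b3 := nr nf b1
    have b4 := nr nf b2
    have b5 := (hf u).2.2.2.2
    rw [map_sub, sub_mul, h5 u hu _ (sub_mem ha hb).2.1, map_sub, map_add]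
    generalize fl (u / n) a = a' at *
    generalize fl (u / n) b = b' at *
    rw [show f u * ((a' - b') * QQ n 1) - (a' + b') * QQ n 1 =
      (f u * (a * QQ n 1 - b * QQ n 1) - (a * QQ n 1 + b * QQ n 1)) +
      ((f u * ((a' - a) * QQ n 1) - f u * ((b' - b) * QQ n 1)) -
        ((a' - a) * QQ n 1 + (b' - b) * QQ n 1)) by noncomm_ring]
    refine (norm_add_le _ _).trans ((add_le_add_right ((norm_sub_le _ _).trans
      (add_le_add (norm_sub_le _ _) (norm_add_le _ _))) _).trans (by linarith only [b5, b1, b3, b2, b4]))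

theorem cut_sub (E : StarSubalgebra ℂ (BOp HH)) [IsClosed (E : Set (BOp HH))] {x : BOp HH}
    (hx : x ∈ E) (xs : IsSelfAdjoint x) (h : 1 / 2 < ‖x‖) :
    ∃ e ∈ E, ∃ k ∈ E, e ≠ 0 ∧ k * x * e = e ∧ ‖k‖ ≤ 2 := by
  obtain ⟨e, k, h1, h2, h3⟩ := exists_cut (C := E) ⟨x, hx⟩ (Subtype.ext xs) h
  exact ⟨e, e.2, k, k.2, fun h => h1 (Subtype.ext h), congrArg Subtype.val h2, h3⟩

theorem full_step {x : BOp HH} (hx : x ∈ DD n) (xs : IsSelfAdjoint x) (x1 : ‖x‖ = 1)
    (h : ∀ u ∈ Set.Icc (0 : ℝ) 1, ‖fl (u / n) x - x‖ ≤ 1 / 4) (J : AddSubmonoid (BOp HH))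
    (hJ : ∀ a ∈ DD n, ∀ b ∈ DD n, a * x * b ∈ J) : (1 - UU n) * (1 - UU n) ∈ J := by
  have hn := NeZero.ne n
  have hP := (tr n).proj
  have PP := hP.isIdempotentElem.eq
  have cx := QQ_comm hx.2.1 1
  have nP : ∀ {y : BOp HH} {η : ℝ}, ‖y‖ ≤ η → ‖y * QQ n 1‖ ≤ η := fun hx =>
    (norm_mul_le _ _).trans ((mul_le_of_le_one_right (norm_nonneg _) hP.norm_le).trans hx)
  have h1 : 1 / 2 < ‖x * QQ n 1‖ := by
    by_contra hc
    have := norm_blk hn hx.2.1 (C := 3 / 4) fun u hu => by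
      have h2 := norm_add_le ((fl (u / n) x - x) * QQ n 1) (x * QQ n 1)
      rw [← add_mul, sub_add_cancel] at h2
      linarith only [nP (h u hu), hc, h2]
    linarith only [x1, this]
  haveI := closed_NN
  obtain ⟨e, eN, k, kN, e0, he', k2⟩ := cut_sub NN (mul_mem hx.1 (QQ_mem n 1))
    ((xs.commute_iff hP.isSelfAdjoint).1 cx.symm) h1
  have k2' : ‖QQ n 1 * k‖ ≤ 2 :=
    (norm_mul_le _ _).trans ((mul_le_of_le_one_left (norm_nonneg _) hP.norm_le).trans k2)
  have he2 : k * (x * QQ n 1) * (QQ n 1 * e) = e := by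
    rw [mul_assoc k, mul_assoc x, ← mul_assoc (QQ n 1), PP, ← mul_assoc x, ← mul_assoc, he']
  have hq := rp_proj (QQ n 1 * e)
  have qN := rp_mem (mul_mem (QQ_mem n 1) eN)
  have qP := rp_le hP (T := QQ n 1 * e) (by rw [← mul_assoc, PP])
  have q0 : rp (QQ n 1 * e) ≠ 0 := fun h0 => e0 (by
    have := rp_mul (QQ n 1 * e)
    rw [h0, zero_mul] at this
    rw [← this, mul_zero] at he2
    exact he2.symm)
  have kq : (QQ n 1 * k * (x * QQ n 1) - 1) * rp (QQ n 1 * e) = 0 :=
    mul_rp (by rw [sub_mul, mul_assoc (QQ n 1), mul_assoc (QQ n 1), he2, one_mul, sub_self])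
  generalize rp (QQ n 1 * e) = q at *
  have kN' := mul_mem (QQ_mem n 1) kN
  generalize QQ n 1 * k = k' at *
  let z : ℝ → BOp HH := fun u => 1 + k' * ((fl (u / n) x - x) * QQ n 1)
  have zc : Continuous z := by
    have := hx.2.2.comp (continuous_id.div_const (n : ℝ))
    exact continuous_const.add (continuous_const.mul ((this.sub continuous_const).mul
      continuous_const))
  have zu : ∀ u ∈ Set.Icc (0 : ℝ) 1, IsUnit (z u) := fun u hu => isUnit_of_norm_one_sub_lt (by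
    simp only [z, sub_add_cancel_left, norm_neg]
    refine (norm_mul_le _ _).trans_lt ?_
    nlinarith only [nP (h u hu), norm_nonneg ((fl (u / n) x - x) * QQ n 1), k2'])
  have wc : ContinuousOn (fun u => Ring.inverse (z u)) (Set.Icc 0 1) := fun u hu =>
    (ContinuousAt.comp (g := Ring.inverse) ((zu u hu).unit_spec ▸
      NormedRing.inverse_continuousAt (zu u hu).unit) zc.continuousAt).continuousWithinAt
  have wN : ∀ u ∈ Set.Icc (0 : ℝ) 1, Ring.inverse (z u) ∈ NN := fun u hu => mem_NN.2 fun g hg => by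
    have h2 : Commute (Rt g) (z u) := mem_NN.1 (add_mem (one_mem _) (mul_mem kN'
      (mul_mem (sub_mem (Ad_mem hx.1 _) hx.1) (QQ_mem n 1)))) g hg
    rw [← (zu u hu).unit_spec] at h2 ⊢
    rw [Ring.inverse_unit]
    exact h2.units_inv_right
  let c : ℝ → ℂ := fun u => 1 - ex u
  have cc : Continuous c := by have := continuous_ex; fun_prop
  have c0 : c 0 = 0 := by simp only [c, ex, Circle.coe_exp, Complex.ofReal_mul, Complex.ofReal_ofNat, Complex.ofReal_zero, mul_zero, zero_mul, Complex.exp_zero, sub_self]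
  have c1 : c 1 = 0 := by simp only [c, ex, Circle.coe_exp, Complex.ofReal_mul, Complex.ofReal_ofNat, Complex.ofReal_one, mul_one, Complex.exp_two_pi_mul_I, sub_self]
  let J' : AddSubmonoid (BOp HH) :=
    { carrier := {y | ∃ X ∈ J, X ∈ DD n ∧ ∀ u ∈ Set.Icc (0 : ℝ) 1,
        fl (u / n) X * QQ n 1 = (c u * c u) • y}
      add_mem' := by
        rintro _ _ ⟨X, h1, h2, h3⟩ ⟨Y, h4, h5, h6⟩
        exact ⟨X + Y, add_mem h1 h4, add_mem h2 h5, fun u hu => by
          rw [map_add, add_mul, h3 u hu, h6 u hu, smul_add]⟩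
      zero_mem' := ⟨0, zero_mem _, zero_mem _, by simp⟩ }
  obtain ⟨X, h2, h3, h4⟩ := (tr n).cover qN hq qP q0 J' fun v vN qv Pv vP => by
    have Pv' : QQ n 1 * star v = star v := by
      simpa only [star_mul, hP.isSelfAdjoint.star_eq] using congrArg star vP
    obtain ⟨A, hA, h5⟩ := section1 n (fun u => c u • (star v * Ring.inverse (z u) * k' * QQ n 1))
      (cc.continuousOn.smul (((continuousOn_const.mul wc).mul continuousOn_const).mul
        continuousOn_const))
      (fun u hu => ⟨SMulMemClass.smul_mem _ (mul_mem (mul_mem (mul_mem (star_mem vN) (wN u hu)) kN')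
        (QQ_mem n 1)), (corner (by simp only [← mul_assoc, Pv']) (by
          rw [mul_assoc, PP])).smul_right _⟩) (by simp only [c1, zero_smul, one_div, c0, map_zero])
    obtain ⟨B, hB, h6⟩ := section1 n (fun u => c u • v) (cc.continuousOn.smul continuousOn_const)
      (fun u hu => ⟨SMulMemClass.smul_mem _ vN, (corner Pv vP).smul_right _⟩) (by simp [c0, c1])
    refine ⟨A * x * B, hJ A hA B hB, mul_mem (mul_mem hA hx) hB, fun u hu => ?_⟩
    have e1 : k' * (fl (u / n) x * QQ n 1) * v = z u * v := by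
      have e0 : (k' * (x * QQ n 1) - 1) * v = 0 := by rw [← qv, ← mul_assoc, kq, zero_mul]
      rw [← add_zero (k' * _ * v), ← neg_zero, ← e0]
      simp only [z]; noncomm_ring
    have e2 := (QQ_comm (Ad_comm hx.2.1 (of (u / n))) 1).eq
    rw [map_mul, map_mul, mul_assoc, h6 u hu, smul_mul_assoc, vP, ← Pv, ← mul_smul_comm,
      ← mul_assoc, mul_assoc _ _ (QQ n 1), ← e2, ← mul_assoc, h5 u hu, Pv]
    simp only [smul_mul_assoc, mul_smul_comm, smul_smul, mul_assoc, PP]
    rw [← mul_assoc (QQ n 1), e2, ← mul_assoc k', e1, ← mul_assoc (Ring.inverse _),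
      Ring.inverse_mul_cancel _ (zu u hu), one_mul]
  have h5 := sub_mem (one_mem (DD n)) (UU_mem n n)
  rwa [blk_ext (mul_mem h5 h5).2.1 h3.2.1 fun u hu => ?_]
  have e : fl (u / n) (1 - UU n) * QQ n 1 = c u • QQ n 1 := by
    rw [map_sub, map_one, Ad_UU, sub_mul, smul_mul_assoc, UU_QQ, th_of, ex_pow,
      mul_div_cancel₀ u (Nat.cast_ne_zero.2 hn), one_mul, sub_smul, one_smul]
  rw [h4 u hu, map_mul, mul_assoc, e, mul_smul_comm, e, smul_smul]

end steps


section abstr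

theorem ded {B : Type} [CStarAlgebra B] (h : ∀ v : B, star v * v = 1 → v * star v = 1) {a b : B}
    (hab : a * b = 1) : b * a = 1 := by
  letI : PartialOrder B := CStarAlgebra.spectralOrder B
  haveI : StarOrderedRing B := CStarAlgebra.spectralOrderedRing B
  have h1 := CStarAlgebra.star_left_conjugate_le_norm_smul (a := b) (IsSelfAdjoint.star_mul_self a)
  rw [mul_assoc, mul_assoc, hab, mul_one, ← star_mul, hab, star_one] at h1
  have h2 := CStarAlgebra.isUnit_of_le 1 h1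
  rw [Algebra.smul_def, (Algebra.commute_algebraMap_left _ _).isUnit_mul_iff] at h2
  have h3 := star_mul_self_nonneg b
  obtain ⟨w, hw⟩ := (CFC.isUnit_sqrt_iff _ h3).2 h2.2
  have h4 : star (w : B) = w := hw ▸ (CFC.sqrt_nonneg _).isSelfAdjoint
  have h5 := h (b * ↑w⁻¹) (by
    rw [star_mul, mul_assoc, ← mul_assoc (star b), ← CFC.sqrt_mul_sqrt_self _ h3, ← hw, mul_assoc,
      Units.mul_inv, mul_one, ← h4, ← star_mul, Units.mul_inv, star_one])
  rw [mul_assoc] at h5
  rw [left_inv_eq_right_inv hab h5, h5]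

theorem sf_ring {E : Type} [CStarAlgebra E] (h : IsStablyFiniteCStar E) :
    IsStablyFiniteRing E := by
  letI : PartialOrder E := CStarAlgebra.spectralOrder E
  haveI : StarOrderedRing E := CStarAlgebra.spectralOrderedRing E
  exact ⟨fun k => ⟨ded (B := CStarMatrix (Fin k) (Fin k) E) (h k)⟩⟩

theorem sf_of_traces {E ι : Type} [CStarAlgebra E] (τ : ι → E →+ ℝ)
    (hc : ∀ i v, τ i (star v * v) = τ i (v * star v)) (hp : ∀ i v, 0 ≤ τ i (star v * v))
    (hf : ∀ v, (∀ i, τ i (star v * v) = 0) → v = 0) : IsStablyFiniteCStar E := by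
  intro k v hv
  have h1 : star (1 - v * star v) * (1 - v * star v) = 1 - v * star v := by
    rw [star_sub, star_one, star_mul, star_star, sub_mul, mul_sub, mul_sub,
      mul_assoc v _ (v * _), ← mul_assoc (star v), hv]
    simp only [mul_one, one_mul, sub_self, sub_zero]
  have h2 : ∀ i, ∑ a, τ i ((1 - v * star v) a a) = 0 := fun i => by
    rw [← hv]
    nth_rewrite 2 [← star_star v]
    simp only [Matrix.sub_apply, Matrix.mul_apply, Matrix.star_apply, map_sub, map_sum, star_star,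
      Finset.sum_sub_distrib, hc]
    rw [Finset.sum_comm, sub_self]
  refine (sub_eq_zero.1 (Matrix.ext fun a b => hf _ fun i => ?_)).symm
  have h3 := h2 i
  rw [← h1] at h3
  simp only [Matrix.mul_apply (M := star (1 - v * star v)), Matrix.star_apply, map_sum] at h3
  exact (Finset.sum_eq_zero_iff_of_nonneg fun _ _ => hp i _).1
    ((Finset.sum_eq_zero_iff_of_nonneg fun _ _ => Finset.sum_nonneg fun _ _ => hp i _).1 h3 b
      (Finset.mem_univ _)) a (Finset.mem_univ _)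

theorem dense_rr {C : Type} [CStarAlgebra C] {S : Set C} (hS : Dense S)
    (h : ∀ d ∈ S, ∀ ε : ℝ, 0 < ε → ∃ y : C, IsSelfAdjoint y ∧ IsUnit y ∧
      ‖(1 / 2 : ℂ) • (d + star d) - y‖ < ε) (x : C) (hx : IsSelfAdjoint x)
    (ε : ℝ) (hε : 0 < ε) : ∃ y : C, IsSelfAdjoint y ∧ IsUnit y ∧ ‖x - y‖ < ε := by
  obtain ⟨d, hdS, hd⟩ := hS.exists_dist_lt x (half_pos hε)
  obtain ⟨y, h1, h2, h3⟩ := h d hdS (ε / 2) (half_pos hε)
  refine ⟨y, h1, h2, ?_⟩
  have h4 : x - y = (1 / 2 : ℂ) • ((x - d) + star (x - d)) + ((1 / 2 : ℂ) • (d + star d) - y) := by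
    rw [star_sub, hx.star_eq]; module
  have h5 := norm_add_le (x - d) (star (x - d))
  rw [h4]
  refine (norm_add_le _ _).trans_lt ?_
  rw [norm_star] at h5
  rw [dist_eq_norm] at hd
  rw [norm_smul, show ‖(1 / 2 : ℂ)‖ = 1 / 2 by simp]
  linarith only [hd, h3, h5]

theorem half_sa {C : Type} [CStarAlgebra C] (d : C) :
    IsSelfAdjoint ((1 / 2 : ℂ) • (d + star d)) := by
  rw [IsSelfAdjoint, star_smul, star_add, star_star, add_comm]; simp only [one_div, star_inv₀, star_ofNat, smul_add]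

theorem close {X : Type} (U : Set X) (R : X → X → Set X → Prop)
    (h : ∀ x ∈ U, ∀ y ∈ U, ∃ T : Set X, T.Countable ∧ T ⊆ U ∧ R x y T) {S0 : Set X}
    (h0 : S0.Countable) (h1 : S0 ⊆ U) :
    ∃ S : Set X, S.Countable ∧ S0 ⊆ S ∧ S ⊆ U ∧ ∀ x ∈ S, ∀ y ∈ S, ∃ T ⊆ S, R x y T := by
  choose! W h2 h3 h4 using h
  let S : ℕ → Set X := Nat.rec S0 fun _ S => S ∪ ⋃ x ∈ S, ⋃ y ∈ S, W x y
  have key : ∀ k, (S k).Countable ∧ S k ⊆ U := fun k => by
    induction k with
    | zero => exact ⟨h0, h1⟩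
    | succ k ih =>
      exact ⟨ih.1.union (ih.1.biUnion fun x hx => ih.1.biUnion fun y hy => h2 x (ih.2 hx) y (ih.2 hy)),
        Set.union_subset ih.2 (Set.iUnion₂_subset fun x hx => Set.iUnion₂_subset fun y hy =>
          h3 x (ih.2 hx) y (ih.2 hy))⟩
  have mono : Monotone S := monotone_nat_of_le_succ fun k => Set.subset_union_left
  refine ⟨⋃ k, S k, Set.countable_iUnion fun k => (key k).1, Set.subset_iUnion S 0,
    Set.iUnion_subset fun k => (key k).2, fun x hx y hy => ?_⟩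
  obtain ⟨i, hi⟩ := Set.mem_iUnion.1 hx
  obtain ⟨j, hj⟩ := Set.mem_iUnion.1 hy
  refine ⟨W x y, fun z hz => Set.mem_iUnion.2 ⟨max i j + 1, Or.inr ?_⟩,
    h4 x ((key i).2 hi) y ((key j).2 hj)⟩
  exact Set.mem_biUnion (mono (le_max_left i j) hi) (Set.mem_biUnion (mono (le_max_right i j) hj) hz)

theorem dense_simple {C : Type} [CStarAlgebra C] [Nontrivial C] {S : Set C} (hS : Dense S)
    (h : ∀ d ∈ S, 1 / 2 < ‖star d * d‖ → ∃ e k : C, k * (star d * d) * e = e ∧ ‖k‖ ≤ 2 ∧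
      ∀ I : TwoSidedIdeal C, e ∈ I → (1 : C) ∈ I) : IsSimpleCStar C := by
  refine ⟨inferInstance, fun I _ => or_iff_not_imp_left.2 fun hI => ?_⟩
  obtain ⟨x0, hx0, hne⟩ : ∃ x ∈ I, x ≠ 0 := by
    by_contra hcon
    push Not at hcon
    exact hI (eq_bot_iff.mpr fun x hx => by rw [hcon x hx]; exact TwoSidedIdeal.zero_mem _)
  obtain ⟨x, hx, hx1⟩ : ∃ x ∈ I, ‖x‖ = 1 := ⟨((‖x0‖⁻¹ : ℝ) : ℂ) • x0, by
    rw [Algebra.smul_def]; exact I.mul_mem_left _ _ hx0, by
    rw [norm_smul]; simp [norm_ne_zero_iff.mpr hne]⟩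
  obtain ⟨d, hdS, hd⟩ := hS.exists_dist_lt x (by norm_num : (0 : ℝ) < 1 / 8)
  rw [dist_eq_norm] at hd
  have hd1 := abs_le.1 (abs_norm_sub_norm_le x d)
  obtain ⟨e, k, hae, hk, he⟩ := h d hdS (by rw [CStarRing.norm_star_mul_self]; nlinarith only [hx1, hd, hd1])
  obtain ⟨u, hu⟩ : IsUnit (1 - k * (star d * (d - x))) := isUnit_of_norm_one_sub_lt (by
    have h1 : ‖k * (star d * (d - x))‖ ≤ ‖k‖ * (‖star d‖ * ‖d - x‖) :=
      (norm_mul_le _ _).trans (by gcongr; exact norm_mul_le _ _)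
    rw [norm_star, norm_sub_rev] at h1
    have h2 : ‖k‖ * (‖d‖ * ‖x - d‖) ≤ 2 * (9 / 8 * (1 / 8)) := by gcongr; linarith only [hx1, hd, hd1]
    rw [sub_sub_cancel]; linarith only [h1, h2])
  have := I.mul_mem_left (↑u⁻¹ : C) _ (I.mul_mem_right _ e (I.mul_mem_left (k * star d) _ hx))
  rw [show k * star d * x * e = u * e by
    rw [hu, sub_mul, one_mul]; nth_rewrite 2 [← hae]; noncomm_ring, Units.inv_mul_cancel_left] at this
  exact TwoSidedIdeal.one_mem_iff I |>.mp (he I this)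

theorem rokhlin_one {C : Type} [CStarAlgebra C] (β : ℤˣ →* StarAut C) (r : ℕ → C)
    (h1 : ∀ n, IsSelfAdjoint (r n)) (h2 : ∀ n, r n * r n = 1)
    (h3 : ∀ n g, β g (r n) = ((g : ℤ) : ℂ) • r n) {D : ℕ → Type} [∀ n, CStarAlgebra (D n)]
    {f : ∀ n, D n →⋆ₐ[ℂ] C} (hf : IsLim f) (h4 : ∀ n x, Commute (r n) (f n x)) : HasRokhlin β := by
  intro F ε hε
  obtain ⟨n, x, hx⟩ := hf.dense_fin (fun a : F => a.1) (ε / 2) (half_pos hε)
  refine ⟨halfProj (r n), halfProj_proj (h1 n) (h2 n), fun g h => halfProj_orth (h2 n),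
    fun g h => by rw [Action.app, halfProj_map _ g h (h3 n g)]; simpa using hε,
    fun g a ha => ?_, halfProj_sum _⟩
  have h5 := (halfProj_proj (h1 n) (h2 n) g).norm_le
  have h6 := (halfProj_commute (h4 n (x ⟨a, ha⟩)) g).eq
  have h7 := hx ⟨a, ha⟩
  generalize halfProj (r n) g = e at *
  generalize f n (x ⟨a, ha⟩) = c at *
  rw [show e * a - a * e = e * (a - c) - (a - c) * e by rw [mul_sub, sub_mul, h6]; abel]
  have h8 : ‖e * (a - c)‖ ≤ 1 * ‖a - c‖ := (norm_mul_le _ _).trans (by gcongr)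
  have h9 : ‖(a - c) * e‖ ≤ ‖a - c‖ * 1 := (norm_mul_le _ _).trans (by gcongr)
  linarith only [norm_sub_le (e * (a - c)) ((a - c) * e), h7, h8, h9]

theorem exists_parts {E : Type} [CStarAlgebra E] {x : E} (hx : IsSelfAdjoint x) :
    ∃ (a b : E) (l : ℝ), IsSelfAdjoint a ∧ IsSelfAdjoint b ∧ a - b = x ∧ b * a = 0 ∧ 0 ≤ l ∧
      ‖(l : ℂ) • (1 : E) - (a + b)‖ ≤ l := by
  letI : PartialOrder E := CStarAlgebra.spectralOrder E
  haveI : StarOrderedRing E := CStarAlgebra.spectralOrderedRing E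
  have h := add_nonneg (CFC.posPart_nonneg x) (CFC.negPart_nonneg x)
  refine ⟨x⁺, x⁻, ‖x⁺ + x⁻‖, (CFC.posPart_nonneg x).isSelfAdjoint,
    (CFC.negPart_nonneg x).isSelfAdjoint, CFC.posPart_sub_negPart x hx,
    CFC.negPart_mul_posPart x, norm_nonneg _, ?_⟩
  rw [Complex.coe_smul, ← Algebra.algebraMap_eq_smul_one, CStarAlgebra.norm_le_iff_le_algebraMap _
    (norm_nonneg _) (sub_nonneg.mpr (IsSelfAdjoint.le_algebraMap_norm_self h.isSelfAdjoint))]
  simpa only [tsub_le_iff_right, le_add_iff_nonneg_right] using h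

theorem unit_of {E : Type} [CStarAlgebra E] {x X c : E} {l κ : ℝ} (hl : 0 ≤ l) (hκ : 0 < κ)
    (hX : X * X = 1) (h1 : ‖(l : ℂ) • (1 : E) - c‖ ≤ l) (h2 : ‖X * x - c‖ < κ) :
    IsUnit (x + (κ : ℂ) • X) := by
  have h0 : ((l + κ : ℝ) : ℂ) ≠ 0 := by exact_mod_cast (by linarith : l + κ ≠ 0)
  have h3 : IsUnit (((l + κ : ℝ) : ℂ)⁻¹ • (X * x + (κ : ℂ) • 1)) := isUnit_of_norm_one_sub_lt (by
    have : 1 - ((l + κ : ℝ) : ℂ)⁻¹ • (X * x + (κ : ℂ) • 1) =
        ((l + κ : ℝ) : ℂ)⁻¹ • (((l : ℂ) • (1 : E) - c) - (X * x - c)) := by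
      nth_rewrite 1 [← inv_smul_smul₀ h0 (1 : E)]
      push_cast; module
    rw [this, norm_smul, norm_inv, Complex.norm_real, Real.norm_of_nonneg (by linarith only [hl, hκ]),
      inv_mul_lt_one₀ (by linarith)]
    linarith [norm_sub_le ((l : ℂ) • (1 : E) - c) (X * x - c)])
  have h4 := ((IsUnit.mk0 _ h0).map (algebraMap ℂ E)).mul h3
  rw [← Algebra.smul_def, smul_inv_smul₀ h0] at h4
  simpa [mul_add, ← mul_assoc, hX] using IsUnit.mul (⟨⟨X, X, hX, hX⟩, rfl⟩ : IsUnit X) h4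

end abstr

section lim

open Classical Filter Topology
open FreeGroup (of)

theorem DD_mono : Monotone fun m : ℕ => DD (3 ^ m) :=
  monotone_nat_of_le_succ fun m => DD_le (3 ^ m) 3

/-- The union of the mapping torus algebras. -/
noncomputable def UD : StarSubalgebra ℂ (BOp HH) := ⨆ m : ℕ, DD (3 ^ m)

theorem mem_UD {x : BOp HH} : x ∈ UD ↔ ∃ m, x ∈ DD (3 ^ m) := by
  rw [← SetLike.mem_coe, UD, StarSubalgebra.coe_iSup_of_directed DD_mono.directed_le,
    Set.mem_iUnion]
  rfl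

instance : Nontrivial (BOp HH) := ⟨1, 0, fun h => by
  simpa only [one_apply_eq_self, norm_dl, zero_apply, norm_zero, one_ne_zero] using congrArg (fun x : BOp HH => ‖x (dl 1)‖) h⟩

theorem DD_sf (n : ℕ) [NeZero n] : IsStablyFiniteRing (DD n) := sf_ring (sf_of_traces
  (fun g : FG => (TT n).comp (((Ad g).comp (DD n).subtype : _ →⋆ₐ[ℂ] _) : _ →+ _))
  (fun g v => by simpa only [AddMonoidHom.coe_comp, AddMonoidHom.coe_coe, StarAlgHom.coe_comp, StarSubalgebra.coe_subtype, Function.comp_apply, MulMemClass.coe_mul, StarMemClass.coe_star, map_mul, map_star] using TT_comm _ (Ad_mem v.2.1 g) (Ad_comm v.2.2.1 g))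
  (fun g v => by simpa only [AddMonoidHom.coe_comp, AddMonoidHom.coe_coe, StarAlgHom.coe_comp, StarSubalgebra.coe_subtype, Function.comp_apply, MulMemClass.coe_mul, StarMemClass.coe_star, map_mul, map_star] using TT_nonneg n (Ad g v))
  fun v h => Subtype.ext (dl_ext fun g => by
    have h1 := congrArg (fun T : BOp HH => ‖T (dl 1)‖)
      (TT_faith n (Ad_mem v.2.1 g) (by simpa only [AddMonoidHom.coe_comp, AddMonoidHom.coe_coe, StarAlgHom.coe_comp, StarSubalgebra.coe_subtype, Function.comp_apply, MulMemClass.coe_mul, StarMemClass.coe_star, map_mul, map_star] using h g))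
    simpa only [ZeroMemClass.coe_zero, zero_apply, Ad_apply, QQ, mul_apply_eq_comp, pr_dl, Set.mem_ofPred_eq, map_one, one_pow, ↓ reduceIte, Rt_dl, inv_inv, one_mul, norm_Rt, norm_zero, norm_eq_zero] using h1))

theorem UD_rr {x : BOp HH} (hx : x ∈ UD) (xs : IsSelfAdjoint x) {ε : ℝ} (hε : 0 < ε) :
    ∃ y ∈ UD, ∃ z ∈ UD, IsSelfAdjoint y ∧ y * z = 1 ∧ z * y = 1 ∧ ‖x - y‖ < ε := by
  obtain ⟨m, hm⟩ := mem_UD.1 hx
  obtain ⟨a, b, l, as, bs, h0, hab, hl, h1⟩ := exists_parts (E := DD (3 ^ m)) (x := ⟨x, hm⟩)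
    (Subtype.ext xs)
  obtain rfl : a.1 - b.1 = x := congrArg Subtype.val h0
  obtain ⟨k, ⟨h2, h3⟩, h4⟩ := (((small a.2.1 a.2.2.2 (η := ε / 26) (by positivity)).and
    (small b.2.1 b.2.2.2 (η := ε / 26) (by positivity))).and (eventually_ge_atTop m)).exists
  obtain ⟨X, hX, h5, h6, h7⟩ := rr_step (DD_mono h4 a.2) (DD_mono h4 b.2) (congrArg Subtype.val as)
    (congrArg Subtype.val bs) (congrArg Subtype.val hab) h2 h3
  obtain ⟨u, hu⟩ := unit_of (E := DD (3 ^ k)) (x := ⟨_, DD_mono h4 hm⟩) (X := ⟨X, hX⟩)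
    (c := ⟨_, DD_mono h4 (a + b).2⟩) hl (half_pos hε) (Subtype.ext h6) h1
    (h7.trans_lt (by linarith only [hε]))
  have hu' : u.1.1 = a.1 - b.1 + ((ε / 2 : ℝ) : ℂ) • X := congrArg Subtype.val hu
  refine ⟨u.1, mem_UD.2 ⟨k, u.1.2⟩, u.2, mem_UD.2 ⟨k, u.2.2⟩, ?_, congrArg Subtype.val u.3,
    congrArg Subtype.val u.4, ?_⟩
  · exact hu' ▸ xs.add (IsSelfAdjoint.smul (by simp [IsSelfAdjoint]) h5)
  · have h8 : ‖X‖ = 1 := CStarRing.norm_of_mem_unitary ⟨h5.star_eq.symm ▸ h6, h5.star_eq.symm ▸ h6⟩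
    rw [hu', sub_add_cancel_left, norm_neg, norm_smul, h8, Complex.norm_real,
      Real.norm_of_nonneg (by positivity)]
    linarith only [hε]

theorem ex_third : ex (1 / 3) ^ 3 = 1 := by rw [ex_pow]; simpa using ex_int 1

theorem ex_third' : (ex (1 / 3) : ℂ) - 1 ≠ 0 := fun h => by
  obtain ⟨j, hj⟩ := ex_eq (s := 1 / 3) (t := 0) (Subtype.ext (by simpa only [ex, one_div, Circle.coe_exp, Complex.ofReal_mul, Complex.ofReal_ofNat, Complex.ofReal_inv, mul_zero, Circle.exp_zero, Circle.coe_one] using sub_eq_zero.1 h))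
  have : (1 : ℤ) = 3 * j := by exact_mod_cast (by linarith only [hj] : (1 : ℝ) = 3 * j)
  omega

theorem UD_full {e : BOp HH} (he : e ∈ UD) (h0 : e ≠ 0) (I : TwoSidedIdeal UD)
    (hI : ⟨e, he⟩ ∈ I) : 1 ∈ I := by
  obtain ⟨m, hm⟩ := mem_UD.1 he
  have h0 : ‖e‖ ≠ 0 := norm_ne_zero_iff.2 h0
  let x : BOp HH := (((‖e‖ * ‖e‖)⁻¹ : ℝ) : ℂ) • (star e * e)
  have xD : x ∈ DD (3 ^ m) := SMulMemClass.smul_mem _ (mul_mem (star_mem hm) hm)
  have xs : IsSelfAdjoint x := by simp only [IsSelfAdjoint, x, Complex.coe_smul, mul_inv_rev, star_smul, star_trivial, star_mul, star_star]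
  have x1 : ‖x‖ = 1 := by
    rw [norm_smul, CStarRing.norm_star_mul_self, Complex.norm_real, Real.norm_of_nonneg
      (by positivity), inv_mul_cancel₀ (mul_ne_zero h0 h0)]
  have xI : (((‖e‖ * ‖e‖)⁻¹ : ℝ) : ℂ) • (star (⟨e, he⟩ : UD) * ⟨e, he⟩) ∈ I := by
    rw [Algebra.smul_def]
    exact I.mul_mem_left _ _ (I.mul_mem_left _ _ hI)
  obtain ⟨k, h2, h4⟩ := ((small xD.1 xD.2.2 (η := 1 / 4) (by positivity)).and
    (eventually_ge_atTop m)).exists
  let J : AddSubmonoid (BOp HH) :=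
    { carrier := {y | ∃ a ∈ I, a.1 = y}
      add_mem' := by rintro _ _ ⟨a, ha, rfl⟩ ⟨b, hb, rfl⟩; exact ⟨a + b, I.add_mem ha hb, rfl⟩
      zero_mem' := ⟨0, I.zero_mem, rfl⟩ }
  obtain ⟨w, hw, h5⟩ := full_step (DD_mono h4 xD) xs x1 h2 J fun a ha b hb =>
    ⟨_, I.mul_mem_right _ ⟨b, mem_UD.2 ⟨k, hb⟩⟩ (I.mul_mem_left ⟨a, mem_UD.2 ⟨k, ha⟩⟩ _ xI), rfl⟩
  have hL : ∀ g, (th g ^ 3 ^ k) ^ 3 = 1 → Lt g ∈ UD := fun g hg => mem_UD.2 ⟨k + 1, Lt_mem g,
    op_ext fun ξ z => by
      have : th (g⁻¹ * z) ^ 3 ^ (k + 1) = th z ^ 3 ^ (k + 1) := by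
        rw [map_mul, mul_pow, map_inv, inv_pow, pow_succ, pow_mul, hg, inv_one, one_mul]
      simp only [UU, mul_apply_eq_comp, dg_apply, Lt_apply, this], by
    simpa only [Ad_Lt] using continuous_const⟩
  obtain ⟨g, hg⟩ : ∃ g, th g ^ 3 ^ k = ex (1 / 3) := ⟨of (1 / 3 / (3 ^ k : ℕ)), by
    rw [th_of, ex_pow, mul_div_cancel₀ _ (by positivity)]⟩
  have e1 := ex_third
  have e2 : (ex (1 / 3) : ℂ) ^ 2 + ex (1 / 3) + 1 = 0 := by
    refine mul_left_cancel₀ ex_third' ?_
    have := congrArg (fun z : Circle => (z : ℂ)) e1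
    simp only [Circle.coe_pow, Circle.coe_one] at this
    linear_combination this
  have m1 := hL g (by rw [hg, e1])
  have m2 := hL g⁻¹ (by rw [map_inv, inv_pow, inv_pow, hg, e1, inv_one])
  have h6 := I.mul_mem_right _ ⟨_, m1⟩ (I.mul_mem_left ⟨_, m2⟩ _ hw)
  have h7 := I.mul_mem_left (algebraMap ℂ UD (1 / 3)) _ (I.add_mem (I.add_mem hw h6)
    (I.mul_mem_right _ ⟨_, m1⟩ (I.mul_mem_left ⟨_, m2⟩ _ h6)))
  convert h7
  refine Subtype.ext (op_ext fun ξ z => ?_)
  have hg' : (th g : ℂ) ^ 3 ^ k = ex (1 / 3) := by rw [← hg, Circle.coe_pow]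
  simp only [OneMemClass.coe_one, one_apply_eq_self, one_div, ← Algebra.smul_def, smul_add, AddMemClass.coe_add, SetLike.val_smul, h5, UU, Circle.coe_pow, MulMemClass.coe_mul, add_apply, smul_apply, mul_apply_eq_comp, sub_apply, map_sub, AddSubgroup.coe_add, lp.coeFn_smul, AddSubgroupClass.coe_sub, PreLp.add_apply, Pi.smul_apply, PreLp.sub_apply, dg_apply, smul_eq_mul, Lt_apply, inv_inv, inv_mul_cancel_left, map_mul, Circle.coe_mul, mul_pow, hg']
  rw [one_div] at e2
  generalize (th z : ℂ) ^ 3 ^ k = U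
  linear_combination (2 / 3 * U * ξ z - 1 / 3 * U ^ 2 * ξ z * (ex 3⁻¹ ^ 2 - ex 3⁻¹ + 1)) * e2

theorem clos_mono (e : BOp HH) {T T' : Set (BOp HH)} (h : T ⊆ T') :
    AddSubgroup.closure {y | ∃ a ∈ T, ∃ b ∈ T, y = a * e * b} ≤
      AddSubgroup.closure {y | ∃ a ∈ T', ∃ b ∈ T', y = a * e * b} :=
  AddSubgroup.closure_mono fun _ ⟨a, ha, b, hb, hy⟩ => ⟨a, h ha, b, h hb, hy⟩

theorem UD_fin {e : BOp HH} (he : e ∈ UD) (h0 : e ≠ 0) : ∃ T : Set (BOp HH), T.Countable ∧
    T ⊆ UD ∧ 1 ∈ AddSubgroup.closure {y | ∃ a ∈ T, ∃ b ∈ T, y = a * e * b} := by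
  have h := UD_full he h0 _ (TwoSidedIdeal.subset_span (s := {⟨e, he⟩}) rfl)
  rw [TwoSidedIdeal.mem_span_iff_mem_addSubgroup_closure] at h
  refine AddSubgroup.closure_induction (p := fun x _ => ∃ T : Set (BOp HH), T.Countable ∧
    T ⊆ UD ∧ x.1 ∈ AddSubgroup.closure {y | ∃ a ∈ T, ∃ b ∈ T, y = a * e * b}) ?_
    ⟨∅, by simp, by simp, zero_mem _⟩ ?_ (fun x _ ⟨T, h1, h2, h3⟩ => ⟨T, h1, h2, neg_mem h3⟩) h
  · rintro _ ⟨_, ⟨a, -, _, rfl, rfl⟩, b, -, rfl⟩
    exact ⟨{a.1, b.1}, by simp, by rintro _ (rfl | rfl) <;> simp,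
      AddSubgroup.subset_closure ⟨a, by simp, b, by simp, rfl⟩⟩
  · rintro x y - - ⟨T, h1, h2, h3⟩ ⟨T', h4, h5, h6⟩
    exact ⟨T ∪ T', h1.union h4, Set.union_subset h2 h5,
      add_mem (clos_mono e Set.subset_union_left h3) (clos_mono e Set.subset_union_right h6)⟩

/-- A bump function of the character. -/
noncomputable def bump : BOp HH := dg (fun z => (max ((th z : ℂ).re - 1 / 2) 0 : ℝ)) fun z => by
  have := (Complex.re_le_norm (th z : ℂ)).trans_eq (Circle.norm_coe _)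
  rw [Complex.norm_real, Real.norm_of_nonneg (le_max_right _ _)]
  exact max_le (by linarith) zero_le_one

theorem bump_mem : bump ∈ DD 1 := ⟨dg_mem (fun w => (max ((w : ℂ).re - 1 / 2) 0 : ℝ)) _,
  op_ext fun _ _ => by simp only [UU, pow_one, bump, one_div, mul_apply_eq_comp, dg_apply]; ring, continuous_iff_continuousAt.2 fun t => by
    refine tendsto_iff_norm_sub_tendsto_zero.2 (squeeze_zero (g := fun s => ‖(ex s : ℂ) - ex t‖)
      (fun _ => norm_nonneg _) (fun s => ContinuousLinearMap.opNorm_le_bound _ (norm_nonneg _)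
        fun ξ => norm_le_of (.refl _) (norm_nonneg _) _ _ fun z => ?_) ?_)
    · simp only [bump, Ad_dg, _root_.sub_apply, lp.coeFn_sub, Pi.sub_apply, dg_apply, ← sub_mul,
        norm_mul, Equiv.refl_apply, ← Complex.ofReal_sub, Complex.norm_real, Real.norm_eq_abs]
      refine mul_le_mul_of_nonneg_right ((abs_max_sub_max_le_abs _ _ _).trans ?_) (norm_nonneg _)
      rw [sub_sub_sub_cancel_right, ← Complex.sub_re]
      refine (Complex.abs_re_le_norm _).trans_eq ?_
      simp [← mul_sub]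
    · have := continuous_ex
      exact Continuous.tendsto' (by fun_prop) _ _ (by simp)⟩

theorem ev_proj {e : BOp HH} (he : IsStarProjection e) : ev e = ‖e (dl 1)‖ ^ 2 := by
  rw [← ev_sq, proj_sq he]

theorem ev_le (x : BOp HH) : |ev x| ≤ ‖x‖ :=
  (Complex.abs_re_le_norm _).trans ((lp.norm_apply_le_norm two_ne_zero _ _).trans
    (by simpa only [norm_dl, mul_one] using x.le_opNorm (dl 1)))

theorem ev_gap {e : BOp HH} (hN : e ∈ NN) (he : IsStarProjection e) {ε : ℝ}
    (h : ∀ i : ℤ, i = 0 ∨ i = 1 → ‖e * Lt (of i) - Lt (of i) * e‖ ≤ ε) (g : FG) :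
    ev (Ad g e) ≤ ev (Ad g e) ^ 2 + 113 * ε ^ 2 := by
  have key : ∀ i : ℤ, i = 0 ∨ i = 1 →
      ‖Lt (of i) (Rt (of i) (Ad g e (dl 1))) - Ad g e (dl 1)‖ ≤ ε := fun i hi => by
    have h1 := (Ad g (e * Lt (of i) - Lt (of i) * e)).le_opNorm (dl (of (i : ℝ))⁻¹)
    rw [norm_Ad, norm_dl, mul_one, map_sub, map_mul, map_mul, Ad_Lt] at h1
    rw [← mul_apply_eq_comp (Rt _), mem_NN.1 (Ad_mem hN g) _ (by simp [ex_int]), norm_sub_rev]
    simpa only [mul_apply_eq_comp, Rt_dl, one_mul, ge_iff_le, sub_apply, Lt_dl, mul_inv_cancel] using h1.trans (h i hi)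
  have h1 := gap _ (by simpa only [Int.cast_zero] using key 0 (.inl rfl)) (by simpa only [Int.cast_one] using key 1 (.inr rfl))
  have h2 := ev_proj (he.map (Ad g))
  have h3 : Ad g e (dl 1) 1 = (‖Ad g e (dl 1)‖ ^ 2 : ℝ) := by
    nth_rewrite 1 [← proj_sq (he.map (Ad g))]
    rw [← inner_dl, mul_apply_eq_comp, ContinuousLinearMap.star_eq_adjoint,
      ContinuousLinearMap.adjoint_inner_right, inner_self_eq_norm_sq_to_K]
    norm_cast
  rwa [h3, ← h2, Complex.norm_real, Real.norm_eq_abs, sq_abs] at h1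

theorem TT_near (n : ℕ) [NeZero n] {v w : BOp HH} (hv : ‖v‖ ≤ 1) (h : ‖v - w‖ ≤ 1 / 100) :
    |TT n (star v * v) - TT n (star w * w)| ≤ Fintype.card (mu n) * (3 / 100) := by
  rw [← map_sub, TT_apply, ← nsmul_eq_mul, ← Finset.card_univ]
  refine (Finset.abs_sum_le_sum_abs _ _).trans (Finset.sum_le_card_nsmul _ _ _ fun z _ =>
    (ev_le _).trans ?_)
  rw [norm_Ad, show star v * v - star w * w = star v * (v - w) + star (v - w) * v -
    star (v - w) * (v - w) by rw [star_sub]; noncomm_ring]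
  have h1 := norm_mul_le (star v) (v - w)
  have h2 := norm_mul_le (star (v - w)) v
  have h3 := norm_mul_le (star (v - w)) (v - w)
  rw [norm_star] at h1 h2 h3
  refine (norm_sub_le _ _).trans ((add_le_add_left (norm_add_le _ _) _).trans ?_)
  nlinarith only [norm_nonneg (v - w), hv, h, h1, h2, h3]

end lim


section sep

open Classical Filter Topology TopologicalSpace
open FreeGroup (of)

/-- The closure properties asked of a countable set of operators. -/
def Wit (x y : BOp HH) (T : Set (BOp HH)) : Prop :=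
  ({x + y, x * y, star x, fl (1 / 2) x} : Set (BOp HH)) ⊆ T ∧
  (∀ j : ℕ, ∃ a ∈ T, ∃ b ∈ T, IsSelfAdjoint a ∧ a * b = 1 ∧ b * a = 1 ∧
    ‖(1 / 2 : ℂ) • (x + star x) - a‖ < 1 / (j + 1)) ∧
  (1 / 2 < ‖star x * x‖ → ∃ e ∈ T, ∃ k ∈ T, k * (star x * x) * e = e ∧ ‖k‖ ≤ 2 ∧
    1 ∈ AddSubgroup.closure {y | ∃ a ∈ T, ∃ b ∈ T, y = a * e * b})

theorem Wit.mono {x y : BOp HH} {T T' : Set (BOp HH)} (h : Wit x y T) (hT : T ⊆ T') : Wit x y T' :=
  ⟨h.1.trans hT, fun j => let ⟨a, ha, b, hb, h⟩ := h.2.1 j; ⟨a, hT ha, b, hT hb, h⟩,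
    fun h0 => let ⟨e, he, k, hk, h1, h2, h3⟩ := h.2.2 h0
      ⟨e, hT he, k, hT hk, h1, h2, clos_mono e hT h3⟩⟩

theorem Lt_DD (i : ℤ) : Lt (of i) ∈ DD 1 := ⟨Lt_mem _, op_ext fun ξ z => by
  simp only [UU, pow_one, mul_apply_eq_comp, dg_apply, Lt_apply, map_mul, map_inv, th_of, ex_int, inv_one, one_mul], by simpa only [Ad_Lt] using continuous_const⟩

theorem exists_wit (x : BOp HH) (hx : x ∈ UD) (y : BOp HH) (hy : y ∈ UD) :
    ∃ T : Set (BOp HH), T.Countable ∧ T ⊆ UD ∧ Wit x y T := by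
  choose a ha b hb hab using fun j : ℕ => UD_rr (SMulMemClass.smul_mem _ (add_mem hx (star_mem hx)))
    (half_sa x) (ε := 1 / (j + 1)) (by positivity)
  obtain ⟨m, hm⟩ := mem_UD.1 hx
  obtain ⟨T, t1, t2, t3⟩ : ∃ T : Set (BOp HH), T.Countable ∧ T ⊆ UD ∧
      (1 / 2 < ‖star x * x‖ → ∃ e ∈ T, ∃ k ∈ T, k * (star x * x) * e = e ∧ ‖k‖ ≤ 2 ∧
      1 ∈ AddSubgroup.closure {y | ∃ a ∈ T, ∃ b ∈ T, y = a * e * b}) := by
    by_cases h : 1 / 2 < ‖star x * x‖
    · obtain ⟨e, he, k, hk, h1, h2, h3⟩ := cut_sub _ (mul_mem (star_mem hm) hm) (.star_mul_self x) h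
      obtain ⟨T, h4, h5, h6⟩ := UD_fin (mem_UD.2 ⟨m, he⟩) h1
      exact ⟨insert e (insert k T), (h4.insert _).insert _,
        Set.insert_subset (mem_UD.2 ⟨m, he⟩) (Set.insert_subset (mem_UD.2 ⟨m, hk⟩) h5),
        fun _ => ⟨e, .inl rfl, k, .inr (.inl rfl), h2, h3,
          clos_mono _ (fun _ h => .inr (.inr h)) h6⟩⟩
    · exact ⟨∅, by simp, by simp, fun h' => absurd h' h⟩
  refine ⟨({x + y, x * y, star x, fl (1 / 2) x} ∪ (Set.range a ∪ Set.range b)) ∪ T,
    ((Set.toFinite _).countable.union ((Set.countable_range _).union (Set.countable_range _))).union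
      t1, Set.union_subset ?_ t2, fun z hz => .inl (.inl hz),
    fun j => ⟨a j, .inl (.inr (.inl ⟨j, rfl⟩)), b j, .inl (.inr (.inr ⟨j, rfl⟩)), hab j⟩,
    fun h => let ⟨e, he, k, hk, h1, h2, h3⟩ := t3 h
      ⟨e, .inr he, k, .inr hk, h1, h2, clos_mono e Set.subset_union_right h3⟩⟩
  rintro _ ((rfl | rfl | rfl | rfl) | ⟨j, rfl⟩ | ⟨j, rfl⟩)
  exacts [add_mem hx hy, mul_mem hx hy, star_mem hx, mem_UD.2 ⟨m, fl_mem hm _⟩, ha j, hb j]

theorem exists_set : ∃ S : Set (BOp HH), S.Countable ∧ S ⊆ UD ∧ (∀ j, denseSeq ℂ j • 1 ∈ S) ∧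
    (∀ i : ℤ, Lt (of i) ∈ S) ∧ bump ∈ S ∧ (∀ m, UU (3 ^ m) ∈ S) ∧ ∀ x ∈ S, ∀ y ∈ S, Wit x y S := by
  obtain ⟨S, h1, h2, h3, h4⟩ := close UD Wit exists_wit
    (S0 := (Set.range (fun j => denseSeq ℂ j • (1 : BOp HH)) ∪ Set.range fun i : ℤ => Lt (of i)) ∪
      insert bump (Set.range fun m => UU (3 ^ m)))
    (((Set.countable_range _).union (Set.countable_range _)).union ((Set.countable_range _).insert _))
    (by
      rintro _ ((⟨j, rfl⟩ | ⟨i, rfl⟩) | rfl | ⟨m, rfl⟩)
      exacts [SMulMemClass.smul_mem _ (one_mem UD), mem_UD.2 ⟨0, Lt_DD i⟩, mem_UD.2 ⟨0, bump_mem⟩,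
        mem_UD.2 ⟨0, UU_mem _ _⟩])
  exact ⟨S, h1, h3, fun j => h2 (.inl (.inl ⟨j, rfl⟩)), fun j => h2 (.inl (.inr ⟨j, rfl⟩)),
    h2 (.inr (.inl rfl)), fun m => h2 (.inr (.inr ⟨m, rfl⟩)),
    fun x hx y hy => let ⟨_, hT, h⟩ := h4 x hx y hy; h.mono hT⟩

/-- A countable set of operators with all the closure properties. -/
noncomputable def SS : Set (BOp HH) := exists_set.choose

theorem wit {x y : BOp HH} (hx : x ∈ SS) (hy : y ∈ SS) : Wit x y SS :=
  exists_set.choose_spec.2.2.2.2.2.2 x hx y hy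

/-- The separable algebra. -/
noncomputable def AA : StarSubalgebra ℂ (BOp HH) where
  carrier := closure SS
  mul_mem' ha hb := map_mem_closure₂ continuous_mul ha hb fun _ ha _ hb => (wit ha hb).1 (by simp only [one_div, Set.mem_insert_iff, Set.mem_singleton_iff, true_or, or_true])
  add_mem' ha hb := map_mem_closure₂ continuous_add ha hb fun _ ha _ hb => (wit ha hb).1 (by simp only [one_div, Set.mem_insert_iff, Set.mem_singleton_iff, true_or])
  star_mem' ha := map_mem_closure continuous_star ha fun _ ha => (wit ha ha).1 (by simp only [one_div, Set.mem_insert_iff, Set.mem_singleton_iff, true_or, or_true])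
  algebraMap_mem' r := map_mem_closure (f := algebraMap ℂ (BOp HH)) (continuous_algebraMap _ _)
    (denseRange_denseSeq ℂ r) (by
      rintro _ ⟨j, rfl⟩
      rw [Algebra.algebraMap_eq_smul_one]
      exact exists_set.choose_spec.2.2.1 j)

instance closed_AA : IsClosed (AA : Set (BOp HH)) := isClosed_closure

theorem AA_ind {S : Set (BOp HH)} (hS : IsClosed S) (h : ∀ m, ∀ x ∈ DD (3 ^ m), x ∈ S)
    {x : BOp HH} (hx : x ∈ AA) : x ∈ S :=
  hS.closure_subset_iff.2 (fun y hy => let ⟨m, hm⟩ := mem_UD.1 (exists_set.choose_spec.2.1 hy)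
    h m y hm) hx

theorem dense_SS : Dense {x : AA | x.1 ∈ SS} := fun x =>
  closure_subtype.2 (closure_mono (s := SS)
    (fun y hy => (Set.mem_image _ _ _).2 ⟨⟨y, subset_closure hy⟩, hy, rfl⟩) x.2)

instance : SeparableSpace AA :=
  ⟨_, exists_set.choose_spec.1.preimage Subtype.val_injective, dense_SS⟩

instance (m : ℕ) : IsClosed ((AA ⊓ DD (3 ^ m) : StarSubalgebra ℂ (BOp HH)) : Set (BOp HH)) :=
  closed_AA.inter (closed_DD _)

theorem incl_val {S T : StarSubalgebra ℂ (BOp HH)} (h : S ≤ T) (x : S) :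
    (StarSubalgebra.inclusion h x).1 = x.1 := rfl

theorem isLim : IsLim fun m => StarSubalgebra.inclusion (inf_le_left : AA ⊓ DD (3 ^ m) ≤ AA) where
  inj m := StarSubalgebra.inclusion_injective _
  mono m x := ⟨⟨x, x.2.1, DD_mono m.le_succ x.2.2⟩,
    Subtype.ext ((incl_val _ _).trans (incl_val _ x).symm)⟩
  dense c ε hε := by
    obtain ⟨y, h, h'⟩ := dense_SS.exists_dist_lt c hε
    obtain ⟨m, hm⟩ := mem_UD.1 (exists_set.choose_spec.2.1 h)
    refine ⟨m, ⟨y, y.2, hm⟩, lt_of_eq_of_lt ?_ h'⟩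
    rw [dist_eq_norm]
    exact congrArg (fun z => ‖c - z‖) (Subtype.ext rfl)

theorem AA_NN {x : BOp HH} (hx : x ∈ AA) : x ∈ NN := AA_ind closed_NN (fun _ _ h => h.1) hx

/-- The half turn on the separable algebra. -/
noncomputable def flA : AA →⋆ₐ[ℂ] AA :=
  ((fl (1 / 2)).comp AA.subtype).codRestrict AA fun x =>
    map_mem_closure (f := fl (1 / 2)) (x := x.1) (cont_hom _) x.2 fun _ ha => (wit ha ha).1 (by simp only [one_div, Set.mem_insert_iff, Set.mem_singleton_iff, or_true])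

theorem flA_half : flA.comp flA = StarAlgHom.id ℂ AA := by
  ext1 x
  refine Subtype.ext ((fl_add (AA_NN x.2) _ _).trans ?_)
  rw [add_halves]
  simpa using fl_int (AA_NN x.2) 1

/-- The action of the group of order two. -/
noncomputable def act : ℤˣ →* StarAut AA where
  toFun g := if g = 1 then 1 else StarAlgEquiv.ofStarAlgHom _ _ flA_half flA_half
  map_one' := if_pos rfl
  map_mul' g h := by
    rcases Int.units_eq_one_or g with rfl | rfl <;> rcases Int.units_eq_one_or h with rfl | rfl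
    iterate 3 simp
    exact StarAlgEquiv.ext fun x => (DFunLike.congr_fun flA_half x).symm

theorem AA_sf : IsStablyFiniteRing AA := isLim.stablyFinite fun m =>
  haveI := DD_sf (3 ^ m)
  .of_injective (StarSubalgebra.inclusion (inf_le_right : AA ⊓ DD (3 ^ m) ≤ _))
    (StarSubalgebra.inclusion_injective _)

theorem AA_rr (x : AA) (hx : IsSelfAdjoint x) (ε : ℝ) (hε : 0 < ε) :
    ∃ y : AA, IsSelfAdjoint y ∧ IsUnit y ∧ ‖x - y‖ < ε := by
  refine dense_rr dense_SS (fun d hd ε hε => ?_) x hx ε hε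
  obtain ⟨j, hj⟩ := exists_nat_one_div_lt hε
  obtain ⟨a, ha, b, hb, h1, h2, h3, h4⟩ := (wit hd hd).2.1 j
  exact ⟨⟨a, subset_closure ha⟩, Subtype.ext h1, ⟨⟨_, ⟨b, subset_closure hb⟩, Subtype.ext h2,
    Subtype.ext h3⟩, rfl⟩, h4.trans hj⟩

theorem AA_simple : IsSimpleCStar AA := dense_simple dense_SS fun d hd h => by
  obtain ⟨e, he, k, hk, h1, h2, h3⟩ := (wit hd hd).2.2 h
  refine ⟨⟨e, subset_closure he⟩, ⟨k, subset_closure hk⟩, Subtype.ext h1, h2, fun I hI => ?_⟩
  obtain ⟨a, ha, h4⟩ : ∃ a ∈ I, a.1 = 1 := by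
    refine AddSubgroup.closure_induction (p := fun x _ => ∃ a ∈ I, a.1 = x) ?_ ⟨0, I.zero_mem, rfl⟩
      ?_ (fun _ _ ⟨a, ha, h⟩ => ⟨-a, I.neg_mem ha, h ▸ rfl⟩) h3
    · rintro _ ⟨a, ha, b, hb, rfl⟩
      exact ⟨_, I.mul_mem_right _ ⟨b, subset_closure hb⟩
        (I.mul_mem_left ⟨a, subset_closure ha⟩ _ hI), rfl⟩
    · rintro _ _ - - ⟨a, ha, rfl⟩ ⟨b, hb, rfl⟩
      exact ⟨a + b, I.add_mem ha hb, rfl⟩
  exact (Subtype.ext h4 : a = 1) ▸ ha

theorem not_trp : ¬ HasTracialRokhlin act := by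
  intro h
  have hL : ∀ i : ℤ, Lt (of i) ∈ AA := fun i => subset_closure (exists_set.choose_spec.2.2.2.1 i)
  obtain ⟨e, h1, h2, h3, h4, p, hp, hpx, v, hv1, hv2⟩ := h {⟨_, hL 0⟩, ⟨_, hL 1⟩} (1 / 50)
    (by norm_num) _ ⟨⟨bump, subset_closure exists_set.choose_spec.2.2.2.2.1⟩, rfl⟩ fun h0 => by
      have := congrArg (fun x : AA => x.1 (dl 1) 1) (CStarRing.star_mul_self_eq_zero_iff _ |>.1 h0)
      norm_num only [bump, dg_apply, map_one, Circle.coe_one, Complex.one_re, sup_of_le_left, Complex.ofReal_div, Complex.ofReal_one, Complex.ofReal_ofNat, one_div, dl_apply, ite_true, mul_one, ZeroMemClass.coe_zero, zero_apply, PreLp.zero_apply, div_eq_zero_iff, or_self] at this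
  have p1 : ∀ g, IsStarProjection (e g).1 := fun g => (h1 g).map AA.subtype
  have ps : IsStarProjection ((e 1).1 + (e (-1)).1) :=
    (p1 1).add (p1 (-1)) (congrArg Subtype.val (h2 1 (-1) (by decide)))
  let φ : ℤˣ → ℝ → ℝ := fun g t => ev (fl t (e g))
  have c1 : ∀ g, Continuous (φ g) := fun g =>
    (AddMonoidHomClass.continuous_of_bound ev 1 fun x => by simpa only [Real.norm_eq_abs, one_mul] using ev_le x).comp
      (AA_ind closed_fl (fun _ _ h => h.2.2) (e g).2)
  have c2 : ∀ g t, φ g t ≤ φ g t ^ 2 + 113 * (1 / 50) ^ 2 := fun g t =>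
    ev_gap (AA_NN (e g).2) (p1 g) (by
      rintro _ (rfl | rfl)
      · exact (h4 g ⟨_, hL 0⟩ (by simp)).le
      · exact (h4 g ⟨_, hL 1⟩ (by simp)).le) _
  have c3 : ∀ t, φ 1 t + φ (-1) t ≤ 1 := fun t => by
    simp only [φ, ← map_add]
    exact (le_abs_self _).trans ((ev_le _).trans ((norm_Ad _ _).trans_le ps.norm_le))
  have c4 : ∀ g, φ g (0 + 1 / 2) ≤ φ (-1 * g) 0 + 1 / 50 := fun g => by
    have := (le_abs_self _).trans ((ev_le _).trans ((norm_Ad (of 0) _).trans_le (h3 (-1) g).le))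
    change ev (fl 0 (fl (1 / 2) (e g) - e (-1 * g))) ≤ _ at this
    rw [map_sub, map_sub, fl_add (AA_NN (e g).2)] at this
    exact sub_le_iff_le_add'.1 this
  have c5 : ∀ g t, φ g t ≤ 1 / 10 := fun g t => by
    obtain ⟨s, hs⟩ : ∃ s, φ g s ≤ 3 / 5 := by
      by_contra hc
      push Not at hc
      have := c4 g
      have := c3 0
      have := hc 0
      have := hc (0 + 1 / 2)
      rcases Int.units_eq_one_or g with rfl | rfl <;> simp only [mul_one, mul_neg, neg_neg] at * <;>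
        linarith
    by_contra hc
    have h5 : 3 / 5 ≤ φ g t := by nlinarith only [c2 g t, hc]
    obtain ⟨u, hu⟩ := intermediate_value_univ s t (c1 g) ⟨hs, h5⟩
    nlinarith only [c2 g u, hu]
  obtain ⟨m, ⟨w, hw0, hw⟩, hvw⟩ := isLim.dense v (1 / 100) (by norm_num)
  replace hvw : ‖v.1 - w‖ < 1 / 100 := hvw
  replace hw := DD_mono m.le_succ hw
  have hv1' : star v.1 * v.1 = 1 - ((e 1).1 + (e (-1)).1) := by
    rw [show (Finset.univ : Finset ℤˣ) = {1, -1} from rfl, Finset.sum_pair (by decide)] at hv1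
    exact congrArg Subtype.val hv1
  have hv2' : v.1 * star v.1 = p.1 := congrArg Subtype.val hv2
  have nv : ‖v.1‖ ≤ 1 := by
    rw [mul_self_le_mul_self_iff (norm_nonneg _) zero_le_one, ← CStarRing.norm_star_mul_self, hv1',
      one_mul]
    exact ps.one_sub.norm_le
  have t1 := abs_le.1 (TT_near (3 ^ m.succ) nv hvw.le)
  have t2 := abs_le.1 (TT_near (3 ^ m.succ) (v := star v.1) (w := star w) (by rwa [norm_star])
    (by rw [← star_sub, norm_star]; exact hvw.le))
  rw [star_star, star_star, hv2', ← TT_comm _ hw.1 hw.2.1] at t2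
  have t3 : Fintype.card (mu (3 ^ m.succ)) * (4 / 5 : ℝ) ≤ TT (3 ^ m.succ) (star v.1 * v.1) := by
    rw [hv1', TT_apply, ← nsmul_eq_mul, ← Finset.card_univ]
    refine Finset.card_nsmul_le_sum _ _ _ fun z _ => ?_
    have : ev 1 = 1 := by simp only [ev, AddMonoidHom.coe_mk, ZeroHom.coe_mk, one_apply_eq_self, dl_apply, ↓ reduceIte, Complex.one_re]
    simp only [map_sub, map_add, map_one, this]
    linarith only [c5 1 (sc z), c5 (-1) (sc z)]
  have t4 : ∑ z : mu (3 ^ m.succ), (z.1 : ℂ) = 0 := by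
    have e1 : ex (1 / 3) ∈ mu (3 ^ m.succ) := by
      change ex (1 / 3) ^ 3 ^ (m + 1) = 1
      rw [pow_succ', pow_mul, ex_third, one_pow]
    refine (mul_eq_zero.1 ?_).resolve_left ex_third'
    rw [sub_mul, one_mul, sub_eq_zero, Finset.mul_sum]
    exact Equiv.sum_comp (Equiv.mulLeft (⟨_, e1⟩ : mu (3 ^ m.succ))) fun z => (z.1 : ℂ)
  have t5 : TT (3 ^ m.succ) p.1 ≤ ∑ z : mu (3 ^ m.succ), 2 / 3 * (1 + (z.1 : ℂ).re) := by
    refine Finset.sum_le_sum fun z _ => ?_
    by_cases hz : (z.1 : ℂ).re ≤ 1 / 2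
    · have h5 : p.1 (dl (of (sc z))) = 0 := by
        refine (isClosed_eq (f := fun y : AA => y.1 (dl (of (sc z)))) (by fun_prop)
          continuous_const).closure_subset_iff.2 ?_ hpx
        rintro _ ⟨a, rfl⟩
        have h6 : bump (dl (of (sc z))) = 0 := by
          rw [bump, dg_dl, th_of, ex_sc, max_eq_right (by linarith only [hz])]; simp
        simp only [Nat.succ_eq_add_one, Set.mem_ofPred_eq, MulMemClass.coe_mul, StarMemClass.coe_star, mul_apply_eq_comp, h6, map_zero]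
      rw [← proj_sq (show IsStarProjection p.1 from hp.map AA.subtype), ev_Ad]
      have := abs_le.1 ((Complex.abs_re_le_norm (z.1 : ℂ)).trans_eq (Circle.norm_coe _))
      simp only [h5, norm_zero]
      linarith only [this]
    · have := (le_abs_self _).trans ((ev_le _).trans ((norm_Ad (of (sc z)) _).trans_le
        (hp.map AA.subtype).norm_le))
      exact this.trans (by linarith only [hz])
  rw [← Finset.mul_sum, Finset.sum_add_distrib, ← Complex.re_sum, t4] at t5
  simp only [Finset.sum_const, Finset.card_univ, nsmul_eq_mul, mul_one, Complex.zero_re,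
    add_zero] at t5
  have : (0 : ℝ) < Fintype.card (mu (3 ^ m.succ)) := Nat.cast_pos.2 Fintype.card_pos
  linarith only [t1, t2, t3, t5, this]

theorem exists_odd (m : ℕ) : ∃ c d : AA, IsSelfAdjoint c ∧ IsSelfAdjoint d ∧ Commute c d ∧
    c * c + d * d = 1 ∧ (∀ g : ℤˣ, act g c = ((g : ℤ) : ℂ) • c) ∧
    (∀ g : ℤˣ, act g d = ((g : ℤ) : ℂ) • d) ∧
    ∀ x : AA, x.1 ∈ DD (3 ^ m) → Commute c x ∧ Commute d x := by
  let u : AA := ⟨UU (3 ^ m), subset_closure (exists_set.choose_spec.2.2.2.2.2.1 m)⟩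
  have h1 : u * star u = 1 := Subtype.ext (op_ext fun ξ z => by
    simp only [u, UU, Circle.coe_pow, MulMemClass.coe_mul, StarMemClass.coe_star, star_dg, map_pow, mul_apply_eq_comp, dg_apply, ← mul_assoc, ← mul_pow, Complex.mul_conj, Circle.normSq_coe, Complex.ofReal_one, one_pow, one_mul, OneMemClass.coe_one, one_apply_eq_self])
  have h2 : star u * u = 1 := Subtype.ext (op_ext fun ξ z => by
    simp only [u, UU, Circle.coe_pow, MulMemClass.coe_mul, StarMemClass.coe_star, star_dg, map_pow, mul_apply_eq_comp, dg_apply, ← mul_assoc, ← mul_pow, Complex.conj_mul', norm_eq_of_mem_sphere, Complex.ofReal_one, one_pow, one_mul, OneMemClass.coe_one, one_apply_eq_self])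
  have h3 : ∀ g : ℤˣ, act g u = ((g : ℤ) : ℂ) • u := fun g => by
    rcases Int.units_eq_one_or g with rfl | rfl
    · simp only [map_one, StarAlgEquiv.one_apply, Units.val_one, Int.cast_one, one_smul]
    refine Subtype.ext ((Ad_UU _ _).trans ?_)
    have : (ex (1 / 2) : ℂ) = -1 := by
      rw [ex, show 2 * Real.pi * (1 / 2) = Real.pi by ring, Circle.coe_exp, Complex.exp_pi_mul_I]
    rw [th_of, Circle.coe_pow, this, (Odd.pow (by decide)).neg_one_pow]
    simp [u]
  have h4 : ∀ g : ℤˣ, act g (star u) = ((g : ℤ) : ℂ) • star u := fun g => by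
    rw [map_star, h3]; simp only [star_smul, star_intCast]
  have h5 : ∀ x : AA, x.1 ∈ DD (3 ^ m) → Commute u x := fun x hx => Subtype.ext hx.2.1
  have h6 : ∀ x : AA, x.1 ∈ DD (3 ^ m) → Commute (star u) x :=
    fun x hx => by simpa only [star_star] using (h5 (star x) (star_mem hx)).star_star
  have h7 : Commute u (star u) := h1.trans h2.symm
  clear_value u
  refine ⟨(1 / 2 : ℂ) • (u + star u), (Complex.I / 2) • (star u - u), ?_, ?_, ?_, ?_,
    fun g => by rw [map_smul, map_add, h3, h4, ← smul_add, smul_comm],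
    fun g => by rw [map_smul, map_sub, h3, h4, ← smul_sub, smul_comm],
    fun x hx => ⟨((h5 x hx).add_left (h6 x hx)).smul_left _,
      ((h6 x hx).sub_left (h5 x hx)).smul_left _⟩⟩
  · exact half_sa u
  · simp only [IsSelfAdjoint, star_smul, star_sub, star_star, star_div₀, Complex.star_def,
      Complex.conj_I, map_ofNat]
    module
  · exact (((h7.sub_right (.refl _)).add_left ((Commute.refl _).sub_right h7.symm)).smul_left
      _).smul_right _
  · simp only [smul_mul_smul_comm, mul_add, add_mul, mul_sub, sub_mul, h1, h2, div_mul_div_comm,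
      Complex.I_mul_I]
    module

end sep

open scoped Matrix.Norms.L2Operator in
theorem exists_example : ∃ (A B : Type) (_ : CStarAlgebra A) (_ : CStarAlgebra B)
    (α : ℤˣ →* StarAut A) (β : ℤˣ →* StarAut B),
    IsSimpleCStar A ∧ IsSimpleCStar B ∧ ¬ HasTracialRokhlin α ∧ HasRokhlin β ∧
    TopologicalSpace.SeparableSpace A ∧ TopologicalSpace.SeparableSpace B ∧
    (∀ x : A, IsSelfAdjoint x → ∀ ε : ℝ, 0 < ε → ∃ y : A, IsSelfAdjoint y ∧ IsUnit y ∧ ‖x - y‖ < ε) ∧
    (∀ x : B, IsSelfAdjoint x → ∀ ε : ℝ, 0 < ε → ∃ y : B, IsSelfAdjoint y ∧ IsUnit y ∧ ‖x - y‖ < ε) ∧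
    ∀ (C : Type) [CStarAlgebra C] (i : A →⋆ₐ[ℂ] C) (j : B →⋆ₐ[ℂ] C), IsGen i j →
      IsSimpleCStar C ∧ IsStablyFiniteCStar C ∧ ∃ γ : ℤˣ × ℤˣ →* StarAut C,
        (∀ g k a b, γ (g, k) (i a * j b) = i (α g a) * j (β k b)) ∧ HasRokhlin γ := by
  obtain ⟨B, iB, β, J, _, _, _, ι, hι, hBs, hB⟩ := exists_algB
  choose c d hc hd hcd hcd1 hαc hαd hcf using exists_odd
  choose s t r hs ht hr hs2 ht2 hr2 hst hsr htr hβs hβt hβr hιc using hB
  have hd' : Dense (⋃ n, Set.range (ι n)) := Metric.dense_iff.2 fun x ε hε => by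
    obtain ⟨n, y, h⟩ := hι.dense x ε hε
    exact ⟨ι n y, by rwa [Metric.mem_ball', dist_eq_norm], Set.mem_iUnion.2 ⟨n, y, rfl⟩⟩
  refine ⟨AA, B, inferInstance, iB, act, β, AA_simple, hBs, not_trp,
    rokhlin_one β r hr hr2 hβr hι fun n x => (hιc n x).2.2, inferInstance,
    hd'.isSeparable_iff.1 (.iUnion fun n => TopologicalSpace.isSeparable_range (cont_hom (ι n))),
    AA_rr, dense_rr hd' fun y hy ε hε => ?_, fun C _ i j h => ?_⟩
  · obtain ⟨n, x, rfl⟩ := Set.mem_iUnion.1 hy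
    obtain ⟨κ, h1, h2⟩ := (Set.Ioo_infinite hε).exists_notMem_finite
      ((1 / 2 : ℂ) • (x + star x)).finite_real_spectrum
    refine ⟨ι n ((1 / 2 : ℂ) • (x + star x) - algebraMap ℝ _ κ),
      ((half_sa x).sub (.algebraMap _ (.all κ))).map _, IsUnit.map _ ?_, ?_⟩
    · rw [← neg_sub]; exact (spectrum.notMem_iff.1 h2).neg
    · rw [← map_star, ← map_add, ← map_smul, ← map_sub, sub_sub_cancel, hι.norm_map,
        norm_algebraMap', Real.norm_of_nonneg h1.1.le]
      exact h1.2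
  letI : PartialOrder AA := CStarAlgebra.spectralOrder AA
  haveI : StarOrderedRing AA := CStarAlgebra.spectralOrderedRing AA
  obtain ⟨γ, hγ⟩ := h.exists_action hι act β
  refine ⟨h.simple hι AA_simple, fun n v hv => ?_, γ, hγ, ?_⟩
  · haveI := h.stablyFinite hι AA_sf
    exact mul_eq_one_comm.mp hv
  have hmul : ∀ a a' b b', i a * j b * (i a' * j b') = i (a * a') * j (b * b') := by
    intro a a' b b'
    rw [mul_assoc, ← mul_assoc (j b), ← (h.comm a' b).eq, map_mul, map_mul]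
    simp only [mul_assoc]
  have hσ1 : ∀ n, IsSelfAdjoint (i (c n) * j (s n) + i (d n) * j (t n)) := fun n =>
    ((((hc n).map i).commute_iff ((hs n).map j)).mp (h.comm _ _)).add
      ((((hd n).map i).commute_iff ((ht n).map j)).mp (h.comm _ _))
  have hρ1 : ∀ n, IsSelfAdjoint (j (r n)) := fun n => (hr n).map j
  refine rokhlin_of γ (fun n => i (c n) * j (s n) + i (d n) * j (t n)) (fun n => j (r n))
    hσ1 (fun n => ?_) hρ1 (fun n => by rw [← map_mul, hr2, map_one]) (fun n => ?_)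
    (fun n g k => ?_) (fun n g k => ?_) (h.approx isLim hι _ _ hσ1 hρ1 (fun n x => ?_) fun n x => ?_)
  · simp only [mul_add, add_mul, hmul, hs2, ht2, hst, (hcd n).eq, map_one, mul_one, map_neg,
      mul_neg]
    rw [← map_one i, ← hcd1 n, map_add]
    abel
  · exact ((h.comm _ _).mul_left ((hsr n).map j)).add_left ((h.comm _ _).mul_left ((htr n).map j))
  · simp only [map_add, hγ, hαc, hαd, hβs, hβt, map_smul, smul_mul_assoc, smul_add]
  · have := hγ g k 1 (r n)
    simpa [hβr] using this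
  · exact ⟨(((hcf n _ x.2.2).1.map i).mul_left (h.comm _ _).symm).add_left
      (((hcf n _ x.2.2).2.map i).mul_left (h.comm _ _).symm), (h.comm _ _).symm⟩
  · exact ⟨((h.comm _ _).mul_left ((hιc n x).1.map j)).add_left
      ((h.comm _ _).mul_left ((hιc n x).2.1.map j)), (hιc n x).2.2.map j⟩

end Pool.Agent.MP_eaab15_an.RR
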